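import Pool.Agent.N990.C.Def

/-!
# Restriction of a smooth field to the lattice of mesh `1 / L`
-/

set_option autoImplicit false
set_option linter.unusedSectionVars false

open MeasureTheory Set Filter Topology
open scoped Classical

namespace Pool.Agent.N839.C

open Pool.Agent.N990 Pool.Agent.N990.C

noncomputable section

variable {D : ℕ}

/-- restriction of a field to the lattice -/
def rs (L : ℕ) (u : Pt D → Fin D → ℝ) : Site D → Lab D L → ℝ :=
  fun x a => u (emb L (x, ((a.2 : ℕ) : ℤ) + 1)) a.1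

lemma emb_add (L : ℕ) (z w : LPt D) : emb L (z + w) = emb L z + emb L w := by
  unfold emb
  ext j
  · simp [add_div]
  · simp [add_div]

lemma emb_sub (L : ℕ) (z w : LPt D) : emb L (z - w) = emb L z - emb L w := by
  unfold emb
  ext j
  · simp [sub_div]
  · simp [sub_div]

/-- the extension of the restriction -/
lemma ext_rs {L : ℕ} {u : Pt D → Fin D → ℝ} (hw : ∀ y, u (y, 0) = 0) {i : Fin D} {z : LPt D}
    (h0 : 0 ≤ z.2) (h1 : z.2 ≤ L) : C.ext (rs L u) i z = u (emb L z) i := by
  by_cases h : 1 ≤ z.2 ∧ z.2 ≤ L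
  · unfold C.ext rs
    rw [dif_pos h]
    congr 2
    ext
    · rfl
    · simp only
      omega
  · rw [ext_out h]
    have h2 : z.2 = 0 := by omega
    have h3 : emb L z = ((emb L z).1, 0) := by
      unfold emb
      rw [h2]
      simp
    rw [h3, hw]
    rfl

/-! ### Limits -/

lemma null_height (c : ℝ) : volume {p : Pt D | p.2 = c} = 0 := by
  have h1 : {p : Pt D | p.2 = c} = (univ : Set (Fin D → ℝ)) ×ˢ {c} := by
    ext p
    simp
  rw [h1, Measure.volume_eq_prod, Measure.prod_prod, Real.volume_singleton, mul_zero]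

lemma ae_height (c : ℝ) : ∀ᵐ p : Pt D, p.2 ≠ c := by
  rw [ae_iff]
  simp only [not_not]
  exact null_height c

lemma slb_meas : MeasurableSet (Slb D) :=
  (measurableSet_le measurable_const measurable_snd).inter
    (measurableSet_le measurable_snd measurable_const)

lemma emb_flo_tendsto (p : Pt D) : Tendsto (fun L : ℕ => emb L (flo L p)) atTop (𝓝 p) := by
  rw [tendsto_iff_norm_sub_tendsto_zero]
  refine squeeze_zero' (Eventually.of_forall fun L => norm_nonneg _)
    ((eventually_ge_atTop 1).mono fun L hL => emb_flo_dist hL p) ?_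
  exact tendsto_one_div_atTop_nhds_zero_nat

lemma inS_in {p : Pt D} (h0 : 0 < p.2) (h1 : p.2 < 1) : ∀ᶠ L : ℕ in atTop, inS L (flo L p) := by
  obtain ⟨n, hn⟩ := exists_nat_ge (1 / p.2)
  filter_upwards [eventually_ge_atTop n] with L hL
  have hL' : (n : ℝ) ≤ L := by exact_mod_cast hL
  unfold inS flo
  simp only
  constructor
  · rw [Int.le_floor]
    rw [div_le_iff₀ h0] at hn
    push_cast
    nlinarith
  · have h2 : (⌊(L : ℝ) * p.2⌋ : ℝ) ≤ L := by
      refine (Int.floor_le _).trans ?_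
      have : (0 : ℝ) ≤ L := by positivity
      nlinarith
    exact_mod_cast h2

lemma inS_out {p : Pt D} (h : p.2 < 0 ∨ 1 < p.2) : ∀ᶠ L : ℕ in atTop, ¬inS L (flo L p) := by
  rcases h with h | h
  · refine Eventually.of_forall fun L hS => ?_
    have h1 := hS.1
    unfold flo at h1
    simp only at h1
    rw [Int.le_floor] at h1
    push_cast at h1
    have : (0 : ℝ) ≤ L := by positivity
    nlinarith
  · obtain ⟨n, hn⟩ := exists_nat_ge (1 / (p.2 - 1))
    filter_upwards [eventually_ge_atTop n] with L hL hS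
    have hL' : (n : ℝ) ≤ L := by exact_mod_cast hL
    have h0 : 0 < p.2 - 1 := by linarith
    rw [div_le_iff₀ h0] at hn
    have h1 := hS.2
    unfold flo at h1
    simp only at h1
    have h2 : ((L : ℤ) : ℝ) + 1 ≤ (L : ℝ) * p.2 := by
      push_cast
      nlinarith
    have h3 : (L : ℤ) + 1 ≤ ⌊(L : ℝ) * p.2⌋ := by
      rw [Int.le_floor]
      push_cast
      push_cast at h2
      exact h2
    omega

/-- convergence of lattice sums to integrals over the slab -/
theorem tend_slab {G : ℕ → LPt D → ℝ} {g : Pt D → ℝ} {M R : ℝ}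
    (hb : ∀ L : ℕ, 1 ≤ L → ∀ z, inS L z → |G L z| ≤ M)
    (hs : ∀ L : ℕ, 1 ≤ L → ∀ z, inS L z → G L z ≠ 0 → ‖emb L z‖ ≤ R)
    (hlim : ∀ p : Pt D, 0 < p.2 → p.2 < 1 →
      Tendsto (fun L : ℕ => G L (flo L p)) atTop (𝓝 (g p))) :
    Tendsto (fun L : ℕ => ∫ p : Pt D, if inS L (flo L p) then G L (flo L p) else 0) atTop
      (𝓝 (∫ p in Slb D, g p)) := by
  rw [← integral_indicator slb_meas]
  have hmeas : ∀ L : ℕ, Measurable fun p : Pt D =>
      if inS L (flo L p) then G L (flo L p) else 0 := fun L =>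
    (measurable_of_countable fun z : LPt D => if inS L z then G L z else 0).comp (flo_meas L)
  refine tendsto_integral_filter_of_dominated_convergence
    ((Metric.closedBall (0 : Pt D) (R + 1)).indicator fun _ => |M|) ?_ ?_ ?_ ?_
  · exact Eventually.of_forall fun L => (hmeas L).aestronglyMeasurable
  · filter_upwards [eventually_ge_atTop 1] with L hL
    refine Eventually.of_forall fun p => ?_
    by_cases h : inS L (flo L p)
    · rw [if_pos h]
      by_cases h2 : G L (flo L p) = 0
      · rw [h2, norm_zero]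
        exact indicator_nonneg (fun _ _ => abs_nonneg _) _
      · have h3 := hs L hL _ h h2
        have h4 := emb_flo_dist hL p
        have hL1 : (1 : ℝ) / L ≤ 1 := by
          rw [div_le_one (by exact_mod_cast hL)]
          exact_mod_cast hL
        have h5 : p ∈ Metric.closedBall (0 : Pt D) (R + 1) := by
          rw [mem_closedBall_zero_iff]
          have : p = emb L (flo L p) - (emb L (flo L p) - p) := by abel
          rw [this]
          exact (norm_sub_le _ _).trans (by linarith)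
        rw [indicator_of_mem h5, Real.norm_eq_abs]
        exact (hb L hL _ h).trans (le_abs_self _)
    · rw [if_neg h, norm_zero]
      exact indicator_nonneg (fun _ _ => abs_nonneg _) _
  · rw [integrable_indicator_iff Metric.isClosed_closedBall.measurableSet]
    exact integrableOn_const (isCompact_closedBall _ _).measure_lt_top.ne
  · filter_upwards [ae_height (D := D) 0, ae_height (D := D) 1] with p h0 h1
    by_cases h : 0 < p.2 ∧ p.2 < 1
    · have h2 : p ∈ Slb D := ⟨h.1.le, h.2.le⟩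
      rw [indicator_of_mem h2]
      refine (hlim p h.1 h.2).congr' ?_
      filter_upwards [inS_in h.1 h.2] with L hL
      rw [if_pos hL]
    · have h2 : p ∉ Slb D := fun h3 => h ⟨lt_of_le_of_ne h3.1 (Ne.symm h0), lt_of_le_of_ne h3.2 h1⟩
      rw [indicator_of_notMem h2]
      have h3 : p.2 < 0 ∨ 1 < p.2 := by
        by_contra h4
        push Not at h4
        exact h2 ⟨h4.1, h4.2⟩
      refine tendsto_const_nhds.congr' ?_
      filter_upwards [inS_out h3] with L hL
      rw [if_neg hL]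

/-- difference quotients -/
lemma slope_tendsto {u : Pt D → Fin D → ℝ} (hu : ContDiff ℝ 1 u) {a : ℕ → Pt D} {p e : Pt D}
    (ha : Tendsto a atTop (𝓝 p)) (i : Fin D) :
    Tendsto (fun L : ℕ => (L : ℝ) * (u (a L + (1 / (L : ℝ)) • e) i - u (a L) i)) atTop
      (𝓝 (pd u e i p)) := by
  have h1 : HasStrictFDerivAt u (fderiv ℝ u p) p :=
    (hu.contDiffAt).hasStrictFDerivAt (by norm_num)
  have h2 : Tendsto (fun L : ℕ => (a L + (1 / (L : ℝ)) • e, a L)) atTop (𝓝 (p, p)) := by
    refine Tendsto.prodMk_nhds ?_ ha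
    have h3 : Tendsto (fun L : ℕ => (1 / (L : ℝ)) • e) atTop (𝓝 ((0 : ℝ) • e)) :=
      tendsto_one_div_atTop_nhds_zero_nat.smul_const e
    have h4 := ha.add h3
    rw [zero_smul, add_zero] at h4
    exact h4
  have h3 := h1.isLittleO.comp_tendsto h2
  have h4 : Tendsto (fun L : ℕ => (L : ℝ) • (u (a L + (1 / (L : ℝ)) • e) - u (a L))) atTop
      (𝓝 (fderiv ℝ u p e)) := by
    rw [tendsto_iff_norm_sub_tendsto_zero]
    have h5 : ∀ c : ℝ, 0 < c → ∀ᶠ L : ℕ in atTop,
        ‖(L : ℝ) • (u (a L + (1 / (L : ℝ)) • e) - u (a L)) - fderiv ℝ u p e‖ ≤ c := by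
      intro c hc
      have h6 := h3.def (c := c / (‖e‖ + 1)) (by positivity)
      filter_upwards [h6, eventually_ge_atTop 1] with L hL hL1
      simp only [Function.comp, add_sub_cancel_left] at hL
      have hL0 : (0 : ℝ) < L := by exact_mod_cast hL1
      have e1 : (L : ℝ) • (u (a L + (1 / (L : ℝ)) • e) - u (a L)) - fderiv ℝ u p e =
          (L : ℝ) • (u (a L + (1 / (L : ℝ)) • e) - u (a L) -
            fderiv ℝ u p ((1 / (L : ℝ)) • e)) := by
        rw [map_smul, smul_sub (L : ℝ) (u (a L + (1 / (L : ℝ)) • e) - u (a L)), smul_smul,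
          mul_one_div_cancel hL0.ne', one_smul]
      rw [e1, norm_smul, Real.norm_eq_abs, abs_of_pos hL0]
      calc (L : ℝ) * ‖u (a L + (1 / (L : ℝ)) • e) - u (a L) -
            fderiv ℝ u p ((1 / (L : ℝ)) • e)‖
          ≤ L * (c / (‖e‖ + 1) * ‖(1 / (L : ℝ)) • e‖) :=
            mul_le_mul_of_nonneg_left hL hL0.le
        _ = c * (‖e‖ / (‖e‖ + 1)) := by
            rw [norm_smul, Real.norm_eq_abs, abs_of_pos (by positivity)]
            field_simp
        _ ≤ c * 1 := by
            refine mul_le_mul_of_nonneg_left ?_ hc.le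
            rw [div_le_one (by positivity)]
            linarith
        _ = c := mul_one c
    rw [Metric.tendsto_nhds]
    intro c hc
    filter_upwards [h5 (c / 2) (by positivity)] with L hL
    rw [Real.dist_eq, sub_zero, abs_of_nonneg (norm_nonneg _)]
    linarith
  have h5 := ((continuous_apply i).tendsto _).comp h4
  exact h5

/-- test fields are bounded, Lipschitz, with bounded support -/
lemma test_bd {u : Pt D → Fin D → ℝ} (hu : IsTest u) : ∃ C R : ℝ, 0 ≤ C ∧ 0 ≤ R ∧
    (∀ p i, |u p i| ≤ C) ∧ (∀ p q i, |u p i - u q i| ≤ C * ‖p - q‖) ∧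
    ∀ p, u p ≠ 0 → ‖p‖ ≤ R := by
  obtain ⟨C, hC⟩ := hu.smooth.lipschitzWith_of_hasCompactSupport hu.supp (by norm_num)
  obtain ⟨C', hC'⟩ := hu.supp.exists_bound_of_continuous hu.smooth.continuous
  obtain ⟨R, hR⟩ := hu.supp.isCompact.isBounded.exists_norm_le
  refine ⟨max (C : ℝ) |C'|, |R|, le_max_of_le_right (abs_nonneg _), abs_nonneg _, fun p i => ?_,
    fun p q i => ?_, fun p hp => ?_⟩
  · have h1 := (norm_le_pi_norm (u p) i).trans (hC' p)
    rw [Real.norm_eq_abs] at h1
    exact h1.trans ((le_abs_self _).trans (le_max_right _ _))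
  · have h1 := hC.norm_sub_le p q
    have h2 := norm_le_pi_norm (u p - u q) i
    rw [Pi.sub_apply, Real.norm_eq_abs] at h2
    exact (h2.trans h1).trans (mul_le_mul_of_nonneg_right (le_max_left _ _) (norm_nonneg _))
  · exact (hR p (subset_tsupport _ hp)).trans (le_abs_self _)

lemma norm_eh (k : Fin D) : ‖(eh k : Pt D)‖ ≤ 1 := by
  unfold eh
  rw [Prod.norm_def]
  refine max_le ?_ (by simp)
  refine (pi_norm_le_iff_of_nonneg zero_le_one).2 fun j => ?_
  show ‖(Pi.single k (1 : ℝ) : Fin D → ℝ) j‖ ≤ 1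
  rw [Pi.single_apply]
  split_ifs <;> simp

lemma norm_ez : ‖(ez D : Pt D)‖ ≤ 1 := by
  unfold ez
  rw [Prod.norm_def]
  simp

lemma vd_rs {L : ℕ} {u : Pt D → Fin D → ℝ} (hw : ∀ y, u (y, 0) = 0) (i : Fin D) {z : LPt D}
    (hz : inS L z) : vd (rs L u) i z =
      u (emb L (z - zv D) + (1 / (L : ℝ)) • ez D) i - u (emb L (z - zv D)) i := by
  obtain ⟨h1, h2⟩ := hz
  have e1 : (z - zv D).2 = z.2 - 1 := by unfold zv; simp
  unfold vd
  rw [ext_rs hw (by omega) h2, ext_rs hw (by rw [e1]; omega) (by rw [e1]; omega), ← emb_zv,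
    ← emb_add, sub_add_cancel]

lemma hd_rs {L : ℕ} {u : Pt D → Fin D → ℝ} (hw : ∀ y, u (y, 0) = 0) (i j : Fin D) {z : LPt D}
    (hz : inS L z) : hd (rs L u) i j z =
      (u (emb L z + (1 / (L : ℝ)) • eh i) j - u (emb L z) j) -
        (u (emb L z + (1 / (L : ℝ)) • eh j) i - u (emb L z) i) := by
  obtain ⟨h1, h2⟩ := hz
  have e1 : ∀ k, (z + zh k).2 = z.2 := fun k => by unfold zh; simp
  unfold hd
  rw [ext_rs hw (by omega) h2, ext_rs hw (by omega) h2,
    ext_rs hw (by rw [e1]; omega) (by rw [e1]; omega),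
    ext_rs hw (by rw [e1]; omega) (by rw [e1]; omega), emb_add, emb_add, emb_zh, emb_zh]

/-- (R1) the support of the restriction -/
theorem rs_supp {u : Pt D → Fin D → ℝ} (hu : IsTest u) : ∃ R : ℕ, ∀ L : ℕ, 1 ≤ L →
    ∀ x ∉ Finset.Icc (fun _ : Fin D => -((R * L : ℕ) : ℤ)) (fun _ => ((R * L : ℕ) : ℤ)),
      rs L u x = 0 := by
  obtain ⟨C, R, hC, hR, _, _, h3⟩ := test_bd hu
  obtain ⟨n, hn⟩ := exists_nat_ge R
  refine ⟨n, fun L hL x hx => ?_⟩
  by_contra h
  apply hx
  have h4 : ∃ a, rs L u x a ≠ 0 := by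
    by_contra h5
    push Not at h5
    exact h (funext h5)
  obtain ⟨a, ha⟩ := h4
  have h5 : u (emb L (x, ((a.2 : ℕ) : ℤ) + 1)) ≠ 0 := by
    intro h6
    apply ha
    unfold rs
    rw [h6]
    rfl
  have h6 := (h3 _ h5).trans hn
  rw [Prod.norm_def] at h6
  have h7 := (le_max_left _ _).trans h6
  have hL0 : (0 : ℝ) < L := by exact_mod_cast hL
  have key : ∀ k, |(x k : ℝ)| ≤ n * L := by
    intro k
    have h8 := (norm_le_pi_norm _ k).trans h7
    unfold emb at h8
    simp only at h8
    rw [Real.norm_eq_abs, abs_div, abs_of_pos hL0, div_le_iff₀ hL0] at h8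
    exact h8
  rw [Finset.mem_Icc]
  constructor
  · intro k
    have h9 := (abs_le.1 (key k)).1
    have : (-((n * L : ℕ) : ℤ) : ℝ) ≤ (x k : ℝ) := by push_cast; linarith
    exact_mod_cast this
  · intro k
    have h9 := (abs_le.1 (key k)).2
    have : (x k : ℝ) ≤ (((n * L : ℕ) : ℤ) : ℝ) := by push_cast; linarith
    exact_mod_cast this

lemma mul_le_one {L : ℕ} (hL : 1 ≤ L) {C : ℝ} (hC : 0 ≤ C) {e : Pt D} (he : ‖e‖ ≤ 1) {x : ℝ}
    (h : |x| ≤ C * ‖(1 / (L : ℝ)) • e‖) : |(L : ℝ) * x| ≤ C := by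
  have hL0 : (0 : ℝ) < L := by exact_mod_cast hL
  have hL2 : (0 : ℝ) < 1 / L := by positivity
  rw [norm_smul, Real.norm_eq_abs, abs_of_pos hL2] at h
  rw [abs_mul, abs_of_pos hL0]
  calc (L : ℝ) * |x| ≤ L * (C * (1 / L * ‖e‖)) := mul_le_mul_of_nonneg_left h hL0.le
    _ = C * ‖e‖ := by field_simp
    _ ≤ C * 1 := mul_le_mul_of_nonneg_left he hC
    _ = C := mul_one C

/-- (R2) the energy of the restriction -/
theorem EL_rs {u : Pt D → Fin D → ℝ} (hu : IsTest u) :
    Tendsto (fun L : ℕ => EL (rs L u)) atTop (𝓝 (EC u)) := by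
  obtain ⟨C, R, hC, hR, h1, h2, h3⟩ := test_bd hu
  unfold EL EC
  refine tend_slab (G := fun L z => dL (rs L u) z)
    (M := ∑ _i : Fin D, C ^ 2 + ∑ _i : Fin D, ∑ _j : Fin D, (2 * C) ^ 2) (R := R + 1)
    ?_ ?_ ?_
  · intro L hL z hz
    have v1 : ∀ i, |(L : ℝ) * vd (rs L u) i z| ≤ C := by
      intro i
      rw [vd_rs hu.wall i hz]
      refine mul_le_one (e := ez D) hL hC norm_ez ((h2 _ _ i).trans (le_of_eq ?_))
      rw [add_sub_cancel_left]
    have v2 : ∀ i j, |(L : ℝ) * hd (rs L u) i j z| ≤ 2 * C := by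
      intro i j
      rw [hd_rs hu.wall i j hz, mul_sub]
      refine (abs_sub _ _).trans ?_
      have a1 : |(L : ℝ) * (u (emb L z + (1 / (L : ℝ)) • eh i) j - u (emb L z) j)| ≤ C := by
        refine mul_le_one hL hC (norm_eh i) ((h2 _ _ j).trans (le_of_eq ?_))
        rw [add_sub_cancel_left]
      have a2 : |(L : ℝ) * (u (emb L z + (1 / (L : ℝ)) • eh j) i - u (emb L z) i)| ≤ C := by
        refine mul_le_one hL hC (norm_eh j) ((h2 _ _ i).trans (le_of_eq ?_))
        rw [add_sub_cancel_left]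
      linarith
    unfold dL
    have p1 : ∀ i, 0 ≤ ((L : ℝ) * vd (rs L u) i z) ^ 2 ∧
        ((L : ℝ) * vd (rs L u) i z) ^ 2 ≤ C ^ 2 := fun i =>
      ⟨sq_nonneg _, by rw [← sq_abs]; exact pow_le_pow_left₀ (abs_nonneg _) (v1 i) 2⟩
    have p2 : ∀ i j, 0 ≤ (if i < j then ((L : ℝ) * hd (rs L u) i j z) ^ 2 else 0) ∧
        (if i < j then ((L : ℝ) * hd (rs L u) i j z) ^ 2 else 0) ≤ (2 * C) ^ 2 := by
      intro i j
      split_ifs
      · exact ⟨sq_nonneg _, by rw [← sq_abs]; exact pow_le_pow_left₀ (abs_nonneg _) (v2 i j) 2⟩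
      · exact ⟨le_rfl, sq_nonneg _⟩
    rw [abs_of_nonneg (add_nonneg (Finset.sum_nonneg fun i _ => (p1 i).1)
      (Finset.sum_nonneg fun i _ => Finset.sum_nonneg fun j _ => (p2 i j).1))]
    exact add_le_add (Finset.sum_le_sum fun i _ => (p1 i).2)
      (Finset.sum_le_sum fun i _ => Finset.sum_le_sum fun j _ => (p2 i j).2)
  · intro L hL z hz hne
    by_contra hcon
    apply hne
    have hcon' : R + 1 < ‖emb L z‖ := not_le.1 hcon
    have hL1 : (1 : ℝ) / L ≤ 1 := by
      rw [div_le_one (by exact_mod_cast hL)]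
      exact_mod_cast hL
    have hL0 : (0 : ℝ) < L := by exact_mod_cast hL
    have far : ∀ q : Pt D, ‖emb L z - q‖ ≤ 1 → u q = 0 := by
      intro q hq
      by_contra hqu
      have := h3 q hqu
      have h4 : ‖emb L z‖ ≤ ‖emb L z - q‖ + ‖q‖ := by
        have : emb L z = (emb L z - q) + q := by abel
        nth_rw 1 [this]
        exact norm_add_le _ _
      linarith
    have sm : ∀ e : Pt D, ‖e‖ ≤ 1 → ‖(1 / (L : ℝ)) • e‖ ≤ 1 := by
      intro e he
      rw [norm_smul, Real.norm_eq_abs, abs_of_pos (by positivity)]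
      have : 1 / (L : ℝ) * ‖e‖ ≤ 1 * 1 := mul_le_mul hL1 he (norm_nonneg _) zero_le_one
      linarith
    have z0 : u (emb L z) = 0 := far _ (by rw [sub_self, norm_zero]; exact zero_le_one)
    have z1 : u (emb L (z - zv D)) = 0 := far _ (by
      rw [emb_sub, sub_sub_cancel, emb_zv]
      exact sm _ norm_ez)
    have z1' : u (emb L (z - zv D) + (1 / (L : ℝ)) • ez D) = 0 := by
      rw [← emb_zv, ← emb_add, sub_add_cancel]
      exact z0
    have z2 : ∀ k, u (emb L z + (1 / (L : ℝ)) • eh k) = 0 := fun k => far _ (by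
      rw [sub_add_cancel_left, norm_neg]
      exact sm _ (norm_eh k))
    unfold dL
    have q1 : ∀ i, vd (rs L u) i z = 0 := by
      intro i
      rw [vd_rs hu.wall i hz, z1, z1']
      simp
    have q2 : ∀ i j, hd (rs L u) i j z = 0 := by
      intro i j
      rw [hd_rs hu.wall i j hz, z0, z2, z2]
      simp
    simp only [q1, q2]
    simp
  · intro p hp0 hp1
    have hin := inS_in hp0 hp1
    have t0 := emb_flo_tendsto p
    have t1 : Tendsto (fun L : ℕ => emb L (flo L p - zv D)) atTop (𝓝 p) := by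
      have h4 : Tendsto (fun L : ℕ => (1 / (L : ℝ)) • ez D) atTop (𝓝 ((0 : ℝ) • ez D)) :=
        tendsto_one_div_atTop_nhds_zero_nat.smul_const _
      have h5 := t0.sub h4
      rw [zero_smul, sub_zero] at h5
      refine h5.congr fun L => ?_
      rw [emb_sub, emb_zv]
    have w1 : ∀ i, Tendsto (fun L : ℕ => (L : ℝ) * vd (rs L u) i (flo L p)) atTop
        (𝓝 (pd u (ez D) i p)) := by
      intro i
      refine (slope_tendsto hu.smooth (e := ez D) t1 i).congr' ?_
      filter_upwards [hin] with L hL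
      rw [vd_rs hu.wall i hL]
    have w2 : ∀ i j, Tendsto (fun L : ℕ => (L : ℝ) * hd (rs L u) i j (flo L p)) atTop
        (𝓝 (pd u (eh i) j p - pd u (eh j) i p)) := by
      intro i j
      refine ((slope_tendsto hu.smooth (e := eh i) t0 j).sub
        (slope_tendsto hu.smooth (e := eh j) t0 i)).congr' ?_
      filter_upwards [hin] with L hL
      rw [hd_rs hu.wall i j hL]
      ring
    unfold dL dC
    refine Tendsto.add (tendsto_finsetSum _ fun i _ => (w1 i).pow 2)
      (tendsto_finsetSum _ fun i _ => tendsto_finsetSum _ fun j _ => ?_)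
    split_ifs
    · exact (w2 i j).pow 2
    · exact tendsto_const_nhds

/-- (R3) the functional of the restriction -/
theorem JL_rs {f u : Pt D → Fin D → ℝ} (hf : Continuous f) (hu : IsTest u) :
    Tendsto (fun L : ℕ => JL f (rs L u)) atTop (𝓝 (JC f u)) := by
  obtain ⟨C, R, hC, hR, h1, h2, h3⟩ := test_bd hu
  unfold JL JC
  refine Tendsto.const_mul 2 ?_
  have hg : Continuous fun p : Pt D => ∑ i, f p i * u p i :=
    continuous_finsetSum _ fun i _ => ((continuous_apply i).comp hf).mul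
      ((continuous_apply i).comp hu.smooth.continuous)
  have hgs : HasCompactSupport fun p : Pt D => ∑ i, f p i * u p i := by
    refine hu.supp.mono fun p hp => ?_
    rw [Function.mem_support] at hp ⊢
    intro h
    apply hp
    rw [h]
    simp
  obtain ⟨M, hM⟩ := hgs.exists_bound_of_continuous hg
  have key := tend_slab (D := D) (G := fun L z => ∑ i, f (emb L z) i * u (emb L z) i)
    (g := fun p => ∑ i, f p i * u p i) (M := M) (R := R)
    (fun L _ z _ => by simpa [Real.norm_eq_abs] using hM (emb L z))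
    (fun L _ z _ hne => h3 _ fun h => hne (by simp only [h]; simp))
    (fun p _ _ => (hg.tendsto p).comp (emb_flo_tendsto p))
  refine key.congr fun L => ?_
  refine integral_congr_ae (Eventually.of_forall fun p => ?_)
  simp only
  by_cases h : inS L (flo L p)
  · rw [if_pos h]
    refine Finset.sum_congr rfl fun i _ => ?_
    rw [ext_rs hu.wall (by have := h.1; omega) h.2]
  · rw [if_neg h]
    symm
    refine Finset.sum_eq_zero fun i _ => ?_
    rw [ext_out h, mul_zero]

end

end Pool.Agent.N839.C
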