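import Pool.Agent.N839.C.Poinc

/-!
# The bilinear form of the energy, near maximisers
-/

set_option autoImplicit false
set_option linter.unusedSectionVars false

open MeasureTheory Set Filter Topology
open scoped Classical

namespace Pool.Agent.N839.C

open Pool.Agent.N990 Pool.Agent.N990.C

noncomputable section

variable {D : ℕ}

/-- horizontal curl -/
def cu (u : Pt D → Fin D → ℝ) (i j : Fin D) (p : Pt D) : ℝ := pd u (eh i) j p - pd u (eh j) i p

/-- the density of the bilinear form -/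
def dB (u w : Pt D → Fin D → ℝ) (p : Pt D) : ℝ :=
  ∑ i, pd u (ez D) i p * pd w (ez D) i p + ∑ i, ∑ j, if i < j then cu u i j p * cu w i j p else 0

/-- the bilinear form -/
def BC (u w : Pt D → Fin D → ℝ) : ℝ := ∫ p in Slb D, dB u w p

/-- the pairing -/
def PR (f u : Pt D → Fin D → ℝ) : ℝ := ∫ p in Slb D, ∑ i, f p i * u p i

/-- the squared norm -/
def N2 (f : Pt D → Fin D → ℝ) : ℝ := PR f f

lemma JC_PR (f u : Pt D → Fin D → ℝ) : JC f u = 2 * PR f u := rfl

lemma dB_self (u : Pt D → Fin D → ℝ) (p : Pt D) : dB u u p = dC u p := by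
  unfold dB dC cu
  simp only [← pow_two]

lemma BC_self (u : Pt D → Fin D → ℝ) : BC u u = EC u := by
  unfold BC EC
  simp only [dB_self]

lemma cu_cc {u : Pt D → Fin D → ℝ} (hu : IsTest u) (i j : Fin D) : Cc (cu u i j) :=
  (pd_cc hu _ j).sub (pd_cc hu _ i)

lemma dB_cc {u w : Pt D → Fin D → ℝ} (hu : IsTest u) (hw : IsTest w) : Cc (dB u w) := by
  unfold dB
  refine Cc.add (Cc.sum _ fun i _ => (pd_cc hu _ i).mul (pd_cc hw _ i).1)
    (Cc.sum _ fun i _ => Cc.sum _ fun j _ => ?_)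
  split_ifs
  · exact (cu_cc hu i j).mul (cu_cc hw i j).1
  · exact Cc.zero

/-- all components are continuous with compact support -/
def CcF (f : Pt D → Fin D → ℝ) : Prop := ∀ i, Cc fun p => f p i

lemma CcF.of {f : Pt D → Fin D → ℝ} (hf : Continuous f) (hs : HasCompactSupport f) : CcF f :=
  fun i => ⟨(continuous_apply i).comp hf, hs.mono fun p hp => by
    rw [Function.mem_support] at hp ⊢
    intro h
    apply hp
    rw [h]
    rfl⟩

lemma CcF.test {u : Pt D → Fin D → ℝ} (hu : IsTest u) : CcF u := fun i => u_cc hu i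

lemma pr_cc {f u : Pt D → Fin D → ℝ} (hf : CcF f) (hu : CcF u) : Cc fun p => ∑ i, f p i * u p i :=
  Cc.sum _ fun i _ => (hf i).mul (hu i).1

/-- `u + t w` -/
def lc (u : Pt D → Fin D → ℝ) (t : ℝ) (w : Pt D → Fin D → ℝ) : Pt D → Fin D → ℝ :=
  fun p i => u p i + t * w p i

lemma lc_eq (u : Pt D → Fin D → ℝ) (t : ℝ) (w : Pt D → Fin D → ℝ) : lc u t w = u + t • w := by
  funext p i
  simp [lc]

lemma lc_test {u w : Pt D → Fin D → ℝ} (hu : IsTest u) (hw : IsTest w) (t : ℝ) :
    IsTest (lc u t w) := by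
  rw [lc_eq]
  refine ⟨hu.smooth.add (contDiff_const.smul hw.smooth), hu.supp.add ?_, fun y => ?_⟩
  · exact hw.supp.mono (Function.support_const_smul_subset _ _)
  · rw [Pi.add_apply, Pi.smul_apply, hu.wall, hw.wall, smul_zero, add_zero]

lemma pd_lc {u w : Pt D → Fin D → ℝ} (hu : IsTest u) (hw : IsTest w) (t : ℝ) (e : Pt D)
    (i : Fin D) (p : Pt D) : pd (lc u t w) e i p = pd u e i p + t * pd w e i p := by
  unfold pd
  have h1 : DifferentiableAt ℝ u p := hu.smooth.differentiable (by norm_num) p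
  have h2 : DifferentiableAt ℝ w p := hw.smooth.differentiable (by norm_num) p
  rw [lc_eq, fderiv_add h1 (h2.const_smul t), fderiv_const_smul h2]
  rfl

lemma cu_lc {u w : Pt D → Fin D → ℝ} (hu : IsTest u) (hw : IsTest w) (t : ℝ) (i j : Fin D)
    (p : Pt D) : cu (lc u t w) i j p = cu u i j p + t * cu w i j p := by
  unfold cu
  rw [pd_lc hu hw, pd_lc hu hw]
  ring

lemma dC_cu (u : Pt D → Fin D → ℝ) (p : Pt D) : dC u p =
    ∑ i, pd u (ez D) i p ^ 2 + ∑ i, ∑ j, if i < j then cu u i j p ^ 2 else 0 := rfl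

lemma dC_lc {u w : Pt D → Fin D → ℝ} (hu : IsTest u) (hw : IsTest w) (t : ℝ) (p : Pt D) :
    dC (lc u t w) p = dC u p + 2 * t * dB u w p + t ^ 2 * dC w p := by
  rw [dC_cu, dC_cu, dC_cu]
  unfold dB
  have h1 : ∑ i, pd (lc u t w) (ez D) i p ^ 2 = ∑ i, pd u (ez D) i p ^ 2 +
      2 * t * ∑ i, pd u (ez D) i p * pd w (ez D) i p + t ^ 2 * ∑ i, pd w (ez D) i p ^ 2 := by
    rw [Finset.mul_sum, Finset.mul_sum, ← Finset.sum_add_distrib, ← Finset.sum_add_distrib]
    refine Finset.sum_congr rfl fun i _ => ?_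
    rw [pd_lc hu hw]
    ring
  have h2 : ∑ i, ∑ j, (if i < j then cu (lc u t w) i j p ^ 2 else 0) =
      ∑ i, ∑ j, (if i < j then cu u i j p ^ 2 else 0) +
      2 * t * ∑ i, ∑ j, (if i < j then cu u i j p * cu w i j p else 0) +
      t ^ 2 * ∑ i, ∑ j, (if i < j then cu w i j p ^ 2 else 0) := by
    simp only [Finset.mul_sum, ← Finset.sum_add_distrib]
    refine Finset.sum_congr rfl fun i _ => Finset.sum_congr rfl fun j _ => ?_
    split_ifs
    · rw [cu_lc hu hw]
      ring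
    · ring
  rw [h1, h2]
  ring

lemma EC_lc {u w : Pt D → Fin D → ℝ} (hu : IsTest u) (hw : IsTest w) (t : ℝ) :
    EC (lc u t w) = EC u + 2 * t * BC u w + t ^ 2 * EC w := by
  unfold EC BC
  simp only [dC_lc hu hw]
  have i1 : IntegrableOn (dC u) (Slb D) := (dC_cc hu).int.integrableOn
  have i2 : IntegrableOn (fun p => 2 * t * dB u w p) (Slb D) :=
    ((dB_cc hu hw).int.integrableOn).const_mul _
  have i3 : IntegrableOn (fun p => t ^ 2 * dC w p) (Slb D) :=
    ((dC_cc hw).int.integrableOn).const_mul _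
  have i4 : IntegrableOn (fun p => dC u p + 2 * t * dB u w p) (Slb D) := i1.add i2
  rw [integral_add i4 i3, integral_add i1 i2, integral_const_mul, integral_const_mul]

lemma PR_lc {f u w : Pt D → Fin D → ℝ} (hf : CcF f) (hu : CcF u) (hw : CcF w) (t : ℝ) :
    PR f (lc u t w) = PR f u + t * PR f w := by
  unfold PR lc
  have i1 : IntegrableOn (fun p => ∑ i, f p i * u p i) (Slb D) := (pr_cc hf hu).int.integrableOn
  have i2 : IntegrableOn (fun p => t * ∑ i, f p i * w p i) (Slb D) :=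
    ((pr_cc hf hw).int.integrableOn).const_mul _
  rw [← integral_const_mul, ← integral_add i1 i2]
  refine integral_congr_ae (Eventually.of_forall fun p => ?_)
  simp only
  rw [Finset.mul_sum, ← Finset.sum_add_distrib]
  exact Finset.sum_congr rfl fun i _ => by ring

lemma PR_comm (f u : Pt D → Fin D → ℝ) : PR f u = PR u f := by
  unfold PR
  simp only [mul_comm]

lemma N2_nonneg (f : Pt D → Fin D → ℝ) : 0 ≤ N2 f := by
  unfold N2 PR
  exact integral_nonneg fun p => Finset.sum_nonneg fun i _ => mul_self_nonneg _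

lemma N2_lc {u w : Pt D → Fin D → ℝ} (hu : CcF u) (hw : CcF w) (t : ℝ) :
    N2 (lc u t w) = N2 u + 2 * t * PR u w + t ^ 2 * N2 w := by
  have h1 : CcF (lc u t w) := fun i => by
    have h2 : Cc fun p => t * w p i := by
      have := (hw i).mul (continuous_const (y := t))
      simpa only [mul_comm] using this
    exact (hu i).add h2
  unfold N2
  rw [PR_lc h1 hu hw, PR_comm (lc u t w) u, PR_lc hu hu hw, PR_comm (lc u t w) w,
    PR_lc hw hu hw, PR_comm w u]
  ring

/-- Cauchy-Schwarz from positivity -/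
lemma cs_of {a b c : ℝ} (ha : 0 ≤ a) (hc : 0 ≤ c) (h : ∀ t : ℝ, 0 ≤ a + 2 * t * b + t ^ 2 * c) :
    |b| ≤ Real.sqrt a * Real.sqrt c := by
  rw [← Real.sqrt_mul ha]
  refine Real.abs_le_sqrt ?_
  rcases hc.eq_or_lt with h0 | h0
  · have hb : b = 0 := by
      by_contra hb
      have h1 := h (-(a + 1) / (2 * b))
      rw [← h0] at h1
      have h2 : 2 * (-(a + 1) / (2 * b)) * b = -(a + 1) := by field_simp
      rw [h2] at h1
      linarith
    rw [hb, ← h0]
    simp
  · have h1 := h (-b / c)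
    have h2 : a + 2 * (-b / c) * b + (-b / c) ^ 2 * c = a - b ^ 2 / c := by
      field_simp
      ring
    rw [h2, sub_nonneg, div_le_iff₀ h0] at h1
    exact h1

lemma BC_cs {u w : Pt D → Fin D → ℝ} (hu : IsTest u) (hw : IsTest w) :
    |BC u w| ≤ Real.sqrt (EC u) * Real.sqrt (EC w) :=
  cs_of (EC_nonneg u) (EC_nonneg w) fun t => by
    rw [← EC_lc hu hw]
    exact EC_nonneg _

lemma PR_cs {f u : Pt D → Fin D → ℝ} (hf : CcF f) (hu : CcF u) :
    |PR f u| ≤ Real.sqrt (N2 f) * Real.sqrt (N2 u) :=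
  cs_of (N2_nonneg f) (N2_nonneg u) fun t => by
    rw [← N2_lc hf hu]
    exact N2_nonneg _

/-- `u` almost maximises -/
def NM (f : Pt D → Fin D → ℝ) (s : ℝ) (u : Pt D → Fin D → ℝ) : Prop :=
  IsTest u ∧ QC f - s ^ 2 ≤ JC f u - EC u

lemma NM_exists (f : Pt D → Fin D → ℝ) {s : ℝ} (hs : 0 < s) : ∃ u, NM f s u := by
  obtain ⟨u, hu, h⟩ := QC_approx (f := f) (ε := s ^ 2) (by positivity)
  exact ⟨u, hu, h.le⟩

/-- the Euler equation of an almost maximiser -/
lemma NM.euler {f u : Pt D → Fin D → ℝ} (hf : CcF f) {s : ℝ} (hs : 0 ≤ s) (h : NM f s u)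
    {w : Pt D → Fin D → ℝ} (hw : IsTest w) : |PR f w - BC u w| ≤ s * Real.sqrt (EC w) := by
  have h1 : ∀ t : ℝ, 0 ≤ s ^ 2 + 2 * t * (-(PR f w - BC u w)) + t ^ 2 * EC w := by
    intro t
    have h2 := le_QC hf (lc_test h.1 hw t)
    rw [JC_PR, PR_lc hf (CcF.test h.1) (CcF.test hw), EC_lc h.1 hw] at h2
    have h3 := h.2
    rw [JC_PR] at h3
    nlinarith
  have h2 := cs_of (sq_nonneg s) (EC_nonneg w) h1
  rw [abs_neg, Real.sqrt_sq hs] at h2
  exact h2

/-- comparison of `QC (f + g)` with `QC f + QC g` -/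
theorem QC_pol {f g : Pt D → Fin D → ℝ} (hf : CcF f) (hg : CcF g) {s : ℝ} (hs : 0 ≤ s)
    (hs1 : s ≤ 1) {u u' : Pt D → Fin D → ℝ} (hu : NM f s u) (hu' : NM g s u') {M : ℝ}
    (h0 : 0 ≤ M) (h1 : Real.sqrt (EC u) ≤ M) (h2 : Real.sqrt (EC u') ≤ M) :
    |QC (fun p i => f p i + g p i) - QC f - QC g| ≤ 2 * |PR g u| + s * (14 * M + 4) := by
  have hfg : CcF fun p i => f p i + g p i := fun i => (hf i).add (hg i)
  have Ef : ∀ w, IsTest w → |PR f w - BC u w| ≤ s * Real.sqrt (EC w) := fun w hw =>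
    hu.euler hf hs hw
  have Eg : ∀ w, IsTest w → |PR g w - BC u' w| ≤ s * Real.sqrt (EC w) := fun w hw =>
    hu'.euler hg hs hw
  have hPR : ∀ w, CcF w → PR (fun p i => f p i + g p i) w = PR f w + PR g w := by
    intro w hw
    have := PR_lc hw hf hg 1
    rw [PR_comm, one_mul, PR_comm w f, PR_comm w g] at this
    rw [← this]
    unfold lc
    simp only [one_mul]
  have hsum := lc_test hu.1 hu'.1 1
  have hBl : ∀ w, IsTest w → BC (lc u 1 u') w = BC u w + BC u' w := by
    intro w hw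
    unfold BC
    rw [← integral_add (dB_cc hu.1 hw).int.integrableOn (dB_cc hu'.1 hw).int.integrableOn]
    refine integral_congr_ae (Eventually.of_forall fun p => ?_)
    simp only
    unfold dB
    have a1 : ∑ i, pd (lc u 1 u') (ez D) i p * pd w (ez D) i p =
        ∑ i, pd u (ez D) i p * pd w (ez D) i p + ∑ i, pd u' (ez D) i p * pd w (ez D) i p := by
      rw [← Finset.sum_add_distrib]
      refine Finset.sum_congr rfl fun i _ => ?_
      rw [pd_lc hu.1 hu'.1]
      ring
    have a2 : ∑ i, ∑ j, (if i < j then cu (lc u 1 u') i j p * cu w i j p else 0) =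
        ∑ i, ∑ j, (if i < j then cu u i j p * cu w i j p else 0) +
        ∑ i, ∑ j, (if i < j then cu u' i j p * cu w i j p else 0) := by
      simp only [← Finset.sum_add_distrib]
      refine Finset.sum_congr rfl fun i _ => Finset.sum_congr rfl fun j _ => ?_
      split_ifs
      · rw [cu_lc hu.1 hu'.1]
        ring
      · ring
    rw [a1, a2]
    ring
  have hE := EC_lc hu.1 hu'.1 1
  have hEn := EC_nonneg u
  have hEn' := EC_nonneg u'
  have hB := BC_cs hu.1 hu'.1
  have sq1 : Real.sqrt (EC u) ^ 2 = EC u := Real.sq_sqrt hEn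
  have sq2 : Real.sqrt (EC u') ^ 2 = EC u' := Real.sq_sqrt hEn'
  have r1 := Real.sqrt_nonneg (EC u)
  have r2 := Real.sqrt_nonneg (EC u')
  have hss : s ^ 2 ≤ s := by nlinarith
  -- the energy of the sum
  have hX : Real.sqrt (EC (lc u 1 u')) ≤ 2 * M := by
    rw [Real.sqrt_le_left (by positivity), hE]
    have := (abs_le.1 hB).2
    have h3 : Real.sqrt (EC u) * Real.sqrt (EC u') ≤ M * M := mul_le_mul h1 h2 r2 h0
    nlinarith
  have r3 := Real.sqrt_nonneg (EC (lc u 1 u'))
  -- B (u, u') against PR g u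
  have b1 := Eg u hu.1
  have b2 : BC u' u = BC u u' := by
    unfold BC dB
    simp only [mul_comm]
  rw [b2] at b1
  have b3 : |BC u u'| ≤ |PR g u| + s * M := by
    have : BC u u' = PR g u - (PR g u - BC u u') := by ring
    rw [this]
    refine (abs_sub _ _).trans (add_le_add le_rfl (b1.trans ?_))
    exact mul_le_mul_of_nonneg_left h1 hs
  rw [abs_le]
  constructor
  · -- lower bound
    have l1 := le_QC hfg hsum
    rw [JC_PR, hPR _ (CcF.test hsum), PR_lc hf (CcF.test hu.1) (CcF.test hu'.1),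
      PR_lc hg (CcF.test hu.1) (CcF.test hu'.1), hE] at l1
    have l2 := hu.2
    have l3 := hu'.2
    rw [JC_PR] at l2 l3
    have l4 := (abs_le.1 (Ef u' hu'.1)).1
    have l5 : s * Real.sqrt (EC u') ≤ s * M := mul_le_mul_of_nonneg_left h2 hs
    have l6 := neg_abs_le (PR g u)
    nlinarith
  · -- upper bound
    have k1 : QC (fun p i => f p i + g p i) ≤
        (Real.sqrt (EC (lc u 1 u')) + 2 * s) ^ 2 := by
      refine csSup_le ⟨0, valS_zero _⟩ ?_
      rintro t ⟨w, hw, rfl⟩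
      rw [JC_PR, hPR w (CcF.test hw)]
      have k2 := (abs_le.1 (Ef w hw)).2
      have k3 := (abs_le.1 (Eg w hw)).2
      have k4 := hBl w hw
      have k5 := (abs_le.1 (BC_cs hsum hw)).2
      have k6 : Real.sqrt (EC w) ^ 2 = EC w := Real.sq_sqrt (EC_nonneg w)
      nlinarith [sq_nonneg (Real.sqrt (EC (lc u 1 u')) + 2 * s - Real.sqrt (EC w))]
    have k2 : (Real.sqrt (EC (lc u 1 u')) + 2 * s) ^ 2 ≤
        EC (lc u 1 u') + s * (8 * M) + 4 * s := by
      have e1 : Real.sqrt (EC (lc u 1 u')) ^ 2 = EC (lc u 1 u') := Real.sq_sqrt (EC_nonneg _)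
      have e2 : s * Real.sqrt (EC (lc u 1 u')) ≤ s * (2 * M) := mul_le_mul_of_nonneg_left hX hs
      nlinarith
    have k3 : EC u ≤ QC f + 2 * (s * M) := by
      have e1 := le_QC hf hu.1
      rw [JC_PR] at e1
      have e2 := (abs_le.1 (Ef u hu.1)).1
      rw [BC_self] at e2
      have e3 : s * Real.sqrt (EC u) ≤ s * M := mul_le_mul_of_nonneg_left h1 hs
      linarith
    have k4 : EC u' ≤ QC g + 2 * (s * M) := by
      have e1 := le_QC hg hu'.1
      rw [JC_PR] at e1
      have e2 := (abs_le.1 (Eg u' hu'.1)).1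
      rw [BC_self] at e2
      have e3 : s * Real.sqrt (EC u') ≤ s * M := mul_le_mul_of_nonneg_left h2 hs
      linarith
    have k5 := le_abs_self (BC u u')
    have k6 : 0 ≤ s * M := mul_nonneg hs h0
    nlinarith

/-- the energy of an almost maximiser is bounded -/
lemma NM.energy {f u : Pt D → Fin D → ℝ} (hf : CcF f) {s : ℝ} (hs : 0 ≤ s) (hs1 : s ≤ 1)
    (h : NM f s u) : Real.sqrt (EC u) ≤ 2 * Real.sqrt (N2 f) + 2 := by
  have h1 := h.2
  have h2 := QC_nonneg hf
  rw [JC_PR] at h1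
  have h3 := PR_cs hf (CcF.test h.1)
  have h4 : N2 u ≤ EC u := by
    refine le_trans ?_ (EC_vert h.1)
    have : N2 u = ∑ i, ∫ p in Slb D, u p i ^ 2 := by
      unfold N2 PR
      rw [integral_finsetSum _ fun i _ => ((u_cc h.1 i).mul (u_cc h.1 i).1).int.integrableOn]
      simp only [pow_two]
    rw [this]
    exact Finset.sum_le_sum fun i _ => poinc h.1 i
  have h5 : Real.sqrt (N2 u) ≤ Real.sqrt (EC u) := Real.sqrt_le_sqrt h4
  have h6 : Real.sqrt (EC u) ^ 2 = EC u := Real.sq_sqrt (EC_nonneg u)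
  have h7 := Real.sqrt_nonneg (EC u)
  have h8 := Real.sqrt_nonneg (N2 f)
  have h9 := (abs_le.1 h3).2
  have h10 : Real.sqrt (N2 f) * Real.sqrt (N2 u) ≤ Real.sqrt (N2 f) * Real.sqrt (EC u) :=
    mul_le_mul_of_nonneg_left h5 h8
  by_contra hcon
  push Not at hcon
  nlinarith

end

end Pool.Agent.N839.C
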