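import Pool.Agent.N839.C.Wirt

/-!
# The mass of the free field in the slab

The bilinear form of the variance decays exponentially in the horizontal directions, with every
rate below `π / 2`.
-/

set_option autoImplicit false
set_option linter.unusedSectionVars false

open MeasureTheory Set Filter Topology
open scoped Classical

namespace Pool.Agent.N839.C

open Pool.Agent.N990 Pool.Agent.N990.C

noncomputable section

variable {D : ℕ}

/-! ### The weight -/

/-- one up to `T`, zero from `T + 1` on -/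
def hc (T s : ℝ) : ℝ := max 0 (min 1 (T + 1 - s))

lemma hc_cont (T : ℝ) : Continuous (hc T) := by
  unfold hc
  fun_prop

lemma hc_nonneg (T s : ℝ) : 0 ≤ hc T s := le_max_left _ _

lemma hc_le (T s : ℝ) : hc T s ≤ 1 := max_le zero_le_one (min_le_left _ _)

lemma hc_one {T s : ℝ} (h : s ≤ T) : hc T s = 1 := by
  unfold hc
  rw [min_eq_left (by linarith), max_eq_right zero_le_one]

lemma hc_zero {T s : ℝ} (h : T + 1 ≤ s) : hc T s = 0 := by
  unfold hc
  rw [max_eq_left]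
  exact (min_le_right _ _).trans (by linarith)

/-- `t` up to `T`, bounded -/
def rho (T t : ℝ) : ℝ := ∫ s in (0 : ℝ)..t, hc T s

lemma rho_deriv (T t : ℝ) : HasDerivAt (rho T) (hc T t) t :=
  intervalIntegral.integral_hasDerivAt_right ((hc_cont T).intervalIntegrable _ _)
    ((hc_cont T).stronglyMeasurableAtFilter _ _) (hc_cont T).continuousAt

lemma rho_smooth (T : ℝ) : ContDiff ℝ 1 (rho T) := by
  rw [contDiff_one_iff_deriv]
  refine ⟨fun t => (rho_deriv T t).differentiableAt, ?_⟩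
  have : deriv (rho T) = hc T := funext fun t => (rho_deriv T t).deriv
  rw [this]
  exact hc_cont T

lemma rho_eq {T t : ℝ} (hT : 0 ≤ T) (h : t ≤ T) : rho T t = t := by
  unfold rho
  have h1 : ∫ s in (0 : ℝ)..t, hc T s = ∫ s in (0 : ℝ)..t, (1 : ℝ) := by
    refine intervalIntegral.integral_congr fun s hs => ?_
    have : s ≤ T := (mem_uIcc.1 hs).elim (fun h2 => h2.2.trans h) fun h2 => h2.2.trans hT
    exact hc_one this
  rw [h1]
  simp

lemma rho_le {T : ℝ} (hT : 0 ≤ T) (t : ℝ) : rho T t ≤ T + 1 := by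
  rcases le_total t T with h | h
  · rw [rho_eq hT h]
    linarith
  · unfold rho
    have h0 : ∀ a b, IntervalIntegrable (hc T) volume a b := fun a b =>
      (hc_cont T).intervalIntegrable _ _
    rcases le_total t (T + 1) with h1 | h1
    · have h2 : ∫ s in (0 : ℝ)..t, hc T s ≤ ∫ s in (0 : ℝ)..t, (1 : ℝ) :=
        intervalIntegral.integral_mono_on (hT.trans h) (h0 _ _)
          (continuous_const.intervalIntegrable _ _) fun s _ => hc_le T s
      refine h2.trans ?_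
      simpa using h1
    · rw [← intervalIntegral.integral_add_adjacent_intervals (h0 0 (T + 1)) (h0 (T + 1) t)]
      have h2 : ∫ s in (T + 1)..t, hc T s = 0 := by
        have : ∫ s in (T + 1)..t, hc T s = ∫ s in (T + 1)..t, (0 : ℝ) := by
          refine intervalIntegral.integral_congr fun s hs => ?_
          rw [uIcc_of_le h1] at hs
          exact hc_zero hs.1
        rw [this]
        simp
      rw [h2, add_zero]
      have h3 : ∫ s in (0 : ℝ)..(T + 1), hc T s ≤ ∫ s in (0 : ℝ)..(T + 1), (1 : ℝ) :=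
        intervalIntegral.integral_mono_on (by linarith) (h0 _ _)
          (continuous_const.intervalIntegrable _ _) fun s _ => hc_le T s
      refine h3.trans ?_
      simp

/-- the weight -/
def wg (m T σ : ℝ) (k : Fin D) (p : Pt D) : ℝ := Real.exp (m * rho T (σ * p.1 k))

lemma wg_isW (m T : ℝ) {σ : ℝ} (hσ : |σ| = 1) (k : Fin D) :
    IsW m k (fun p => hc T (σ * p.1 k) * σ) (wg m T σ k) where
  smooth := by
    unfold wg
    refine Real.contDiff_exp.comp (contDiff_const.mul ((rho_smooth T).comp ?_))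
    refine contDiff_const.mul ?_
    exact (contDiff_apply ℝ ℝ k).comp contDiff_fst
  pos := fun p => Real.exp_pos _
  dle := fun p => by
    rw [abs_mul, hσ, mul_one, abs_of_nonneg (hc_nonneg _ _)]
    exact hc_le _ _
  dcont := by
    refine ((hc_cont T).comp ?_).mul continuous_const
    fun_prop
  der := fun p e => by
    have h1 : HasFDerivAt (fun p : Pt D => σ * p.1 k)
        (σ • ((ContinuousLinearMap.proj (R := ℝ) (φ := fun _ : Fin D => ℝ) k).comp
          (ContinuousLinearMap.fst ℝ (Fin D → ℝ) ℝ))) p :=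
      (((ContinuousLinearMap.proj (R := ℝ) (φ := fun _ : Fin D => ℝ) k).comp
          (ContinuousLinearMap.fst ℝ (Fin D → ℝ) ℝ)).hasFDerivAt).const_mul σ
    have h2 := ((rho_deriv T (σ * p.1 k)).comp_hasFDerivAt p h1).const_mul m
    have h3 := h2.exp
    have h4 : fderiv ℝ (wg m T σ k) p = _ := h3.fderiv
    rw [h4]
    unfold wg
    simp only [FunLike.coe_smul, Pi.smul_apply, smul_eq_mul, ContinuousLinearMap.comp_apply,
      ContinuousLinearMap.coe_fst', ContinuousLinearMap.proj_apply, Function.comp]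
    ring

lemma wg_le {m T : ℝ} (hm : 0 ≤ m) (hT : 0 ≤ T) (σ : ℝ) (k : Fin D) (p : Pt D) :
    wg m T σ k p ≤ Real.exp (m * (T + 1)) :=
  Real.exp_le_exp.2 (mul_le_mul_of_nonneg_left (rho_le hT _) hm)

/-! ### Norms with weights -/

lemma N2_mt_le {W : Pt D → ℝ} (hW : Continuous W) {f : Pt D → Fin D → ℝ} (hf : CcF f) {c : ℝ}
    (hc : 0 ≤ c) (h : ∀ p, f p ≠ 0 → |W p| ≤ c) : N2 (mt W f) ≤ c ^ 2 * N2 f := by
  have h1 := mt_cc hW hf
  unfold N2 PR
  rw [← integral_const_mul]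
  refine integral_mono (pr_cc h1 h1).int.integrableOn
    ((pr_cc hf hf).int.integrableOn.const_mul _) fun p => ?_
  simp only
  rw [Finset.mul_sum]
  refine Finset.sum_le_sum fun i _ => ?_
  unfold mt
  by_cases hp : f p = 0
  · rw [hp]
    simp
  · have h2 := h p hp
    have h3 : W p ^ 2 ≤ c ^ 2 := by
      rw [← sq_abs]
      exact pow_le_pow_left₀ (abs_nonneg _) h2 2
    nlinarith [mul_self_nonneg (f p i)]

lemma PR_mt {W V : Pt D → ℝ} (h : ∀ p, V p * W p = 1) (f u : Pt D → Fin D → ℝ) :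
    PR (mt V f) (mt W u) = PR f u := by
  unfold PR mt
  refine integral_congr_ae (Eventually.of_forall fun p => ?_)
  simp only
  refine Finset.sum_congr rfl fun i _ => ?_
  calc V p * f p i * (W p * u p i) = (V p * W p) * (f p i * u p i) := by ring
    _ = f p i * u p i := by rw [h, one_mul]

lemma PR_mt2 (W : Pt D → ℝ) (f u : Pt D → Fin D → ℝ) :
    PR f (mt (fun p => W p ^ 2) u) = PR (mt W f) (mt W u) := by
  unfold PR mt
  refine integral_congr_ae (Eventually.of_forall fun p => ?_)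
  simp only
  exact Finset.sum_congr rfl fun i _ => by ring

/-! ### Translations -/

/-- horizontal translation -/
def tr (v : Fin D → ℝ) (u : Pt D → Fin D → ℝ) : Pt D → Fin D → ℝ := fun p => u (p.1 - v, p.2)

lemma tr_eq (v : Fin D → ℝ) (u : Pt D → Fin D → ℝ) : tr v u = fun p => u (p - (v, 0)) := by
  funext p
  unfold tr
  congr 1
  ext <;> simp

lemma tr_tr (v : Fin D → ℝ) (u : Pt D → Fin D → ℝ) : tr (-v) (tr v u) = u := by
  funext p
  unfold tr
  simp

lemma tr_cont {v : Fin D → ℝ} {u : Pt D → Fin D → ℝ} (h : Continuous u) : Continuous (tr v u) := by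
  rw [tr_eq]
  exact h.comp (continuous_id.sub continuous_const)

lemma tr_supp {v : Fin D → ℝ} {u : Pt D → Fin D → ℝ} (h : HasCompactSupport u) :
    HasCompactSupport (tr v u) := by
  rw [tr_eq]
  exact h.comp_homeomorph (Homeomorph.subRight ((v, 0) : Pt D))

lemma tr_test {v : Fin D → ℝ} {u : Pt D → Fin D → ℝ} (h : IsTest u) : IsTest (tr v u) := by
  refine ⟨?_, tr_supp h.supp, fun y => ?_⟩
  · rw [tr_eq]
    exact h.smooth.comp (contDiff_id.sub contDiff_const)
  · show u (y - v, 0) = 0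
    exact h.wall _

lemma pd_tr {v : Fin D → ℝ} {u : Pt D → Fin D → ℝ} (h : IsTest u) (e : Pt D) (i : Fin D)
    (p : Pt D) : pd (tr v u) e i p = pd u e i (p - (v, 0)) := by
  unfold pd
  have h1 : HasFDerivAt u (fderiv ℝ u (p - (v, 0))) (p - (v, 0)) :=
    (h.smooth.differentiable (by norm_num) _).hasFDerivAt
  have h2 : HasFDerivAt (fun q : Pt D => q - (v, 0)) (ContinuousLinearMap.id ℝ (Pt D)) p :=
    (hasFDerivAt_id p).sub_const _
  have h3 := (h1.comp p h2).fderiv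
  rw [tr_eq]
  have h4 : (fun q : Pt D => u (q - (v, 0))) = u ∘ fun q : Pt D => q - (v, 0) := rfl
  rw [h4, h3]
  rfl

lemma int_tr (v : Fin D → ℝ) (G : Pt D → ℝ) :
    ∫ p in Slb D, G (p - (v, 0)) = ∫ p in Slb D, G p := by
  rw [← integral_indicator slb_meas, ← integral_indicator slb_meas]
  have h1 : (Slb D).indicator (fun p => G (p - (v, 0))) =
      fun p => (Slb D).indicator G (p - (v, 0)) := by
    funext p
    have h2 : (p - ((v, 0) : Pt D)).2 = p.2 := by simp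
    simp only [indicator_apply, Slb, mem_ofPred_eq, h2]
  rw [h1]
  have : (volume : Measure (Pt D)).IsAddRightInvariant := by
    rw [Measure.volume_eq_prod]
    infer_instance
  exact integral_sub_right_eq_self _ _

lemma EC_tr {v : Fin D → ℝ} {u : Pt D → Fin D → ℝ} (h : IsTest u) : EC (tr v u) = EC u := by
  unfold EC
  rw [← int_tr v (dC u)]
  refine integral_congr_ae (Eventually.of_forall fun p => ?_)
  simp only
  unfold dC
  simp only [pd_tr h]

lemma PR_tr (v : Fin D → ℝ) (f u : Pt D → Fin D → ℝ) : PR (tr v f) (tr v u) = PR f u := by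
  unfold PR
  rw [← int_tr v (fun p => ∑ i, f p i * u p i)]
  rw [tr_eq, tr_eq]

lemma CcF.tr {v : Fin D → ℝ} {f : Pt D → Fin D → ℝ} (hf : Continuous f)
    (hs : HasCompactSupport f) : CcF (tr v f) := CcF.of (tr_cont hf) (tr_supp hs)

lemma QC_tr_le (v : Fin D → ℝ) {f : Pt D → Fin D → ℝ} (hf : Continuous f)
    (hs : HasCompactSupport f) : QC f ≤ QC (tr v f) := by
  refine csSup_le ⟨0, valS_zero f⟩ ?_
  rintro t ⟨u, hu, rfl⟩
  refine le_trans (le_of_eq ?_) (le_QC (CcF.tr (v := v) hf hs) (tr_test (v := v) hu))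
  rw [JC_PR, JC_PR, PR_tr, EC_tr hu]

/-- the variance is invariant under horizontal translations -/
theorem QC_tr (v : Fin D → ℝ) {f : Pt D → Fin D → ℝ} (hf : Continuous f)
    (hs : HasCompactSupport f) : QC (tr v f) = QC f := by
  refine le_antisymm ?_ (QC_tr_le v hf hs)
  have h := QC_tr_le (-v) (tr_cont (v := v) hf) (tr_supp (v := v) hs)
  rwa [tr_tr] at h

/-! ### The decay -/

lemma norm_attained {v : Fin D → ℝ} (hv : v ≠ 0) : ∃ k, |v k| = ‖v‖ := by
  by_contra hcon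
  push Not at hcon
  have h1 : ∀ k, ‖v k‖ < ‖v‖ := fun k => by
    rw [Real.norm_eq_abs]
    refine lt_of_le_of_ne ?_ (hcon k)
    rw [← Real.norm_eq_abs]
    exact norm_le_pi_norm v k
  exact absurd ((pi_norm_lt_iff (norm_pos_iff.2 hv)).2 h1) (lt_irrefl _)

lemma quad_le {A q X : ℝ} (hA : 0 ≤ A) (hq : 0 ≤ q) (h : X ^ 2 ≤ A * X + q) :
    X ≤ A + Real.sqrt (2 * q) := by
  have h1 := Real.sqrt_nonneg (2 * q)
  have h2 : Real.sqrt (2 * q) ^ 2 = 2 * q := Real.sq_sqrt (by linarith)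
  have h3 : X ^ 2 ≤ (A + Real.sqrt (2 * q)) ^ 2 := by
    nlinarith [sq_nonneg (X - A), mul_nonneg hA h1]
  exact le_of_pow_le_pow_left₀ two_ne_zero (add_nonneg hA h1) h3

/-- the estimate for a fixed translation -/
theorem decay_one {f g : Pt D → Fin D → ℝ} (hf : Continuous f) (hfs : HasCompactSupport f)
    (hg : Continuous g) (hgs : HasCompactSupport g) {R : ℝ} (hR : 0 ≤ R)
    (hfR : ∀ p, f p ≠ 0 → ‖p‖ ≤ R) (hgR : ∀ p, g p ≠ 0 → ‖p‖ ≤ R) {m κ : ℝ} (hm : 0 < m)
    (hmκ : m < κ) (hκ : κ < Real.pi / 2) {v : Fin D → ℝ} (hv : v ≠ 0) :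
    |QC (fun p i => f p i + tr v g p i) - QC f - QC g| ≤
      2 * (Real.exp (2 * (m * R)) * Real.sqrt (N2 f) * Real.sqrt (N2 g) / (1 - m ^ 2 / κ ^ 2)) *
        Real.exp (-(m * ‖v‖)) := by
  obtain ⟨k, hk⟩ := norm_attained hv
  have hnv : 0 < ‖v‖ := norm_pos_iff.2 hv
  obtain ⟨σ, hσ, hσv⟩ : ∃ σ : ℝ, |σ| = 1 ∧ σ * v k = ‖v‖ := by
    rcases le_total 0 (v k) with h | h
    · exact ⟨1, abs_one, by rw [one_mul, ← hk, abs_of_nonneg h]⟩
    · exact ⟨-1, by rw [abs_neg, abs_one], by rw [← hk, abs_of_nonpos h]; ring⟩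
  have hκ0 : 0 < κ := hm.trans hmκ
  obtain ⟨T, hT⟩ : ∃ T, T = ‖v‖ + R := ⟨_, rfl⟩
  have hT0 : 0 ≤ T := by rw [hT]; positivity
  obtain ⟨W, hWd⟩ : ∃ W : Pt D → ℝ, W = wg m T σ k := ⟨_, rfl⟩
  have hW : IsW m k (fun p => hc T (σ * p.1 k) * σ) W := by
    rw [hWd]
    exact wg_isW m T hσ k
  obtain ⟨M, hM⟩ : ∃ M, M = Real.exp (m * (T + 1)) := ⟨_, rfl⟩
  have hWM : ∀ p, W p ≤ M := fun p => by
    rw [hWd, hM]
    exact wg_le hm.le hT0 _ _ _
  obtain ⟨V, hVd⟩ : ∃ V : Pt D → ℝ, V = fun p => (W p)⁻¹ := ⟨_, rfl⟩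
  have hVW : ∀ p, V p * W p = 1 := fun p => by
    rw [hVd]
    exact inv_mul_cancel₀ (hW.pos p).ne'
  have hVc : Continuous V := by
    rw [hVd]
    exact hW.smooth.continuous.inv₀ fun p => (hW.pos p).ne'
  have hfc : CcF f := CcF.of hf hfs
  have hgc : CcF (tr v g) := CcF.tr hg hgs
  -- the norms of `W f` and `V g`
  have hcoord : ∀ p : Pt D, |p.1 k| ≤ ‖p‖ := fun p => by
    rw [← Real.norm_eq_abs]
    exact (norm_le_pi_norm p.1 k).trans (norm_fst_le p)
  have hσabs : ∀ x : ℝ, |σ * x| = |x| := fun x => by rw [abs_mul, hσ, one_mul]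
  obtain ⟨a, ha⟩ : ∃ a, a = Real.exp (m * R) * Real.sqrt (N2 f) := ⟨_, rfl⟩
  obtain ⟨b', hb'⟩ : ∃ b', b' = Real.exp (-(m * (‖v‖ - R))) * Real.sqrt (N2 g) := ⟨_, rfl⟩
  have ha0 : 0 ≤ a := by rw [ha]; positivity
  have hb'0 : 0 ≤ b' := by rw [hb']; positivity
  have hNf : Real.sqrt (N2 (mt W f)) ≤ a := by
    rw [Real.sqrt_le_left ha0]
    refine (N2_mt_le hW.smooth.continuous hfc (Real.exp_pos (m * R)).le fun p hp => ?_).trans
      (le_of_eq ?_)
    · rw [abs_of_pos (hW.pos p), hWd]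
      have h1 : σ * p.1 k ≤ R := by
        refine (le_abs_self _).trans ?_
        rw [hσabs]
        exact (hcoord p).trans (hfR p hp)
      unfold wg
      rw [rho_eq hT0 (by rw [hT]; linarith)]
      exact Real.exp_le_exp.2 (mul_le_mul_of_nonneg_left h1 hm.le)
    · rw [ha, mul_pow, Real.sq_sqrt (N2_nonneg f)]
  have hNg : Real.sqrt (N2 (mt V (tr v g))) ≤ b' := by
    rw [Real.sqrt_le_left hb'0]
    refine (N2_mt_le hVc hgc (Real.exp_pos (-(m * (‖v‖ - R)))).le fun p hp => ?_).trans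
      (le_of_eq ?_)
    · have hp' : g (p.1 - v, p.2) ≠ 0 := hp
      have h1 := hgR _ hp'
      have h2 := (hcoord _).trans h1
      have h3 : |σ * p.1 k - ‖v‖| ≤ R := by
        have : σ * p.1 k - ‖v‖ = σ * (p.1 k - v k) := by rw [mul_sub, hσv]
        rw [this, hσabs]
        simpa using h2
      have h4 := abs_le.1 h3
      rw [hVd]
      simp only
      rw [abs_of_pos (inv_pos.2 (hW.pos p)), hWd]
      unfold wg
      rw [rho_eq hT0 (by rw [hT]; linarith), ← Real.exp_neg]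
      refine Real.exp_le_exp.2 (neg_le_neg (mul_le_mul_of_nonneg_left ?_ hm.le))
      linarith
    · have h5 : N2 (tr v g) = N2 g := PR_tr v g g
      rw [hb', mul_pow, Real.sq_sqrt (N2_nonneg g), h5]
  obtain ⟨c₀, hc₀⟩ : ∃ c₀, c₀ = 1 - m ^ 2 / κ ^ 2 := ⟨_, rfl⟩
  have hc0 : 0 < c₀ := by
    rw [hc₀, sub_pos, div_lt_one (by positivity)]
    exact pow_lt_pow_left₀ hmκ hm.le (by norm_num)
  obtain ⟨E₀, hE₀⟩ : ∃ E₀, E₀ = 2 * Real.sqrt (N2 f) + 2 * Real.sqrt (N2 g) + 2 := ⟨_, rfl⟩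
  have hE₀0 : 0 ≤ E₀ := by rw [hE₀]; positivity
  obtain ⟨b, hb⟩ : ∃ b, b = Real.sqrt ((M ^ 2) ^ 2 * ((2 + 2 * (2 * m) ^ 2) * E₀ ^ 2)) := ⟨_, rfl⟩
  have hb0 : 0 ≤ b := by rw [hb]; exact Real.sqrt_nonneg _
  have key : ∀ s : ℝ, 0 < s → s ≤ 1 → |QC (fun p i => f p i + tr v g p i) - QC f - QC g| ≤
      2 * (b' * (a / c₀ + Real.sqrt (2 * s * b / c₀))) + s * (14 * E₀ + 4) := by
    intro s hs hs1
    obtain ⟨u, hu⟩ := NM_exists f hs
    obtain ⟨u', hu'⟩ := NM_exists (tr v g) hs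
    have e1 : Real.sqrt (EC u) ≤ E₀ := by
      refine (hu.energy hfc hs.le hs1).trans ?_
      rw [hE₀]
      have := Real.sqrt_nonneg (N2 g)
      linarith
    have e2 : Real.sqrt (EC u') ≤ E₀ := by
      refine (hu'.energy hgc hs.le hs1).trans ?_
      have h5 : N2 (tr v g) = N2 g := PR_tr v g g
      rw [hE₀, h5]
      have := Real.sqrt_nonneg (N2 f)
      linarith
    have h1 := QC_pol hfc hgc hs.le hs1 hu hu' hE₀0 e1 e2
    rw [QC_tr v hg hgs] at h1
    refine h1.trans ?_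
    -- the weighted estimate
    obtain ⟨X, hX⟩ : ∃ X, X = Real.sqrt (EC (mt W u)) := ⟨_, rfl⟩
    have hX0 : 0 ≤ X := by rw [hX]; exact Real.sqrt_nonneg _
    have hX2 : X ^ 2 = EC (mt W u) := by rw [hX, Real.sq_sqrt (EC_nonneg _)]
    have t1 := mt_test hW.smooth hu.1
    have t2 := mt_test hW.sq.smooth hu.1
    have hNu : Real.sqrt (N2 (mt W u)) ≤ X := by
      rw [hX]
      refine Real.sqrt_le_sqrt ?_
      have := N2_le (κ := 1) one_pos (by linarith [Real.pi_gt_three]) t1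
      linarith
    have w1 := EC_mt hκ0 hκ hW hu.1
    rw [← hX2, ← hc₀] at w1
    have w2 := hu.euler hfc hs.le t2
    have w3 : |PR f (mt (fun p => W p ^ 2) u)| ≤ a * X := by
      rw [PR_mt2]
      refine (PR_cs (mt_cc hW.smooth.continuous hfc) (CcF.test t1)).trans ?_
      exact mul_le_mul hNf hNu (Real.sqrt_nonneg _) ha0
    have w4 : Real.sqrt (EC (mt (fun p => W p ^ 2) u)) ≤ b := by
      rw [hb]
      refine Real.sqrt_le_sqrt ?_
      have hM2 : ∀ p, W p ^ 2 ≤ M ^ 2 := fun p => pow_le_pow_left₀ (hW.pos p).le (hWM p) 2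
      refine (EC_mt_le hW.sq hM2 hu.1).trans ?_
      have : EC u ≤ E₀ ^ 2 := by
        have h6 : Real.sqrt (EC u) ^ 2 = EC u := Real.sq_sqrt (EC_nonneg u)
        rw [← h6]
        exact pow_le_pow_left₀ (Real.sqrt_nonneg _) e1 2
      gcongr
    have w5 : c₀ * X ^ 2 ≤ a * X + s * b := by
      have h6 := (abs_le.1 w2).1
      have h7 := (le_abs_self _).trans w3
      have h8 := mul_le_mul_of_nonneg_left w4 hs.le
      linarith
    have w6 : X ≤ a / c₀ + Real.sqrt (2 * s * b / c₀) := by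
      have h7 : X ^ 2 ≤ (a / c₀) * X + s * b / c₀ := by
        have h8 : (a / c₀) * X + s * b / c₀ = (a * X + s * b) / c₀ := by ring
        rw [h8, le_div_iff₀ hc0]
        linarith
      have h9 : 2 * s * b / c₀ = 2 * (s * b / c₀) := by ring
      rw [h9]
      exact quad_le (div_nonneg ha0 hc0.le) (div_nonneg (mul_nonneg hs.le hb0) hc0.le) h7
    have w7 : |PR (tr v g) u| ≤ b' * (a / c₀ + Real.sqrt (2 * s * b / c₀)) := by
      rw [← PR_mt hVW (tr v g) u]
      refine (PR_cs (mt_cc hVc hgc) (CcF.test t1)).trans ?_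
      exact mul_le_mul hNg (hNu.trans w6) (Real.sqrt_nonneg _) hb'0
    linarith
  have hlim : Tendsto (fun s : ℝ => 2 * (b' * (a / c₀ + Real.sqrt (2 * s * b / c₀))) +
      s * (14 * E₀ + 4)) (𝓝[>] 0) (𝓝 (2 * (b' * (a / c₀ + Real.sqrt (2 * 0 * b / c₀))) +
      0 * (14 * E₀ + 4))) := by
    refine Tendsto.mono_left ?_ nhdsWithin_le_nhds
    refine Continuous.tendsto (f := fun s : ℝ => 2 * (b' * (a / c₀ +
      Real.sqrt (2 * s * b / c₀))) + s * (14 * E₀ + 4)) ?_ 0
    fun_prop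
  have hfin := ge_of_tendsto hlim (Filter.mem_of_superset (Ioc_mem_nhdsGT one_pos)
    fun s hs => key s hs.1 hs.2)
  refine hfin.trans (le_of_eq ?_)
  rw [mul_zero, zero_mul, zero_div, Real.sqrt_zero, zero_mul, add_zero, add_zero, ha, hb', ← hc₀]
  have e3 : Real.exp (-(m * (‖v‖ - R))) = Real.exp (m * R) * Real.exp (-(m * ‖v‖)) := by
    rw [← Real.exp_add]
    congr 1
    ring
  have e4 : Real.exp (2 * (m * R)) = Real.exp (m * R) * Real.exp (m * R) := by
    rw [← Real.exp_add]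
    congr 1
    ring
  rw [e3, e4]
  ring

/-- **The mass of the limit.**  The bilinear form of the variance of the free field in the slab
decays exponentially in the horizontal directions, with every rate `m < π / 2`. -/
theorem QC_decay {f g : Pt D → Fin D → ℝ} (hf : Continuous f) (hfs : HasCompactSupport f)
    (hg : Continuous g) (hgs : HasCompactSupport g) {m : ℝ} (hm : m < Real.pi / 2) :
    ∃ C : ℝ, ∀ v : Fin D → ℝ,
      |QC (fun p => f p + g (p.1 - v, p.2)) - QC f - QC g| ≤ C * Real.exp (-(m * ‖v‖)) := by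
  obtain ⟨m', hm', hm'0, hmm'⟩ : ∃ m' : ℝ, m' < Real.pi / 2 ∧ 0 < m' ∧ m ≤ m' :=
    ⟨max m 1, max_lt hm (by linarith [Real.pi_gt_three]), lt_max_of_lt_right one_pos,
      le_max_left _ _⟩
  obtain ⟨κ, hκ1, hκ2⟩ := exists_between hm'
  obtain ⟨R, hR0, hfR, hgR⟩ : ∃ R : ℝ, 0 ≤ R ∧ (∀ p, f p ≠ 0 → ‖p‖ ≤ R) ∧
      ∀ p, g p ≠ 0 → ‖p‖ ≤ R := by
    obtain ⟨R₁, h1⟩ := hfs.isCompact.isBounded.exists_norm_le
    obtain ⟨R₂, h2⟩ := hgs.isCompact.isBounded.exists_norm_le
    refine ⟨max 0 (max R₁ R₂), le_max_left _ _, fun p hp => ?_, fun p hp => ?_⟩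
    · exact (h1 p (subset_tsupport _ hp)).trans ((le_max_left _ _).trans (le_max_right _ _))
    · exact (h2 p (subset_tsupport _ hp)).trans ((le_max_right _ _).trans (le_max_right _ _))
  obtain ⟨C₁, hC₁⟩ : ∃ C₁, C₁ = 2 * (Real.exp (2 * (m' * R)) * Real.sqrt (N2 f) *
    Real.sqrt (N2 g) / (1 - m' ^ 2 / κ ^ 2)) := ⟨_, rfl⟩
  have hC₁0 : 0 ≤ C₁ := by
    rw [hC₁]
    have : 0 < 1 - m' ^ 2 / κ ^ 2 := by
      have hκ0 : 0 < κ := hm'0.trans hκ1
      rw [sub_pos, div_lt_one (by positivity)]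
      exact pow_lt_pow_left₀ hκ1 hm'0.le (by norm_num)
    positivity
  obtain ⟨C₂, hC₂⟩ : ∃ C₂, C₂ = |QC (fun p => f p + g (p.1 - 0, p.2)) - QC f - QC g| := ⟨_, rfl⟩
  refine ⟨C₁ + C₂, fun v => ?_⟩
  have hC₂0 : 0 ≤ C₂ := by rw [hC₂]; exact abs_nonneg _
  by_cases hv : v = 0
  · rw [hv, ← hC₂, norm_zero, mul_zero, neg_zero, Real.exp_zero]
    linarith
  · have h1 := decay_one hf hfs hg hgs hR0 hfR hgR hm'0 hκ1 hκ2 hv
    have e1 : (fun p => f p + g (p.1 - v, p.2)) = fun p i => f p i + tr v g p i := rfl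
    rw [e1]
    rw [← hC₁] at h1
    refine h1.trans ?_
    have h2 : Real.exp (-(m' * ‖v‖)) ≤ Real.exp (-(m * ‖v‖)) :=
      Real.exp_le_exp.2 (neg_le_neg (mul_le_mul_of_nonneg_right hmm' (norm_nonneg _)))
    have h3 := Real.exp_pos (-(m * ‖v‖))
    calc C₁ * Real.exp (-(m' * ‖v‖)) ≤ C₁ * Real.exp (-(m * ‖v‖)) :=
          mul_le_mul_of_nonneg_left h2 hC₁0
      _ ≤ (C₁ + C₂) * Real.exp (-(m * ‖v‖)) :=
          mul_le_mul_of_nonneg_right (by linarith) h3.le

end

end Pool.Agent.N839.C
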