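import Pool.Agent.N839.C.Rate

/-!
# Invariance of the variance under the horizontal Euclidean motions
-/

set_option autoImplicit false
set_option linter.unusedSectionVars false

open MeasureTheory Set Filter Topology Matrix
open scoped Classical

namespace Pool.Agent.N839.C

open Pool.Agent.N990 Pool.Agent.N990.C

noncomputable section

variable {D : ℕ}

/-- the pull back of the field `f` (a one-form) under the motion `y ↦ A y + v` -/
def mot (A : Matrix (Fin D) (Fin D) ℝ) (v : Fin D → ℝ) (f : Pt D → Fin D → ℝ) :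
    Pt D → Fin D → ℝ :=
  fun p i => ∑ j, A j i * f (A *ᵥ p.1 + v, p.2) j

/-- the motion -/
def mg (A : Matrix (Fin D) (Fin D) ℝ) (v : Fin D → ℝ) (p : Pt D) : Pt D := (A *ᵥ p.1 + v, p.2)

/-- its linear part -/
def ml (A : Matrix (Fin D) (Fin D) ℝ) (e : Pt D) : Pt D := (A *ᵥ e.1, e.2)

/-- the motion as a homeomorphism -/
def mH {A : Matrix (Fin D) (Fin D) ℝ} (h1 : A * Aᵀ = 1) (h2 : Aᵀ * A = 1) (v : Fin D → ℝ) :
    Pt D ≃ₜ Pt D where
  toFun := mg A v
  invFun := fun q => (Aᵀ *ᵥ (q.1 - v), q.2)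
  left_inv := fun p => by
    unfold mg
    simp only [add_sub_cancel_right, mulVec_mulVec, h2, one_mulVec]
  right_inv := fun q => by
    unfold mg
    simp only [mulVec_mulVec, h1, one_mulVec, sub_add_cancel]
  continuous_toFun := by
    unfold mg
    fun_prop
  continuous_invFun := by fun_prop

section orth

variable {A : Matrix (Fin D) (Fin D) ℝ}

lemma orth2 (h1 : A * Aᵀ = 1) (x y : Fin D → ℝ) :
    ∑ i, (∑ j, A j i * x j) * (∑ k, A k i * y k) = ∑ j, x j * y j := by
  have h2 : ∀ j k, ∑ i, A j i * A k i = if j = k then 1 else 0 := by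
    intro j k
    have := congrFun (congrFun h1 j) k
    rw [Matrix.mul_apply, Matrix.one_apply] at this
    simpa only [Matrix.transpose_apply] using this
  have e1 : ∀ i, (∑ j, A j i * x j) * (∑ k, A k i * y k) =
      ∑ j, ∑ k, x j * y k * (A j i * A k i) := by
    intro i
    rw [Finset.sum_mul_sum]
    exact Finset.sum_congr rfl fun j _ => Finset.sum_congr rfl fun k _ => by ring
  simp only [e1]
  rw [Finset.sum_comm]
  refine Finset.sum_congr rfl fun j _ => ?_
  rw [Finset.sum_comm]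
  have e2 : ∀ k, ∑ i, x j * y k * (A j i * A k i) = if j = k then x j * y k else 0 := by
    intro k
    rw [← Finset.mul_sum, h2]
    split_ifs <;> simp
  simp only [e2]
  rw [Finset.sum_ite_eq]
  simp

lemma orth1 (h1 : A * Aᵀ = 1) (x : Fin D → ℝ) : ∑ i, (∑ j, A j i * x j) ^ 2 = ∑ j, x j ^ 2 := by
  simp only [pow_two]
  exact orth2 h1 x x

lemma half_sum_eq {a : Fin D → Fin D → ℝ} (hs : ∀ i j, a i j = a j i) (h0 : ∀ i, a i i = 0) :
    2 * ∑ i, ∑ j, (if i < j then a i j else 0) = ∑ i, ∑ j, a i j := by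
  have h1 : ∑ i, ∑ j, (if i < j then a i j else 0) = ∑ i, ∑ j, (if j < i then a i j else 0) := by
    rw [Finset.sum_comm]
    refine Finset.sum_congr rfl fun i _ => Finset.sum_congr rfl fun j _ => ?_
    rw [hs]
  rw [two_mul]
  nth_rw 2 [h1]
  rw [← Finset.sum_add_distrib]
  refine Finset.sum_congr rfl fun i _ => ?_
  rw [← Finset.sum_add_distrib]
  refine Finset.sum_congr rfl fun j _ => ?_
  rcases lt_trichotomy i j with h | h | h
  · rw [if_pos h, if_neg (not_lt.2 h.le), add_zero]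
  · subst h
    rw [if_neg (lt_irrefl i), h0, add_zero]
  · rw [if_neg (not_lt.2 h.le), if_pos h, zero_add]

end orth

lemma mg_smooth (A : Matrix (Fin D) (Fin D) ℝ) (v : Fin D → ℝ) : ContDiff ℝ 1 (mg A v) := by
  unfold mg
  refine ContDiff.prodMk ?_ contDiff_snd
  refine ContDiff.add ?_ contDiff_const
  have : ContDiff ℝ 1 fun y : Fin D → ℝ => A *ᵥ y :=
    (LinearMap.toContinuousLinearMap (Matrix.toLin' A)).contDiff
  exact this.comp contDiff_fst

lemma mg_deriv (A : Matrix (Fin D) (Fin D) ℝ) (v : Fin D → ℝ) (p : Pt D) :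
    ∃ Λ : Pt D →L[ℝ] Pt D, HasFDerivAt (mg A v) Λ p ∧ ∀ e, Λ e = ml A e := by
  obtain ⟨B, hB⟩ : ∃ B : (Fin D → ℝ) →L[ℝ] (Fin D → ℝ), ∀ y, B y = A *ᵥ y :=
    ⟨LinearMap.toContinuousLinearMap (Matrix.toLin' A), fun y => rfl⟩
  refine ⟨(B.comp (ContinuousLinearMap.fst ℝ (Fin D → ℝ) ℝ)).prod
    (ContinuousLinearMap.snd ℝ (Fin D → ℝ) ℝ), ?_, fun e => ?_⟩
  · have h1 : HasFDerivAt (fun p : Pt D => A *ᵥ p.1 + v)
        (B.comp (ContinuousLinearMap.fst ℝ (Fin D → ℝ) ℝ)) p := by
      have h2 : HasFDerivAt (fun p : Pt D => B p.1)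
          (B.comp (ContinuousLinearMap.fst ℝ (Fin D → ℝ) ℝ)) p :=
        (B.hasFDerivAt).comp p hasFDerivAt_fst
      have h3 := h2.add_const v
      simpa only [hB] using h3
    exact h1.prodMk hasFDerivAt_snd
  · unfold ml
    rw [ContinuousLinearMap.prod_apply, ContinuousLinearMap.comp_apply, hB]
    rfl

variable {A : Matrix (Fin D) (Fin D) ℝ} {v : Fin D → ℝ}

lemma mot_cont {f : Pt D → Fin D → ℝ} (hf : Continuous f) : Continuous (mot A v f) := by
  refine continuous_pi fun i => continuous_finsetSum _ fun j _ => ?_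
  exact continuous_const.mul ((continuous_apply j).comp (hf.comp (mg_smooth A v).continuous))

lemma mot_supp (h1 : A * Aᵀ = 1) (h2 : Aᵀ * A = 1) {f : Pt D → Fin D → ℝ}
    (hf : HasCompactSupport f) : HasCompactSupport (mot A v f) := by
  refine (hf.comp_homeomorph (mH h1 h2 v)).mono fun p hp => ?_
  rw [Function.mem_support] at hp ⊢
  intro h
  apply hp
  have h3 : f (A *ᵥ p.1 + v, p.2) = 0 := h
  unfold mot
  rw [h3]
  funext i
  simp

lemma mot_test (h1 : A * Aᵀ = 1) (h2 : Aᵀ * A = 1) {u : Pt D → Fin D → ℝ} (hu : IsTest u) :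
    IsTest (mot A v u) := by
  refine ⟨?_, mot_supp h1 h2 hu.supp, fun y => ?_⟩
  · refine contDiff_pi.2 fun i => ContDiff.sum fun j _ => ?_
    refine contDiff_const.mul ?_
    exact (contDiff_apply ℝ ℝ j).comp (hu.smooth.comp (mg_smooth A v))
  · unfold mot
    funext i
    simp only
    rw [hu.wall]
    simp

lemma pd_mot {u : Pt D → Fin D → ℝ} (hu : IsTest u) (e : Pt D) (i : Fin D) (p : Pt D) :
    pd (mot A v u) e i p = ∑ j, A j i * pd u (ml A e) j (mg A v p) := by
  obtain ⟨Λ, hΛ, hΛe⟩ := mg_deriv A v p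
  have h1 : HasFDerivAt u (fderiv ℝ u (mg A v p)) (mg A v p) :=
    (hu.smooth.differentiable (by norm_num) _).hasFDerivAt
  have h2 := h1.comp p hΛ
  have h3 : ∀ j, HasFDerivAt (fun p => u (mg A v p) j)
      ((ContinuousLinearMap.proj (R := ℝ) (φ := fun _ : Fin D => ℝ) j).comp
        ((fderiv ℝ u (mg A v p)).comp Λ)) p := fun j => (hasFDerivAt_pi'.1 h2) j
  have h4 : HasFDerivAt (fun p => mot A v u p i) (∑ j, A j i •
      ((ContinuousLinearMap.proj (R := ℝ) (φ := fun _ : Fin D => ℝ) j).comp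
        ((fderiv ℝ u (mg A v p)).comp Λ))) p := by
    unfold mot
    exact HasFDerivAt.fun_sum fun j _ => (h3 j).const_mul (A j i)
  have h5 : DifferentiableAt ℝ (mot A v u) p := by
    refine differentiableAt_pi.2 fun i => ?_
    unfold mot
    refine DifferentiableAt.fun_sum fun j _ => ?_
    exact ((h3 j).differentiableAt).const_mul _
  have h6 : HasFDerivAt (fun p => mot A v u p i)
      ((ContinuousLinearMap.proj (R := ℝ) (φ := fun _ : Fin D => ℝ) i).comp
        (fderiv ℝ (mot A v u) p)) p := (hasFDerivAt_pi'.1 h5.hasFDerivAt) i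
  have h7 := h6.unique h4
  have h8 := DFunLike.congr_fun h7 e
  unfold pd
  have h9 : fderiv ℝ (mot A v u) p e i = ((ContinuousLinearMap.proj (R := ℝ)
      (φ := fun _ : Fin D => ℝ) i).comp (fderiv ℝ (mot A v u) p)) e := rfl
  rw [h9, h8]
  rw [_root_.sum_apply]
  refine Finset.sum_congr rfl fun j _ => ?_
  rw [← hΛe]
  rfl

lemma ml_ez : ml A (ez D) = ez D := by
  unfold ml ez
  simp

lemma ml_eh (k : Fin D) : ml A (eh k) = ∑ l, A l k • (eh l : Pt D) := by
  have h1 : ∀ q : Pt D, q = ∑ l, q.1 l • (eh l : Pt D) + q.2 • ez D := by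
    intro q
    ext j
    · simp only [Prod.fst_add, Prod.fst_sum, Prod.smul_fst, Pi.add_apply, Finset.sum_apply,
        Pi.smul_apply, smul_eq_mul]
      have e1 : ∀ l, q.1 l * (eh l : Pt D).1 j = if l = j then q.1 l else 0 := by
        intro l
        rw [eh_k]
        by_cases h : j = l
        · rw [if_pos h, if_pos h.symm, mul_one]
        · rw [if_neg h, if_neg (Ne.symm h), mul_zero]
      simp only [e1]
      rw [Finset.sum_ite_eq' Finset.univ j q.1, ez_k]
      simp
    · simp only [Prod.snd_add, Prod.snd_sum, Prod.smul_snd, smul_eq_mul]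
      have e1 : ∀ l, q.1 l * (eh l : Pt D).2 = 0 := fun l => by unfold eh; simp
      simp only [e1]
      unfold ez
      simp
  have h2 : ∀ l, (ml A (eh k)).1 l = A l k := by
    intro l
    unfold ml eh
    simp
  have h3 : (ml A (eh k)).2 = 0 := by
    unfold ml eh
    simp
  rw [h1 (ml A (eh k)), h3, zero_smul, add_zero]
  simp only [h2]

lemma pd_sum {u : Pt D → Fin D → ℝ} (c : Fin D → ℝ) (j : Fin D) (q : Pt D) :
    pd u (∑ l, c l • (eh l : Pt D)) j q = ∑ l, c l * pd u (eh l) j q := by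
  unfold pd
  rw [map_sum]
  simp only [map_smul, Finset.sum_apply, Pi.smul_apply, smul_eq_mul]

lemma cu_mot {u : Pt D → Fin D → ℝ} (hu : IsTest u) (i j : Fin D) (p : Pt D) :
    cu (mot A v u) i j p = ∑ l, A l i * ∑ k, A k j * cu u l k (mg A v p) := by
  have e1 : ∀ a b : Fin D, pd (mot A v u) (eh a) b p =
      ∑ l, ∑ k, A l a * (A k b * pd u (eh l) k (mg A v p)) := by
    intro a b
    rw [pd_mot hu, Finset.sum_comm]
    refine Finset.sum_congr rfl fun k _ => ?_
    rw [ml_eh, pd_sum, Finset.mul_sum]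
    exact Finset.sum_congr rfl fun l _ => by ring
  unfold cu
  rw [e1, e1]
  have e2 : ∑ l, ∑ k, A l j * (A k i * pd u (eh l) k (mg A v p)) =
      ∑ l, ∑ k, A l i * (A k j * pd u (eh k) l (mg A v p)) := by
    rw [Finset.sum_comm]
    exact Finset.sum_congr rfl fun l _ => Finset.sum_congr rfl fun k _ => by ring
  rw [e2, ← Finset.sum_sub_distrib]
  refine Finset.sum_congr rfl fun l _ => ?_
  rw [Finset.mul_sum, ← Finset.sum_sub_distrib]
  exact Finset.sum_congr rfl fun k _ => by ring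

lemma cu_anti (u : Pt D → Fin D → ℝ) (i j : Fin D) (p : Pt D) : cu u i j p = -cu u j i p := by
  unfold cu
  ring

lemma dC_mot (h1 : A * Aᵀ = 1) {u : Pt D → Fin D → ℝ} (hu : IsTest u) (p : Pt D) :
    dC (mot A v u) p = dC u (mg A v p) := by
  rw [dC_cu, dC_cu]
  have e1 : ∑ i, pd (mot A v u) (ez D) i p ^ 2 = ∑ i, pd u (ez D) i (mg A v p) ^ 2 := by
    simp only [pd_mot hu, ml_ez]
    exact orth1 h1 _
  have c0 : ∀ (w : Pt D → Fin D → ℝ) (q : Pt D), 2 * ∑ i, ∑ j,
      (if i < j then cu w i j q ^ 2 else 0) = ∑ i, ∑ j, cu w i j q ^ 2 := by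
    intro w q
    refine half_sum_eq (a := fun i j => cu w i j q ^ 2) (fun i j => ?_) fun i => ?_
    · rw [cu_anti]
      ring
    · unfold cu
      ring
  have e2 : ∑ i, ∑ j, cu (mot A v u) i j p ^ 2 = ∑ i, ∑ j, cu u i j (mg A v p) ^ 2 := by
    simp only [cu_mot hu]
    rw [Finset.sum_comm]
    have e3 : ∀ j, ∑ i, (∑ l, A l i * ∑ k, A k j * cu u l k (mg A v p)) ^ 2 =
        ∑ l, (∑ k, A k j * cu u l k (mg A v p)) ^ 2 := fun j => orth1 h1 _
    simp only [e3]
    rw [Finset.sum_comm]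
    refine Finset.sum_congr rfl fun l _ => ?_
    exact orth1 h1 _
  have e4 := c0 (mot A v u) p
  have e5 := c0 u (mg A v p)
  rw [e2, ← e5] at e4
  rw [e1]
  linarith

lemma det_abs (h1 : A * Aᵀ = 1) : |A.det| = 1 := by
  have h2 := congrArg Matrix.det h1
  rw [Matrix.det_mul, Matrix.det_transpose, Matrix.det_one] at h2
  have h3 : |A.det| * |A.det| = 1 := by
    rw [← abs_mul, h2, abs_one]
  nlinarith [abs_nonneg A.det]

lemma mg_mp (h1 : A * Aᵀ = 1) :
    MeasurePreserving (mg A v) (volume : Measure (Pt D)) volume := by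
  have hd := det_abs h1
  have hd0 : A.det ≠ 0 := by
    intro h
    rw [h] at hd
    simp at hd
  have m1 : MeasurePreserving (fun y : Fin D → ℝ => A *ᵥ y) volume volume := by
    refine ⟨by fun_prop, ?_⟩
    have h2 := Real.map_matrix_volume_pi_eq_smul_volume_pi hd0
    rw [abs_inv, hd, inv_one, ENNReal.ofReal_one, one_smul] at h2
    exact h2
  have m2 : MeasurePreserving (fun y : Fin D → ℝ => y + v) volume volume :=
    measurePreserving_add_right _ v
  have m3 := (m2.comp m1).prod (MeasurePreserving.id (volume : Measure ℝ))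
  rw [← Measure.volume_eq_prod] at m3
  exact m3

lemma int_mot (h1 : A * Aᵀ = 1) {G : Pt D → ℝ} (hG : Continuous G) :
    ∫ p in Slb D, G (mg A v p) = ∫ p in Slb D, G p := by
  rw [← integral_indicator slb_meas, ← integral_indicator slb_meas]
  have h2 : (Slb D).indicator (fun p => G (mg A v p)) =
      fun p => (Slb D).indicator G (mg A v p) := by
    funext p
    have h3 : (mg A v p).2 = p.2 := rfl
    simp only [indicator_apply, Slb, mem_ofPred_eq, h3]
  rw [h2]
  have h3 : ∫ q, (Slb D).indicator G q ∂(Measure.map (mg A v) volume) =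
      ∫ p, (Slb D).indicator G (mg A v p) :=
    integral_map (mg_smooth A v).continuous.measurable.aemeasurable
      ((hG.measurable.indicator slb_meas).aestronglyMeasurable)
  rw [← h3, (mg_mp (v := v) h1).map_eq]

lemma EC_mot (h1 : A * Aᵀ = 1) {u : Pt D → Fin D → ℝ} (hu : IsTest u) :
    EC (mot A v u) = EC u := by
  unfold EC
  simp only [dC_mot h1 hu]
  exact int_mot h1 (dC_cc hu).1

lemma PR_mot (h1 : A * Aᵀ = 1) {f u : Pt D → Fin D → ℝ} (hf : Continuous f)
    (hu : Continuous u) : PR (mot A v f) (mot A v u) = PR f u := by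
  unfold PR
  have h2 : ∀ p, ∑ i, mot A v f p i * mot A v u p i =
      (fun q => ∑ i, f q i * u q i) (mg A v p) := fun p => orth2 h1 _ _
  simp only [h2]
  refine int_mot h1 (G := fun q => ∑ i, f q i * u q i) ?_
  exact continuous_finsetSum _ fun i _ =>
    ((continuous_apply i).comp hf).mul ((continuous_apply i).comp hu)

lemma QC_mot_le (h1 : A * Aᵀ = 1) (h2 : Aᵀ * A = 1) {f : Pt D → Fin D → ℝ} (hf : Continuous f)
    (hs : HasCompactSupport f) : QC f ≤ QC (mot A v f) := by
  refine csSup_le ⟨0, valS_zero f⟩ ?_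
  rintro t ⟨u, hu, rfl⟩
  refine le_trans (le_of_eq ?_) (le_QC (CcF.of (mot_cont (A := A) (v := v) hf)
    (mot_supp h1 h2 hs)) (mot_test h1 h2 (v := v) hu))
  rw [JC_PR, JC_PR, PR_mot h1 hf hu.smooth.continuous, EC_mot h1 hu]

lemma mot_mot (h1 : A * Aᵀ = 1) (f : Pt D → Fin D → ℝ) :
    mot Aᵀ (-(Aᵀ *ᵥ v)) (mot A v f) = f := by
  funext p i
  unfold mot
  simp only [mulVec_add, mulVec_neg, mulVec_mulVec, h1, one_mulVec, neg_add_cancel_right]
  have h2 : ∀ j k, ∑ i, A j i * A k i = if j = k then 1 else 0 := by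
    intro j k
    have := congrFun (congrFun h1 j) k
    rw [Matrix.mul_apply, Matrix.one_apply] at this
    simpa only [Matrix.transpose_apply] using this
  have e1 : ∑ j, Aᵀ j i * ∑ k, A k j * f (p.1, p.2) k =
      ∑ k, (∑ j, A i j * A k j) * f (p.1, p.2) k := by
    simp only [Finset.mul_sum, Finset.sum_mul, Matrix.transpose_apply]
    rw [Finset.sum_comm]
    exact Finset.sum_congr rfl fun k _ => Finset.sum_congr rfl fun j _ => by ring
  rw [e1]
  simp only [h2, ite_mul, one_mul, zero_mul]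
  rw [Finset.sum_ite_eq]
  simp

/-- **Invariance under the horizontal Euclidean motions.** -/
theorem QC_mot (hA : A ∈ Matrix.orthogonalGroup (Fin D) ℝ) (v : Fin D → ℝ)
    {f : Pt D → Fin D → ℝ} (hf : Continuous f) (hs : HasCompactSupport f) :
    QC (mot A v f) = QC f := by
  have h1 : A * Aᵀ = 1 := (Matrix.mem_orthogonalGroup_iff (Fin D) ℝ).1 hA
  have h2 : Aᵀ * A = 1 := mul_eq_one_comm.1 h1
  refine le_antisymm ?_ (QC_mot_le h1 h2 hf hs)
  have h3 := QC_mot_le (A := Aᵀ) (v := -(Aᵀ *ᵥ v)) (by rw [transpose_transpose]; exact h2)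
    (by rw [transpose_transpose]; exact h1) (mot_cont (A := A) (v := v) hf)
    (mot_supp h1 h2 hs)
  rwa [mot_mot h1] at h3

end

end Pool.Agent.N839.C
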