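import Pool.Agent.N839.C.Rate

/-!
# Odd fields are limits of fields which vanish near the hyperplane
-/

set_option autoImplicit false
set_option linter.unusedSectionVars false

open MeasureTheory Set Filter Topology
open scoped Classical

namespace Pool.Agent.N839.C

open Pool.Agent.N990 Pool.Agent.N990.C

noncomputable section

variable {D : ℕ}

/-- product with a function of the coordinate `i` -/
lemma pd_mth {h : ℝ → ℝ} (hh : ContDiff ℝ 1 h) (i : Fin D) {u : Pt D → Fin D → ℝ}
    (hu : IsTest u) (e : Pt D) (a : Fin D) (p : Pt D) :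
    pd (mt (fun p => h (p.1 i)) u) e a p =
      h (p.1 i) * pd u e a p + deriv h (p.1 i) * e.1 i * u p a := by
  have h1 : HasFDerivAt (fun p : Pt D => p.1 i)
      ((ContinuousLinearMap.proj (R := ℝ) (φ := fun _ : Fin D => ℝ) i).comp
        (ContinuousLinearMap.fst ℝ (Fin D → ℝ) ℝ)) p :=
    ((ContinuousLinearMap.proj (R := ℝ) (φ := fun _ : Fin D => ℝ) i).comp
        (ContinuousLinearMap.fst ℝ (Fin D → ℝ) ℝ)).hasFDerivAt
  have h2 : HasDerivAt h (deriv h (p.1 i)) (p.1 i) :=
    (hh.differentiable (by norm_num) _).hasDerivAt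
  have h3 := h2.comp_hasFDerivAt p h1
  have h4 : DifferentiableAt ℝ u p := hu.smooth.differentiable (by norm_num) p
  have h5 := (h3.smul h4.hasFDerivAt).fderiv
  unfold pd
  rw [mt_eq, show (fun p : Pt D => h (p.1 i) • u p) =
    (h ∘ fun p : Pt D => p.1 i) • u from rfl, h5]
  simp only [add_apply, FunLike.coe_smul, Pi.smul_apply,
    ContinuousLinearMap.smulRight_apply, Pi.add_apply, smul_eq_mul,
    ContinuousLinearMap.comp_apply, ContinuousLinearMap.coe_fst',
    ContinuousLinearMap.proj_apply, Function.comp]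

lemma cu_mth {h : ℝ → ℝ} (hh : ContDiff ℝ 1 h) (i : Fin D) {u : Pt D → Fin D → ℝ}
    (hu : IsTest u) (a b : Fin D) (p : Pt D) :
    cu (mt (fun p => h (p.1 i)) u) a b p =
      h (p.1 i) * cu u a b p + deriv h (p.1 i) * ct i u a b p := by
  unfold cu ct
  rw [pd_mth hh i hu, pd_mth hh i hu, eh_k, eh_k]
  ring

/-- the smooth functions of one coordinate are smooth -/
lemma coord_smooth {h : ℝ → ℝ} (hh : ContDiff ℝ 1 h) (i : Fin D) :
    ContDiff ℝ 1 fun p : Pt D => h (p.1 i) :=
  hh.comp ((contDiff_apply ℝ ℝ i).comp contDiff_fst)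

/-- the field is odd with respect to the reflection `θ` of the coordinate `i` -/
def IsOdd (i : Fin D) (u : Pt D → Fin D → ℝ) : Prop :=
  ∀ p : Pt D, (∀ k, k ≠ i → u (Function.update p.1 i (-p.1 i), p.2) k = -u p k) ∧
    u (Function.update p.1 i (-p.1 i), p.2) i = u p i

/-- the other components are small near the hyperplane -/
lemma odd_small {i : Fin D} {u : Pt D → Fin D → ℝ} (ho : IsOdd i u) {C : ℝ}
    (hC : ∀ p q k, |u p k - u q k| ≤ C * ‖p - q‖) (hC0 : 0 ≤ C) {k : Fin D} (hk : k ≠ i)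
    (p : Pt D) : |u p k| ≤ C * |p.1 i| := by
  obtain ⟨q, hq⟩ : ∃ q : Pt D, q = (Function.update p.1 i 0, p.2) := ⟨_, rfl⟩
  have h1 : u q k = 0 := by
    have h2 := (ho q).1 k hk
    have h3 : ((Function.update q.1 i (-q.1 i), q.2) : Pt D) = q := by
      rw [hq]
      simp
    rw [h3] at h2
    linarith
  have h2 := hC p q k
  rw [h1, sub_zero] at h2
  refine h2.trans (mul_le_mul_of_nonneg_left ?_ hC0)
  rw [Prod.norm_def]
  refine max_le ?_ ?_
  · refine (pi_norm_le_iff_of_nonneg (abs_nonneg _)).2 fun j => ?_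
    rw [hq, Real.norm_eq_abs]
    by_cases hj : j = i
    · subst hj
      simp
    · simp [Function.update_of_ne hj]
  · rw [hq]
    simp

/-- **Odd fields are limits in energy of fields which vanish near the hyperplane.** -/
theorem odd_cut (i : Fin D) {u : Pt D → Fin D → ℝ} (hu : IsTest u)
    (ho : ∀ p : Pt D, (∀ k, k ≠ i → u (Function.update p.1 i (-p.1 i), p.2) k = -u p k) ∧
      u (Function.update p.1 i (-p.1 i), p.2) i = u p i) {ε : ℝ} (hε : 0 < ε) :
    ∃ u' : Pt D → Fin D → ℝ, IsTest u' ∧ (∃ δ > 0, ∀ p, |p.1 i| < δ → u' p = 0) ∧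
      EC (u - u') < ε := by
  obtain ⟨C, R, hC0, hR0, hub, hul, hus⟩ := test_bd hu
  obtain ⟨ψ, hψ⟩ : ∃ ψ : ContDiffBump (0 : ℝ), ψ.rIn = 1 ∧ ψ.rOut = 2 :=
    ⟨⟨1, 2, one_pos, by norm_num⟩, rfl, rfl⟩
  have ψs : ContDiff ℝ 1 (ψ : ℝ → ℝ) := ψ.contDiff
  have ψd : Continuous (deriv (ψ : ℝ → ℝ)) := ψs.continuous_deriv le_rfl
  obtain ⟨C', hC'⟩ : ∃ C' : ℝ, ∀ t, |deriv (ψ : ℝ → ℝ) t| ≤ C' := by
    obtain ⟨C', h⟩ := ψ.hasCompactSupport.deriv.exists_bound_of_continuous ψd
    exact ⟨C', fun t => by rw [← Real.norm_eq_abs]; exact h t⟩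
  have hC'0 : 0 ≤ C' := (abs_nonneg _).trans (hC' 0)
  have ψ0 : ∀ t, 2 < |t| → ψ t = 0 ∧ deriv (ψ : ℝ → ℝ) t = 0 := by
    intro t ht
    constructor
    · refine ψ.zero_of_le_dist ?_
      rw [hψ.2, Real.dist_eq, sub_zero]
      exact ht.le
    · have h1 : (ψ : ℝ → ℝ) =ᶠ[𝓝 t] fun _ => 0 := by
        have h2 : ∀ᶠ s in 𝓝 t, 2 < |s| := (continuous_abs.tendsto t).eventually (lt_mem_nhds ht)
        filter_upwards [h2] with s hs
        refine ψ.zero_of_le_dist ?_
        rw [hψ.2, Real.dist_eq, sub_zero]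
        exact hs.le
      rw [h1.deriv_eq]
      simp
  -- the cut off functions
  obtain ⟨h, hh⟩ : ∃ h : ℕ → ℝ → ℝ, h = fun (n : ℕ) (t : ℝ) => ψ (((n : ℝ) + 1) * t) := ⟨_, rfl⟩
  have hs : ∀ n, ContDiff ℝ 1 (h n) := fun n => by
    rw [hh]
    exact ψs.comp (contDiff_const.mul contDiff_id)
  have hd : ∀ n t, deriv (h n) t = ((n : ℝ) + 1) * deriv (ψ : ℝ → ℝ) (((n : ℝ) + 1) * t) := by
    intro n t
    have h1 : HasDerivAt (ψ : ℝ → ℝ) (deriv (ψ : ℝ → ℝ) (((n : ℝ) + 1) * t))
        (((n : ℝ) + 1) * t) := (ψs.differentiable (by norm_num) _).hasDerivAt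
    have h2 : HasDerivAt (fun t : ℝ => ((n : ℝ) + 1) * t) ((n : ℝ) + 1) t := by
      simpa using (hasDerivAt_id t).const_mul ((n : ℝ) + 1)
    have h3 := (h1.comp t h2).deriv
    rw [hh]
    exact h3.trans (mul_comm _ _)
  have hle : ∀ n t, |h n t| ≤ 1 := fun n t => by
    rw [hh]
    simp only
    rw [abs_of_nonneg ψ.nonneg]
    exact ψ.le_one
  have hn : ∀ n : ℕ, (0 : ℝ) < (n : ℝ) + 1 := fun n => by positivity
  have hdt : ∀ (n : ℕ) (t : ℝ), |deriv (h n) t| * |t| ≤ 2 * C' := by
    intro n t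
    rw [hd, abs_mul, abs_of_pos (hn n)]
    by_cases h2 : 2 < |((n : ℝ) + 1) * t|
    · rw [(ψ0 _ h2).2, abs_zero, mul_zero, zero_mul]
      positivity
    · have h3 : ((n : ℝ) + 1) * |t| ≤ 2 := by
        have := not_lt.1 h2
        rwa [abs_mul, abs_of_pos (hn n)] at this
      calc ((n : ℝ) + 1) * |deriv (ψ : ℝ → ℝ) (((n : ℝ) + 1) * t)| * |t| =
          (((n : ℝ) + 1) * |t|) * |deriv (ψ : ℝ → ℝ) (((n : ℝ) + 1) * t)| := by ring
        _ ≤ 2 * C' := mul_le_mul h3 (hC' _) (abs_nonneg _) (by norm_num)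
  have hzero : ∀ (n : ℕ) (t : ℝ), 2 < ((n : ℝ) + 1) * |t| → h n t = 0 ∧ deriv (h n) t = 0 := by
    intro n t ht
    have h2 : 2 < |((n : ℝ) + 1) * t| := by rwa [abs_mul, abs_of_pos (hn n)]
    constructor
    · rw [hh]
      exact (ψ0 _ h2).1
    · rw [hd, (ψ0 _ h2).2, mul_zero]
  -- the energy of the cut part
  obtain ⟨K, hK⟩ := (dC_cc hu).2.exists_bound_of_continuous (dC_cc hu).1
  have tst : ∀ n, IsTest (mt (fun p => h n (p.1 i)) u) := fun n =>
    mt_test (coord_smooth (hs n) i) hu
  have hbd : ∀ (n : ℕ) (p : Pt D), |dC (mt (fun p => h n (p.1 i)) u) p| ≤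
      2 * K + ∑ _a : Fin D, ∑ _b : Fin D, 2 * (2 * C' * C) ^ 2 := by
    intro n p
    have hnn : ∀ w : Pt D → Fin D → ℝ, 0 ≤ dC w p := fun w => by
      rw [dC_cu]
      refine add_nonneg (Finset.sum_nonneg fun i _ => sq_nonneg _)
        (Finset.sum_nonneg fun i _ => Finset.sum_nonneg fun j _ => ?_)
      split_ifs
      · exact sq_nonneg _
      · exact le_rfl
    rw [abs_of_nonneg (hnn _)]
    have hη : h n (p.1 i) ^ 2 ≤ 1 := by
      rw [← sq_abs]
      exact pow_le_one₀ (abs_nonneg _) (hle n _)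
    have k1 : dC u p ≤ K := by
      have := hK p
      rw [Real.norm_eq_abs, abs_of_nonneg (hnn u)] at this
      exact this
    have k2 : ∀ a b : Fin D, (if a < b then cu (mt (fun p => h n (p.1 i)) u) a b p ^ 2 else 0) ≤
        2 * (if a < b then cu u a b p ^ 2 else 0) + 2 * (2 * C' * C) ^ 2 := by
      intro a b
      split_ifs with hab
      · rw [cu_mth (hs n) i hu]
        have k3 : |deriv (h n) (p.1 i) * ct i u a b p| ≤ 2 * C' * C := by
          have k4 : ∀ k, k ≠ i → |deriv (h n) (p.1 i)| * |u p k| ≤ 2 * C' * C := by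
            intro k hk
            have k5 := odd_small ho hul hC0 hk p
            calc |deriv (h n) (p.1 i)| * |u p k| ≤ |deriv (h n) (p.1 i)| * (C * |p.1 i|) :=
                  mul_le_mul_of_nonneg_left k5 (abs_nonneg _)
              _ = (|deriv (h n) (p.1 i)| * |p.1 i|) * C := by ring
              _ ≤ 2 * C' * C := mul_le_mul_of_nonneg_right (hdt n _) hC0
          unfold ct
          rw [abs_mul]
          by_cases ha : i = a
          · have hb : i ≠ b := by rw [ha]; exact hab.ne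
            rw [if_pos ha, if_neg hb, one_mul, zero_mul, sub_zero]
            exact k4 b hb.symm
          · rw [if_neg ha, zero_mul, zero_sub, abs_neg]
            by_cases hb : i = b
            · rw [if_pos hb, one_mul]
              exact k4 a (Ne.symm ha)
            · rw [if_neg hb, zero_mul, abs_zero, mul_zero]
              positivity
        have k6 : (deriv (h n) (p.1 i) * ct i u a b p) ^ 2 ≤ (2 * C' * C) ^ 2 := by
          rw [← sq_abs]
          exact pow_le_pow_left₀ (abs_nonneg _) k3 2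
        have k7 : (h n (p.1 i) * cu u a b p) ^ 2 ≤ cu u a b p ^ 2 := by
          rw [mul_pow]
          nlinarith [sq_nonneg (cu u a b p)]
        nlinarith [sq_nonneg (h n (p.1 i) * cu u a b p - deriv (h n) (p.1 i) * ct i u a b p)]
      · positivity
    have k8 : ∑ a, pd (mt (fun p => h n (p.1 i)) u) (ez D) a p ^ 2 ≤
        ∑ a, pd u (ez D) a p ^ 2 := by
      refine Finset.sum_le_sum fun a _ => ?_
      rw [pd_mth (hs n) i hu, ez_k]
      have : h n (p.1 i) * pd u (ez D) a p + deriv (h n) (p.1 i) * 0 * u p a =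
          h n (p.1 i) * pd u (ez D) a p := by ring
      rw [this, mul_pow]
      nlinarith [sq_nonneg (pd u (ez D) a p)]
    have k9 : ∑ a, ∑ b, (if a < b then cu (mt (fun p => h n (p.1 i)) u) a b p ^ 2 else 0) ≤
        2 * ∑ a, ∑ b, (if a < b then cu u a b p ^ 2 else 0) +
          ∑ _a : Fin D, ∑ _b : Fin D, 2 * (2 * C' * C) ^ 2 := by
      rw [Finset.mul_sum, ← Finset.sum_add_distrib]
      refine Finset.sum_le_sum fun a _ => ?_
      rw [Finset.mul_sum, ← Finset.sum_add_distrib]
      exact Finset.sum_le_sum fun b _ => k2 a b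
    have k10 : 0 ≤ ∑ a, pd u (ez D) a p ^ 2 := Finset.sum_nonneg fun a _ => sq_nonneg _
    rw [dC_cu] at k1 ⊢
    linarith
  have hlim : Tendsto (fun n : ℕ => EC (mt (fun p => h n (p.1 i)) u)) atTop (𝓝 0) := by
    unfold EC
    have h0 : (0 : ℝ) = ∫ _p in Slb D, (0 : ℝ) := by simp
    rw [h0]
    refine tendsto_integral_of_dominated_convergence
      ((Metric.closedBall (0 : Pt D) R).indicator fun _ =>
        2 * K + ∑ _a : Fin D, ∑ _b : Fin D, 2 * (2 * C' * C) ^ 2) ?_ ?_ ?_ ?_
    · exact fun n => (dC_cc (tst n)).1.aestronglyMeasurable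
    · refine Integrable.integrableOn ?_
      rw [integrable_indicator_iff Metric.isClosed_closedBall.measurableSet]
      exact integrableOn_const (isCompact_closedBall _ _).measure_lt_top.ne
    · intro n
      refine Eventually.of_forall fun p => ?_
      by_cases hp : p ∈ Metric.closedBall (0 : Pt D) R
      · rw [indicator_of_mem hp, Real.norm_eq_abs]
        exact hbd n p
      · rw [indicator_of_notMem hp]
        have h1 : ∀ᶠ q in 𝓝 p, u q = 0 := by
          have h2 : ∀ᶠ q : Pt D in 𝓝 p, q ∉ Metric.closedBall (0 : Pt D) R :=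
            Metric.isClosed_closedBall.isOpen_compl.eventually_mem hp
          filter_upwards [h2] with q hq
          by_contra hne
          exact hq (mem_closedBall_zero_iff.2 (hus q hne))
        have h2 : u p = 0 := h1.self_of_nhds
        have h3 : fderiv ℝ u p = 0 := by
          have h4 : u =ᶠ[𝓝 p] fun _ => 0 := h1
          rw [h4.fderiv_eq]
          simp
        have h4 : ∀ e a, pd u e a p = 0 := fun e a => by
          unfold pd
          rw [h3]
          rfl
        have h5 : ∀ e a, pd (mt (fun p => h n (p.1 i)) u) e a p = 0 := fun e a => by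
          rw [pd_mth (hs n) i hu, h4, h2]
          simp
        have h6 : dC (mt (fun p => h n (p.1 i)) u) p = 0 := by
          unfold dC
          simp only [h5]
          simp
        rw [h6, norm_zero]
    · have hnull : ∀ᵐ p : Pt D, p.1 i ≠ 0 := by
        rw [ae_iff]
        simp only [not_not]
        have e1 : {p : Pt D | p.1 i = 0} = {y : Fin D → ℝ | y i = 0} ×ˢ (univ : Set ℝ) := by
          ext p
          simp
        have e2 : volume {y : Fin D → ℝ | y i = 0} = 0 := by
          have e3 : {y : Fin D → ℝ | y i = 0} = Function.eval i ⁻¹' {0} := rfl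
          rw [e3]
          exact Measure.pi_hyperplane (fun _ : Fin D => (volume : Measure ℝ)) i 0
        rw [e1, Measure.volume_eq_prod, Measure.prod_prod, e2, zero_mul]
      filter_upwards [ae_restrict_of_ae hnull] with p hp
      have hp' : 0 < |p.1 i| := abs_pos.2 hp
      obtain ⟨N, hN⟩ := exists_nat_gt (2 / |p.1 i|)
      refine tendsto_const_nhds.congr' ?_
      filter_upwards [eventually_ge_atTop N] with n hn'
      have h1 : 2 < ((n : ℝ) + 1) * |p.1 i| := by
        rw [div_lt_iff₀ hp'] at hN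
        have : (N : ℝ) ≤ n := by exact_mod_cast hn'
        nlinarith
      obtain ⟨h2, h3⟩ := hzero n _ h1
      have h5 : ∀ e a, pd (mt (fun p => h n (p.1 i)) u) e a p = 0 := fun e a => by
        rw [pd_mth (hs n) i hu, h2, h3]
        simp
      unfold dC
      simp only [h5]
      simp
  obtain ⟨n, hn'⟩ := (hlim.eventually_lt_const hε).exists
  refine ⟨mt (fun p => 1 - h n (p.1 i)) u, mt_test (contDiff_const.sub (coord_smooth (hs n) i)) hu,
    ⟨1 / ((n : ℝ) + 1), by positivity, fun p hp => ?_⟩, ?_⟩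
  · have h1 : h n (p.1 i) = 1 := by
      rw [hh]
      refine ψ.one_of_mem_closedBall ?_
      rw [hψ.1, mem_closedBall_zero_iff, Real.norm_eq_abs, abs_mul, abs_of_pos (hn n)]
      rw [lt_div_iff₀ (hn n)] at hp
      linarith
    unfold mt
    simp only [h1]
    funext a
    simp
  · have e1 : u - mt (fun p => 1 - h n (p.1 i)) u = mt (fun p => h n (p.1 i)) u := by
      funext p a
      simp only [Pi.sub_apply, mt]
      ring
    rw [e1]
    exact hn'

end

end Pool.Agent.N839.C
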