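import Pool.Agent.N839.C.Restr

/-!
# The Poincaré inequality in the slab; the variance functional is finite
-/

set_option autoImplicit false
set_option linter.unusedSectionVars false

open MeasureTheory Set Filter Topology
open scoped Classical

namespace Pool.Agent.N839.C

open Pool.Agent.N990 Pool.Agent.N990.C

noncomputable section

variable {D : ℕ}

/-- continuous functions with compact support -/
def Cc (g : Pt D → ℝ) : Prop := Continuous g ∧ HasCompactSupport g

lemma Cc.int {g : Pt D → ℝ} (h : Cc g) : Integrable g volume :=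
  h.1.integrable_of_hasCompactSupport h.2

lemma Cc.mul {g h : Pt D → ℝ} (hg : Cc g) (hh : Continuous h) : Cc fun p => g p * h p :=
  ⟨hg.1.mul hh, hg.2.mul_right⟩

lemma Cc.sq {g : Pt D → ℝ} (hg : Cc g) : Cc fun p => g p ^ 2 := by
  have := hg.mul hg.1
  simpa only [← pow_two] using this

lemma Cc.add {g h : Pt D → ℝ} (hg : Cc g) (hh : Cc h) : Cc fun p => g p + h p :=
  ⟨hg.1.add hh.1, hg.2.add hh.2⟩

lemma Cc.neg {g : Pt D → ℝ} (hg : Cc g) : Cc fun p => -g p :=
  ⟨hg.1.neg, hg.2.neg⟩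

lemma Cc.sub {g h : Pt D → ℝ} (hg : Cc g) (hh : Cc h) : Cc fun p => g p - h p := by
  have := hg.add hh.neg
  simpa only [← sub_eq_add_neg] using this

lemma Cc.zero : Cc (D := D) fun _ => (0 : ℝ) :=
  ⟨continuous_const, HasCompactSupport.zero⟩

lemma Cc.sum {ι : Type*} (s : Finset ι) {g : ι → Pt D → ℝ} (h : ∀ i ∈ s, Cc (g i)) :
    Cc fun p => ∑ i ∈ s, g i p := by
  induction s using Finset.induction_on with
  | empty => simpa using Cc.zero
  | insert a s ha ih =>
    have h1 := (h a (Finset.mem_insert_self _ _)).add (ih fun i hi =>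
      h i (Finset.mem_insert_of_mem hi))
    simpa only [Finset.sum_insert ha] using h1

lemma u_cc {u : Pt D → Fin D → ℝ} (hu : IsTest u) (i : Fin D) : Cc fun p => u p i := by
  refine ⟨(continuous_apply i).comp hu.smooth.continuous, hu.supp.mono fun p hp => ?_⟩
  rw [Function.mem_support] at hp ⊢
  intro h
  apply hp
  rw [h]
  rfl

lemma pd_cc {u : Pt D → Fin D → ℝ} (hu : IsTest u) (e : Pt D) (i : Fin D) : Cc (pd u e i) := by
  constructor
  · unfold pd
    exact (continuous_apply i).comp ((hu.smooth.continuous_fderiv (by norm_num)).clm_apply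
      continuous_const)
  · refine (hu.supp.fderiv (𝕜 := ℝ)).mono fun p hp => ?_
    rw [Function.mem_support] at hp ⊢
    intro h
    apply hp
    unfold pd
    rw [h]
    rfl

lemma dC_cc {u : Pt D → Fin D → ℝ} (hu : IsTest u) : Cc (dC u) := by
  unfold dC
  refine Cc.add (Cc.sum _ fun i _ => (pd_cc hu _ i).sq) (Cc.sum _ fun i _ => Cc.sum _ fun j _ => ?_)
  split_ifs
  · exact ((pd_cc hu _ j).sub (pd_cc hu _ i)).sq
  · exact Cc.zero

/-- one dimensional Poincaré inequality -/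
lemma poinc1 {φ φ' : ℝ → ℝ} (h : ∀ z, HasDerivAt φ (φ' z) z) (hc : Continuous φ') (h0 : φ 0 = 0) :
    ∫ z in Icc (0 : ℝ) 1, φ z ^ 2 ≤ ∫ z in Icc (0 : ℝ) 1, φ' z ^ 2 := by
  have hφ : Continuous φ := continuous_iff_continuousAt.2 fun z => (h z).continuousAt
  have key : ∀ z ∈ Icc (0 : ℝ) 1, φ z ^ 2 ≤ ∫ t in Icc (0 : ℝ) 1, φ' t ^ 2 := by
    intro z hz
    have e1 : ∫ t in (0 : ℝ)..z, φ' t = φ z := by
      rw [intervalIntegral.integral_eq_sub_of_hasDerivAt (fun t _ => h t)
        (hc.intervalIntegrable _ _), h0, sub_zero]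
    have e2 : 0 ≤ ∫ t in (0 : ℝ)..z, (φ' t - φ z) ^ 2 :=
      intervalIntegral.integral_nonneg hz.1 fun t _ => sq_nonneg _
    have e3 : ∫ t in (0 : ℝ)..z, (φ' t - φ z) ^ 2 =
        (∫ t in (0 : ℝ)..z, φ' t ^ 2) - 2 * φ z * φ z + φ z ^ 2 * z := by
      have i1 : IntervalIntegrable (fun t => φ' t ^ 2) volume 0 z :=
        (hc.pow 2).intervalIntegrable _ _
      have i2 : IntervalIntegrable (fun t => 2 * φ z * φ' t) volume 0 z :=
        (hc.const_mul _).intervalIntegrable _ _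
      have i3 : IntervalIntegrable (fun _ : ℝ => φ z ^ 2) volume 0 z :=
        continuous_const.intervalIntegrable _ _
      have e4 : (fun t => (φ' t - φ z) ^ 2) =
          fun t => (φ' t ^ 2 - 2 * φ z * φ' t) + φ z ^ 2 := by
        funext t
        ring
      rw [e4, intervalIntegral.integral_add (i1.sub i2) i3, intervalIntegral.integral_sub i1 i2,
        intervalIntegral.integral_const_mul, e1, intervalIntegral.integral_const, smul_eq_mul]
      ring
    have e5 : ∫ t in (0 : ℝ)..z, φ' t ^ 2 ≤ ∫ t in Icc (0 : ℝ) 1, φ' t ^ 2 := by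
      rw [intervalIntegral.integral_of_le hz.1, integral_Icc_eq_integral_Ioc]
      refine setIntegral_mono_set ((hc.pow 2).integrableOn_Icc.mono_set Ioc_subset_Icc_self)
        (Eventually.of_forall fun t => sq_nonneg _) ?_
      exact (Ioc_subset_Ioc_right hz.2).eventuallyLE
    have hz1 := hz.2
    nlinarith [sq_nonneg (φ z)]
  have h1 := setIntegral_mono_on (μ := (volume : Measure ℝ)) (hφ.pow 2).integrableOn_Icc
    (continuous_const (y := ∫ t in Icc (0 : ℝ) 1, φ' t ^ 2)).integrableOn_Icc measurableSet_Icc key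
  refine h1.trans (le_of_eq ?_)
  rw [setIntegral_const]
  simp

lemma slb_prod : (Slb D : Set (Pt D)) = univ ×ˢ Icc (0 : ℝ) 1 := by
  ext p
  unfold Slb
  simp

lemma int_slb {g : Pt D → ℝ} (hg : Cc g) :
    ∫ p in Slb D, g p = ∫ y : Fin D → ℝ, ∫ z in Icc (0 : ℝ) 1, g (y, z) := by
  have h1 : IntegrableOn g (univ ×ˢ Icc (0 : ℝ) 1)
      ((volume : Measure (Fin D → ℝ)).prod volume) := by
    have := hg.int.integrableOn (s := (univ ×ˢ Icc (0 : ℝ) 1 : Set (Pt D)))
    rwa [Measure.volume_eq_prod] at this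
  rw [slb_prod, Measure.volume_eq_prod, setIntegral_prod _ h1, Measure.restrict_univ]

/-- **The Poincaré inequality.** -/
theorem poinc {u : Pt D → Fin D → ℝ} (hu : IsTest u) (i : Fin D) :
    ∫ p in Slb D, u p i ^ 2 ≤ ∫ p in Slb D, pd u (ez D) i p ^ 2 := by
  have c1 := (u_cc hu i).sq
  have c2 := (pd_cc hu (ez D) i).sq
  rw [int_slb c1, int_slb c2]
  have m1 : Integrable fun y : Fin D → ℝ => ∫ z in Icc (0 : ℝ) 1, u (y, z) i ^ 2 := by
    have h1 := (c1.int.integrableOn (s := (univ ×ˢ Icc (0 : ℝ) 1 : Set (Pt D))))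
    unfold IntegrableOn at h1
    rw [Measure.volume_eq_prod, ← Measure.prod_restrict, Measure.restrict_univ] at h1
    exact h1.integral_prod_left
  have m2 : Integrable fun y : Fin D → ℝ =>
      ∫ z in Icc (0 : ℝ) 1, pd u (ez D) i (y, z) ^ 2 := by
    have h1 := (c2.int.integrableOn (s := (univ ×ˢ Icc (0 : ℝ) 1 : Set (Pt D))))
    unfold IntegrableOn at h1
    rw [Measure.volume_eq_prod, ← Measure.prod_restrict, Measure.restrict_univ] at h1
    exact h1.integral_prod_left
  refine integral_mono m1 m2 fun y => ?_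
  refine poinc1 (φ := fun z => u (y, z) i) (φ' := fun z => pd u (ez D) i (y, z)) ?_ ?_ ?_
  · intro z
    have h1 : HasFDerivAt u (fderiv ℝ u (y, z)) (y, z) :=
      (hu.smooth.differentiable (by norm_num) (y, z)).hasFDerivAt
    have h2 : HasDerivAt (fun t : ℝ => ((y, t) : Pt D)) (ez D) z := by
      have h3 : HasDerivAt (fun t : ℝ => ((y, t) : Pt D)) ((0 : Fin D → ℝ), (1 : ℝ)) z :=
        (hasDerivAt_const z y).prodMk (hasDerivAt_id z)
      exact h3
    have h3 := h1.comp_hasDerivAt z h2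
    have h4 := (hasDerivAt_pi.1 h3) i
    exact h4
  · exact (pd_cc hu (ez D) i).1.comp (continuous_const.prodMk continuous_id)
  · show u (y, 0) i = 0
    rw [hu.wall y]
    rfl

/-- the vertical part of the energy -/
lemma EC_vert {u : Pt D → Fin D → ℝ} (hu : IsTest u) :
    ∑ i, ∫ p in Slb D, pd u (ez D) i p ^ 2 ≤ EC u := by
  unfold EC
  rw [← integral_finsetSum _ fun i _ => (pd_cc hu (ez D) i).sq.int.integrableOn]
  refine integral_mono (Cc.sum _ fun i _ => (pd_cc hu (ez D) i).sq).int.integrableOn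
    (dC_cc hu).int.integrableOn fun p => ?_
  unfold dC
  have : 0 ≤ ∑ i, ∑ j, if i < j then (pd u (eh i) j p - pd u (eh j) i p) ^ 2 else 0 :=
    Finset.sum_nonneg fun i _ => Finset.sum_nonneg fun j _ => by
      split_ifs
      · exact sq_nonneg _
      · exact le_rfl
  simp only
  linarith

lemma EC_nonneg (u : Pt D → Fin D → ℝ) : 0 ≤ EC u := by
  unfold EC
  refine integral_nonneg fun p => ?_
  unfold dC
  refine add_nonneg (Finset.sum_nonneg fun i _ => sq_nonneg _)
    (Finset.sum_nonneg fun i _ => Finset.sum_nonneg fun j _ => ?_)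
  split_ifs
  · exact sq_nonneg _
  · exact le_rfl

/-- the functional is bounded -/
theorem JC_le {f u : Pt D → Fin D → ℝ} (hf : ∀ i, Cc fun p => f p i) (hu : IsTest u) :
    JC f u - EC u ≤ ∑ i, ∫ p in Slb D, f p i ^ 2 := by
  have h1 : JC f u = ∑ i, 2 * ∫ p in Slb D, f p i * u p i := by
    unfold JC
    rw [integral_finsetSum _ fun i _ => ((hf i).mul (u_cc hu i).1).int.integrableOn,
      Finset.mul_sum]
  have h2 : ∀ i, 2 * ∫ p in Slb D, f p i * u p i ≤
      (∫ p in Slb D, f p i ^ 2) + ∫ p in Slb D, u p i ^ 2 := by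
    intro i
    rw [← integral_const_mul, ← integral_add (hf i).sq.int.integrableOn
      (u_cc hu i).sq.int.integrableOn]
    refine integral_mono (((hf i).mul (u_cc hu i).1).int.integrableOn.const_mul 2)
      ((hf i).sq.add (u_cc hu i).sq).int.integrableOn fun p => ?_
    simp only
    nlinarith [sq_nonneg (f p i - u p i)]
  have h3 := EC_vert hu
  have h4 : JC f u ≤ ∑ i, ((∫ p in Slb D, f p i ^ 2) + ∫ p in Slb D, pd u (ez D) i p ^ 2) := by
    rw [h1]
    exact Finset.sum_le_sum fun i _ => (h2 i).trans (by linarith [poinc hu i])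
  rw [Finset.sum_add_distrib] at h4
  linarith

lemma isTest_zero : IsTest (D := D) fun _ _ => 0 :=
  ⟨contDiff_const, HasCompactSupport.zero, fun _ => rfl⟩

/-- the set of the values -/
def valS (f : Pt D → Fin D → ℝ) : Set ℝ := {t | ∃ u, IsTest u ∧ t = JC f u - EC u}

theorem valS_bdd {f : Pt D → Fin D → ℝ} (hf : ∀ i, Cc fun p => f p i) : BddAbove (valS f) := by
  refine ⟨∑ i, ∫ p in Slb D, f p i ^ 2, ?_⟩
  rintro t ⟨u, hu, rfl⟩
  exact JC_le hf hu

lemma valS_zero (f : Pt D → Fin D → ℝ) : (0 : ℝ) ∈ valS f := by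
  refine ⟨fun _ _ => 0, isTest_zero, ?_⟩
  unfold JC EC dC pd
  simp

lemma le_QC {f u : Pt D → Fin D → ℝ} (hf : ∀ i, Cc fun p => f p i) (hu : IsTest u) :
    JC f u - EC u ≤ QC f := le_csSup (valS_bdd hf) ⟨u, hu, rfl⟩

lemma QC_nonneg {f : Pt D → Fin D → ℝ} (hf : ∀ i, Cc fun p => f p i) : 0 ≤ QC f :=
  le_csSup (valS_bdd hf) (valS_zero f)

theorem QC_le {f : Pt D → Fin D → ℝ} (hf : ∀ i, Cc fun p => f p i) :
    QC f ≤ ∑ i, ∫ p in Slb D, f p i ^ 2 := by
  refine csSup_le ⟨0, valS_zero f⟩ ?_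
  rintro t ⟨u, hu, rfl⟩
  exact JC_le hf hu

/-- approximate maximisers -/
lemma QC_approx {f : Pt D → Fin D → ℝ} {ε : ℝ} (hε : 0 < ε) :
    ∃ u, IsTest u ∧ QC f - ε < JC f u - EC u := by
  obtain ⟨t, ⟨u, hu, rfl⟩, ht⟩ := exists_lt_of_lt_csSup (s := valS f) ⟨0, valS_zero f⟩
    (show QC f - ε < sSup (valS f) by
      have : sSup (valS f) = QC f := rfl
      rw [this]; linarith)
  exact ⟨u, hu, ht⟩

/-- **Lower bound**: for every `ε` there are fields on all fine lattices, with support in the boxes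
of radius `R L`, whose value is at least `QC f - ε`. -/
theorem lower {f : Pt D → Fin D → ℝ} (hf : Continuous f) {ε : ℝ} (hε : 0 < ε) :
    ∃ R : ℕ, ∀ᶠ L : ℕ in atTop, ∃ v : Site D → Lab D L → ℝ,
      (∀ x ∉ Finset.Icc (fun _ : Fin D => -((R * L : ℕ) : ℤ)) (fun _ => ((R * L : ℕ) : ℤ)),
        v x = 0) ∧ QC f - ε ≤ JL f v - EL v := by
  obtain ⟨u, hu, h1⟩ := QC_approx (f := f) (half_pos hε)
  obtain ⟨R, hR⟩ := rs_supp hu
  refine ⟨R, ?_⟩
  have h2 := (JL_rs hf hu).sub (EL_rs hu)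
  have h3 : ∀ᶠ L : ℕ in atTop, QC f - ε < JL f (rs L u) - EL (rs L u) := by
    refine h2.eventually_const_lt ?_
    linarith
  filter_upwards [h3, eventually_ge_atTop 1] with L hL hL1
  exact ⟨rs L u, hR L hL1, hL.le⟩

end

end Pool.Agent.N839.C
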