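import Pool.Agent.N839.C.Wg

/-!
# The mass gap of the free field in the slab

Exponential decay of correlations, with every rate below `π / 2`, in the uniform form.
-/

set_option autoImplicit false
set_option linter.unusedSectionVars false

open MeasureTheory Set Filter Topology
open scoped Classical

namespace Pool.Agent.N839.C

open Pool.Agent.N990 Pool.Agent.N990.C

noncomputable section

variable {D : ℕ}

/-- Cauchy-Schwarz from the supremum -/
lemma PR_QC {f : Pt D → Fin D → ℝ} (hf : CcF f) {w : Pt D → Fin D → ℝ} (hw : IsTest w) :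
    |PR f w| ≤ Real.sqrt (QC f) * Real.sqrt (EC w) := by
  have h := cs_of (a := QC f) (b := -PR f w) (QC_nonneg hf) (EC_nonneg w) fun t => by
    have hz : IsTest (D := D) fun _ _ => 0 := isTest_zero
    have h1 := le_QC hf (lc_test hz hw t)
    rw [JC_PR, PR_lc hf (CcF.test hz) (CcF.test hw), EC_lc hz hw] at h1
    have e1 : PR f (fun _ _ => 0) = 0 := by
      unfold PR
      simp
    have e2 : EC (D := D) (fun _ _ => 0) = 0 := by
      unfold EC dC pd
      simp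
    have e3 : BC (fun _ _ => 0) w = 0 := by
      unfold BC dB cu pd
      simp
    rw [e1, e2, e3] at h1
    nlinarith
  rwa [abs_neg] at h

/-- the energy of an almost maximiser, sharp form -/
lemma NM.energy' {f u : Pt D → Fin D → ℝ} (hf : CcF f) {s : ℝ} (hs : 0 ≤ s) (h : NM f s u) :
    Real.sqrt (EC u) ≤ Real.sqrt (QC f) + s := by
  have h1 := h.2
  rw [JC_PR] at h1
  have h2 := (abs_le.1 (PR_QC hf h.1)).2
  have h3 : Real.sqrt (EC u) ^ 2 = EC u := Real.sq_sqrt (EC_nonneg u)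
  have h4 : Real.sqrt (QC f) ^ 2 = QC f := Real.sq_sqrt (QC_nonneg hf)
  have h5 : (Real.sqrt (EC u) - Real.sqrt (QC f)) ^ 2 ≤ s ^ 2 := by nlinarith
  have h6 := abs_le_of_sq_le_sq h5 hs
  linarith [(abs_le.1 h6).2]

lemma lim_s {A B : ℝ} {F : ℝ → ℝ} (hF : Continuous F) (hA : ∀ s, 0 < s → s ≤ 1 → A ≤ F s)
    (hB : F 0 ≤ B) : A ≤ B := by
  have h1 : Tendsto F (𝓝[>] 0) (𝓝 (F 0)) := (hF.tendsto 0).mono_left nhdsWithin_le_nhds
  exact (ge_of_tendsto h1 (Filter.mem_of_superset (Ioc_mem_nhdsGT one_pos)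
    fun s hs => hA s hs.1 hs.2)).trans hB

/-- the general estimate, for a weight -/
theorem rate_w {f g : Pt D → Fin D → ℝ} (hf : CcF f) (hg : CcF g) {m κ : ℝ} (hm : 0 < m)
    (hmκ : m < κ) (hκ : κ < Real.pi / 2) {d : Pt D → Fin D → ℝ} {W : Pt D → ℝ} {M c : ℝ}
    (hW : IsG m d W) (hWM : ∀ p, W p ≤ M) (hWf : ∀ p, f p ≠ 0 → W p = 1) (hc : 0 < c)
    (hWg : ∀ p, g p ≠ 0 → W p = c) :
    |QC (fun p i => f p i + g p i) - QC f - QC g| ≤
      2 * (c⁻¹ * (Real.sqrt (QC g) * Real.sqrt (QC f / (1 - m ^ 2 / κ ^ 2)))) := by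
  have hκ0 : 0 < κ := hm.trans hmκ
  obtain ⟨c₀, hc₀⟩ : ∃ c₀, c₀ = 1 - m ^ 2 / κ ^ 2 := ⟨_, rfl⟩
  have hc0 : 0 < c₀ := by
    rw [hc₀, sub_pos, div_lt_one (by positivity)]
    exact pow_lt_pow_left₀ hmκ hm.le (by norm_num)
  rw [← hc₀]
  obtain ⟨a, ha⟩ : ∃ a, a = Real.sqrt (QC f) := ⟨_, rfl⟩
  obtain ⟨a', ha'⟩ : ∃ a', a' = Real.sqrt (QC g) := ⟨_, rfl⟩
  have ha0 : 0 ≤ a := ha ▸ Real.sqrt_nonneg _
  have ha'0 : 0 ≤ a' := ha' ▸ Real.sqrt_nonneg _
  have hasq : a ^ 2 = QC f := by rw [ha, Real.sq_sqrt (QC_nonneg hf)]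
  obtain ⟨E₀, hE₀⟩ : ∃ E₀, E₀ = a + a' + 1 := ⟨_, rfl⟩
  have hE₀0 : 0 ≤ E₀ := by rw [hE₀]; positivity
  obtain ⟨b, hb⟩ : ∃ b, b = Real.sqrt ((M ^ 2) ^ 2 * ((2 + 2 * (2 * m) ^ 2) * E₀ ^ 2)) := ⟨_, rfl⟩
  refine lim_s (F := fun s => 2 * (c⁻¹ * (a' * Real.sqrt ((a * (a + s) + s * b) / c₀))) +
    s * (14 * E₀ + 4)) (by fun_prop) (fun s hs hs1 => ?_) ?_
  · obtain ⟨u, hu⟩ := NM_exists f hs
    obtain ⟨u', hu'⟩ := NM_exists g hs
    have e0 : Real.sqrt (EC u) ≤ a + s := by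
      rw [ha]
      exact hu.energy' hf hs.le
    have e1 : Real.sqrt (EC u) ≤ E₀ := e0.trans (by rw [hE₀]; linarith)
    have e2 : Real.sqrt (EC u') ≤ E₀ := by
      refine (hu'.energy' hg hs.le).trans ?_
      rw [hE₀, ← ha']
      linarith
    refine (QC_pol hf hg hs.le hs1 hu hu' hE₀0 e1 e2).trans ?_
    obtain ⟨X, hX⟩ : ∃ X, X = Real.sqrt (EC (mt W u)) := ⟨_, rfl⟩
    have hX0 : 0 ≤ X := by rw [hX]; exact Real.sqrt_nonneg _
    have hX2 : X ^ 2 = EC (mt W u) := by rw [hX, Real.sq_sqrt (EC_nonneg _)]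
    have t1 := mt_test hW.smooth hu.1
    have t2 := mt_test hW.sq.smooth hu.1
    have w1 := EC_mtG hκ0 hκ hW hu.1
    rw [← hX2, ← hc₀] at w1
    have w2 := hu.euler hf hs.le t2
    have w3 : PR f (mt (fun p => W p ^ 2) u) = PR f u := by
      unfold PR mt
      refine integral_congr_ae (Eventually.of_forall fun p => ?_)
      simp only
      by_cases hp : f p = 0
      · rw [hp]
        simp
      · rw [hWf p hp]
        simp
    have w3' : PR f u ≤ a * (a + s) := by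
      refine ((le_abs_self _).trans (PR_QC hf hu.1)).trans ?_
      rw [← ha]
      exact mul_le_mul_of_nonneg_left e0 ha0
    have w4 : Real.sqrt (EC (mt (fun p => W p ^ 2) u)) ≤ b := by
      rw [hb]
      refine Real.sqrt_le_sqrt ?_
      have hM2 : ∀ p, W p ^ 2 ≤ M ^ 2 := fun p => pow_le_pow_left₀ (hW.pos p).le (hWM p) 2
      refine (EC_mtG_le hW.sq hM2 hu.1).trans ?_
      have : EC u ≤ E₀ ^ 2 := by
        have h6 : Real.sqrt (EC u) ^ 2 = EC u := Real.sq_sqrt (EC_nonneg u)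
        rw [← h6]
        exact pow_le_pow_left₀ (Real.sqrt_nonneg _) e1 2
      gcongr
    have w5 : X ≤ Real.sqrt ((a * (a + s) + s * b) / c₀) := by
      refine Real.le_sqrt_of_sq_le ?_
      rw [le_div_iff₀ hc0]
      have h6 := (abs_le.1 w2).1
      rw [w3] at h6
      have h8 := mul_le_mul_of_nonneg_left w4 hs.le
      linarith
    have w6 : PR g (mt W u) = c * PR g u := by
      unfold PR mt
      rw [← integral_const_mul]
      refine integral_congr_ae (Eventually.of_forall fun p => ?_)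
      simp only
      by_cases hp : g p = 0
      · rw [hp]
        simp
      · rw [hWg p hp, Finset.mul_sum]
        exact Finset.sum_congr rfl fun i _ => by ring
    have w7 : |PR g u| ≤ c⁻¹ * (a' * Real.sqrt ((a * (a + s) + s * b) / c₀)) := by
      have h6 : PR g u = c⁻¹ * PR g (mt W u) := by
        rw [w6]
        field_simp
      rw [h6, abs_mul, abs_of_pos (inv_pos.2 hc)]
      refine mul_le_mul_of_nonneg_left ?_ (inv_nonneg.2 hc.le)
      refine (PR_QC hg t1).trans ?_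
      rw [← ha', ← hX]
      exact mul_le_mul_of_nonneg_left w5 ha'0
    linarith
  · rw [add_zero, zero_mul, add_zero, zero_mul, add_zero, ← pow_two, hasq, ← ha']

/-- the trivial weight -/
theorem rate_0 {f g : Pt D → Fin D → ℝ} (hf : CcF f) (hg : CcF g) :
    |QC (fun p i => f p i + g p i) - QC f - QC g| ≤
      2 * (Real.sqrt (QC g) * Real.sqrt (QC f)) := by
  obtain ⟨a, ha⟩ : ∃ a, a = Real.sqrt (QC f) := ⟨_, rfl⟩
  obtain ⟨a', ha'⟩ : ∃ a', a' = Real.sqrt (QC g) := ⟨_, rfl⟩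
  have ha0 : 0 ≤ a := ha ▸ Real.sqrt_nonneg _
  have ha'0 : 0 ≤ a' := ha' ▸ Real.sqrt_nonneg _
  refine lim_s (F := fun s => 2 * (a' * (a + s)) + s * (14 * (a + a' + 1) + 4)) (by fun_prop)
    (fun s hs hs1 => ?_) ?_
  · obtain ⟨u, hu⟩ := NM_exists f hs
    obtain ⟨u', hu'⟩ := NM_exists g hs
    have e0 : Real.sqrt (EC u) ≤ a + s := by
      rw [ha]
      exact hu.energy' hf hs.le
    have e1 : Real.sqrt (EC u) ≤ a + a' + 1 := e0.trans (by linarith)
    have e2 : Real.sqrt (EC u') ≤ a + a' + 1 := by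
      refine (hu'.energy' hg hs.le).trans ?_
      rw [← ha']
      linarith
    refine (QC_pol hf hg hs.le hs1 hu hu' (by positivity) e1 e2).trans ?_
    have w7 : |PR g u| ≤ a' * (a + s) := by
      refine (PR_QC hg hu.1).trans ?_
      rw [← ha']
      exact mul_le_mul_of_nonneg_left e0 ha'0
    linarith
  · rw [add_zero, zero_mul, add_zero, ha, ha']

/-- **The mass gap of the limit.**  Correlations decay exponentially with the horizontal distance
of the supports, with every rate `m < π / 2`. -/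
theorem QC_rate {m : ℝ} (hm : m < Real.pi / 2) : ∃ C : ℝ,
    ∀ (f g : Pt D → Fin D → ℝ) (R : ℝ), Continuous f → Continuous g → HasCompactSupport f →
      HasCompactSupport g → 0 ≤ R → (∀ p q, f p ≠ 0 → g q ≠ 0 → R ≤ dist p.1 q.1) →
        |QC (f + g) - QC f - QC g| ≤
          C * Real.exp (-(m * R)) * Real.sqrt (QC f * QC g) := by
  obtain ⟨m', hm', hm'0, hmm'⟩ : ∃ m' : ℝ, m' < Real.pi / 2 ∧ 0 < m' ∧ m ≤ m' :=
    ⟨max m 1, max_lt hm (by linarith [Real.pi_gt_three]), lt_max_of_lt_right one_pos,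
      le_max_left _ _⟩
  obtain ⟨κ, hκ1, hκ2⟩ := exists_between hm'
  have hκ0 : 0 < κ := hm'0.trans hκ1
  obtain ⟨c₀, hc₀⟩ : ∃ c₀, c₀ = 1 - m' ^ 2 / κ ^ 2 := ⟨_, rfl⟩
  have hc0 : 0 < c₀ := by
    rw [hc₀, sub_pos, div_lt_one (by positivity)]
    exact pow_lt_pow_left₀ hκ1 hm'0.le (by norm_num)
  have hc1 : c₀ ≤ 1 := by
    rw [hc₀]
    have : 0 ≤ m' ^ 2 / κ ^ 2 := by positivity
    linarith
  have hsq1 : 1 ≤ 1 / Real.sqrt c₀ := by
    rw [le_div_iff₀ (Real.sqrt_pos.2 hc0), one_mul]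
    exact Real.sqrt_le_one.2 hc1
  obtain ⟨K, hK⟩ : ∃ K, K = 2 * Real.exp (m' * (1 / 2)) * (1 / Real.sqrt c₀) := ⟨_, rfl⟩
  refine ⟨K, fun f g R hf hg hfs hgs hR hd => ?_⟩
  have hfc := CcF.of hf hfs
  have hgc := CcF.of hg hgs
  have e0 : QC (f + g) = QC (fun p i => f p i + g p i) := rfl
  rw [e0, Real.sqrt_mul (QC_nonneg hfc)]
  obtain ⟨a, ha⟩ : ∃ a, a = Real.sqrt (QC f) := ⟨_, rfl⟩
  obtain ⟨a', ha'⟩ : ∃ a', a' = Real.sqrt (QC g) := ⟨_, rfl⟩
  have ha0 : 0 ≤ a := ha ▸ Real.sqrt_nonneg _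
  have ha'0 : 0 ≤ a' := ha' ▸ Real.sqrt_nonneg _
  have hfin : Real.exp (-(m' * R)) ≤ Real.exp (-(m * R)) :=
    Real.exp_le_exp.2 (neg_le_neg (mul_le_mul_of_nonneg_right hmm' hR))
  have hK0 : 0 ≤ K := by rw [hK]; positivity
  suffices h : |QC (fun p i => f p i + g p i) - QC f - QC g| ≤
      K * Real.exp (-(m' * R)) * (a * a') by
    refine h.trans ?_
    rw [← ha, ← ha']
    exact mul_le_mul_of_nonneg_right (mul_le_mul_of_nonneg_left hfin hK0) (mul_nonneg ha0 ha'0)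
  by_cases hf0 : ∃ p, f p ≠ 0
  · rcases le_total R (1 / 2) with hR2 | hR2
    · refine (rate_0 hfc hgc).trans ?_
      rw [← ha, ← ha']
      have h1 : 1 ≤ Real.exp (m' * (1 / 2)) * Real.exp (-(m' * R)) := by
        rw [← Real.exp_add]
        refine Real.one_le_exp ?_
        nlinarith
      have h2 : 2 ≤ K * Real.exp (-(m' * R)) := by
        rw [hK]
        have h3 : 1 * 1 ≤ Real.exp (m' * (1 / 2)) * Real.exp (-(m' * R)) * (1 / Real.sqrt c₀) :=
          mul_le_mul h1 hsq1 zero_le_one (by positivity)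
        linarith
      calc 2 * (a' * a) = 2 * (a * a') := by ring
        _ ≤ K * Real.exp (-(m' * R)) * (a * a') :=
            mul_le_mul_of_nonneg_right h2 (mul_nonneg ha0 ha'0)
    · obtain ⟨d, W, M, c, hW, hWM, hWf, hcc, hWg⟩ := weight_exists hm'0.le hR2 hf0 hd
      have hcp : 0 < c := (Real.exp_pos _).trans_le hcc
      refine (rate_w hfc hgc hm'0 hκ1 hκ2 hW hWM hWf hcp hWg).trans ?_
      rw [← hc₀, Real.sqrt_div (QC_nonneg hfc), ← ha, ← ha']
      have h1 : c⁻¹ ≤ Real.exp (m' * (1 / 2)) * Real.exp (-(m' * R)) := by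
        rw [← Real.exp_add]
        have h2 : c⁻¹ ≤ (Real.exp (m' * (R - 1 / 2)))⁻¹ := inv_anti₀ (Real.exp_pos _) hcc
        refine h2.trans (le_of_eq ?_)
        rw [← Real.exp_neg]
        congr 1
        ring
      have h3 : 0 ≤ a' * (a / Real.sqrt c₀) := by positivity
      calc 2 * (c⁻¹ * (a' * (a / Real.sqrt c₀))) ≤
          2 * (Real.exp (m' * (1 / 2)) * Real.exp (-(m' * R)) * (a' * (a / Real.sqrt c₀))) :=
            mul_le_mul_of_nonneg_left (mul_le_mul_of_nonneg_right h1 h3) (by norm_num)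
        _ = K * Real.exp (-(m' * R)) * (a * a') := by
            rw [hK]
            ring
  · push Not at hf0
    have e1 : (fun p i => f p i + g p i) = g := by
      funext p i
      rw [hf0 p]
      simp
    have e2 : QC f = 0 := by
      refine le_antisymm ?_ (QC_nonneg hfc)
      refine csSup_le ⟨0, valS_zero f⟩ ?_
      rintro t ⟨u, hu, rfl⟩
      have : JC f u = 0 := by
        unfold JC
        simp [hf0]
      rw [this]
      have := EC_nonneg u
      linarith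
    rw [e1, e2]
    simp only [sub_zero, sub_self, abs_zero]
    positivity

end

end Pool.Agent.N839.C
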