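import Pool.Agent.N839.C.Decay

/-!
# General horizontal weights
-/

set_option autoImplicit false
set_option linter.unusedSectionVars false

open MeasureTheory Set Filter Topology
open scoped Classical

namespace Pool.Agent.N839.C

open Pool.Agent.N990 Pool.Agent.N990.C

noncomputable section

variable {D : ℕ}

/-- a horizontal weight, the Euclidean length of the gradient of its logarithm is at most `m` -/
structure IsG (m : ℝ) (d : Pt D → Fin D → ℝ) (W : Pt D → ℝ) : Prop where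
  smooth : ContDiff ℝ 1 W
  pos : ∀ p, 0 < W p
  dle : ∀ p, ∑ k, d p k ^ 2 ≤ 1
  der : ∀ p (e : Pt D), fderiv ℝ W p e = m * (∑ k, d p k * e.1 k) * W p

lemma IsG.sq {m : ℝ} {d : Pt D → Fin D → ℝ} {W : Pt D → ℝ} (h : IsG m d W) :
    IsG (2 * m) d fun p => W p ^ 2 where
  smooth := h.smooth.pow 2
  pos := fun p => pow_pos (h.pos p) 2
  dle := h.dle
  der := fun p e => by
    have h1 : DifferentiableAt ℝ W p := h.smooth.differentiable (by norm_num) p
    have h2 : HasFDerivAt (fun p => W p ^ 2) ((2 * W p) • fderiv ℝ W p) p := by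
      have := h1.hasFDerivAt.pow 2
      refine this.congr_fderiv ?_
      norm_num
    rw [h2.fderiv]
    simp only [FunLike.coe_smul, Pi.smul_apply, smul_eq_mul]
    rw [h.der]
    ring

lemma pd_mtG {m : ℝ} {d : Pt D → Fin D → ℝ} {W : Pt D → ℝ} (hW : IsG m d W)
    {u : Pt D → Fin D → ℝ} (hu : IsTest u) (e : Pt D) (i : Fin D) (p : Pt D) :
    pd (mt W u) e i p = W p * pd u e i p + m * (∑ k, d p k * e.1 k) * W p * u p i := by
  unfold pd
  have h1 : DifferentiableAt ℝ W p := hW.smooth.differentiable (by norm_num) p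
  have h2 : DifferentiableAt ℝ u p := hu.smooth.differentiable (by norm_num) p
  have h3 := (h1.hasFDerivAt.smul h2.hasFDerivAt).fderiv
  rw [mt_eq, show (fun p => W p • u p) = W • u from rfl, h3]
  simp only [add_apply, FunLike.coe_smul, Pi.smul_apply,
    ContinuousLinearMap.smulRight_apply, Pi.add_apply, smul_eq_mul, hW.der]

lemma sum_ez (d : Fin D → ℝ) : ∑ k, d k * (ez D : Pt D).1 k = 0 :=
  Finset.sum_eq_zero fun k _ => by rw [ez_k, mul_zero]

lemma sum_eh (d : Fin D → ℝ) (i : Fin D) : ∑ k, d k * (eh i : Pt D).1 k = d i := by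
  simp only [eh_k, mul_ite, mul_one, mul_zero]
  rw [Finset.sum_ite_eq']
  simp

/-- the commutator term -/
def cg (d : Pt D → Fin D → ℝ) (u : Pt D → Fin D → ℝ) (i j : Fin D) (p : Pt D) : ℝ :=
  d p i * u p j - d p j * u p i

lemma cu_mtG {m : ℝ} {d : Pt D → Fin D → ℝ} {W : Pt D → ℝ} (hW : IsG m d W)
    {u : Pt D → Fin D → ℝ} (hu : IsTest u) (i j : Fin D) (p : Pt D) :
    cu (mt W u) i j p = W p * (cu u i j p + m * cg d u i j p) := by
  unfold cu cg
  rw [pd_mtG hW hu, pd_mtG hW hu, sum_eh, sum_eh]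
  ring

lemma half_sum {a : Fin D → Fin D → ℝ} (hs : ∀ i j, a i j = a j i) (h0 : ∀ i j, 0 ≤ a i j) :
    2 * ∑ i, ∑ j, (if i < j then a i j else 0) ≤ ∑ i, ∑ j, a i j := by
  have h1 : ∑ i, ∑ j, (if i < j then a i j else 0) = ∑ i, ∑ j, (if j < i then a i j else 0) := by
    rw [Finset.sum_comm]
    refine Finset.sum_congr rfl fun i _ => Finset.sum_congr rfl fun j _ => ?_
    rw [hs]
  rw [two_mul]
  nth_rw 2 [h1]
  rw [← Finset.sum_add_distrib]
  refine Finset.sum_le_sum fun i _ => ?_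
  rw [← Finset.sum_add_distrib]
  refine Finset.sum_le_sum fun j _ => ?_
  have := h0 i j
  by_cases h2 : i < j
  · rw [if_pos h2, if_neg (not_lt.2 h2.le), add_zero]
  · rw [if_neg h2, zero_add]
    split_ifs
    · exact le_rfl
    · exact this

lemma cg_le {d : Pt D → Fin D → ℝ} {p : Pt D} (hd : ∑ k, d p k ^ 2 ≤ 1)
    (u : Pt D → Fin D → ℝ) :
    ∑ i, ∑ j, (if i < j then cg d u i j p ^ 2 else 0) ≤ ∑ i, u p i ^ 2 := by
  have h1 := half_sum (a := fun i j => cg d u i j p ^ 2)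
    (fun i j => by unfold cg; ring) (fun i j => sq_nonneg _)
  have h2 : ∑ i, ∑ j, cg d u i j p ^ 2 =
      2 * ((∑ i, d p i ^ 2) * ∑ i, u p i ^ 2) - 2 * (∑ i, d p i * u p i) ^ 2 := by
    have e1 : (∑ i, d p i ^ 2) * ∑ j, u p j ^ 2 = ∑ i, ∑ j, d p i ^ 2 * u p j ^ 2 :=
      Finset.sum_mul_sum _ _ _ _
    have e2 : (∑ i, d p i ^ 2) * ∑ j, u p j ^ 2 = ∑ i, ∑ j, d p j ^ 2 * u p i ^ 2 := by
      rw [e1, Finset.sum_comm]
    have e3 : (∑ i, d p i * u p i) ^ 2 = ∑ i, ∑ j, (d p i * u p i) * (d p j * u p j) := by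
      rw [pow_two, Finset.sum_mul_sum]
    have e4 : 2 * ((∑ i, d p i ^ 2) * ∑ i, u p i ^ 2) =
        ∑ i, ∑ j, d p i ^ 2 * u p j ^ 2 + ∑ i, ∑ j, d p j ^ 2 * u p i ^ 2 := by
      rw [← e1, ← e2]
      ring
    rw [e4, e3, Finset.mul_sum, ← Finset.sum_add_distrib, ← Finset.sum_sub_distrib]
    refine Finset.sum_congr rfl fun i _ => ?_
    rw [Finset.mul_sum, ← Finset.sum_add_distrib, ← Finset.sum_sub_distrib]
    refine Finset.sum_congr rfl fun j _ => ?_
    unfold cg
    ring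
  have h3 : 0 ≤ ∑ i, u p i ^ 2 := Finset.sum_nonneg fun i _ => sq_nonneg _
  have h4 : (∑ i, d p i ^ 2) * ∑ i, u p i ^ 2 ≤ 1 * ∑ i, u p i ^ 2 :=
    mul_le_mul_of_nonneg_right hd h3
  have h5 := sq_nonneg (∑ i, d p i * u p i)
  linarith

lemma cg_nonneg (d u : Pt D → Fin D → ℝ) (p : Pt D) :
    0 ≤ ∑ i, ∑ j, (if i < j then cg d u i j p ^ 2 else 0) :=
  Finset.sum_nonneg fun i _ => Finset.sum_nonneg fun j _ => by
    split_ifs
    · exact sq_nonneg _
    · exact le_rfl

lemma cg_mt (d : Pt D → Fin D → ℝ) (W : Pt D → ℝ) (u : Pt D → Fin D → ℝ) (i j : Fin D)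
    (p : Pt D) : cg d (mt W u) i j p = W p * cg d u i j p := by
  unfold cg mt
  ring

/-- the weighted identity, pointwise -/
lemma dB_mtG {m : ℝ} {d : Pt D → Fin D → ℝ} {W : Pt D → ℝ} (hW : IsG m d W)
    {u : Pt D → Fin D → ℝ} (hu : IsTest u) (p : Pt D) :
    dC (mt W u) p - m ^ 2 * ∑ i, mt W u p i * mt W u p i ≤
      dB u (mt (fun p => W p ^ 2) u) p := by
  have e1 : dB u (mt (fun p => W p ^ 2) u) p = dC (mt W u) p -
      m ^ 2 * ∑ i, ∑ j, (if i < j then cg d (mt W u) i j p ^ 2 else 0) := by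
    rw [dC_cu]
    unfold dB
    have a1 : ∑ i, pd u (ez D) i p * pd (mt (fun p => W p ^ 2) u) (ez D) i p =
        ∑ i, pd (mt W u) (ez D) i p ^ 2 := by
      refine Finset.sum_congr rfl fun i _ => ?_
      rw [pd_mtG hW.sq hu, pd_mtG hW hu, sum_ez]
      ring
    have a2 : ∑ i, ∑ j, (if i < j then cu u i j p * cu (mt (fun p => W p ^ 2) u) i j p else 0) =
        ∑ i, ∑ j, (if i < j then cu (mt W u) i j p ^ 2 else 0) -
        m ^ 2 * ∑ i, ∑ j, (if i < j then cg d (mt W u) i j p ^ 2 else 0) := by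
      simp only [Finset.mul_sum, ← Finset.sum_sub_distrib]
      refine Finset.sum_congr rfl fun i _ => Finset.sum_congr rfl fun j _ => ?_
      split_ifs
      · rw [cu_mtG hW.sq hu, cu_mtG hW hu, cg_mt]
        ring
      · ring
    rw [a1, a2]
    ring
  rw [e1]
  have h1 := cg_le (hW.dle p) (mt W u)
  have h4 : m ^ 2 * ∑ i, ∑ j, (if i < j then cg d (mt W u) i j p ^ 2 else 0) ≤
      m ^ 2 * ∑ i, mt W u p i * mt W u p i := by
    refine mul_le_mul_of_nonneg_left (h1.trans (le_of_eq ?_)) (sq_nonneg m)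
    exact Finset.sum_congr rfl fun i _ => by rw [pow_two]
  linarith

/-- **The weighted energy inequality.** -/
theorem EC_mtG {κ : ℝ} (hκ : 0 < κ) (hκ2 : κ < Real.pi / 2) {m : ℝ} {d : Pt D → Fin D → ℝ}
    {W : Pt D → ℝ} (hW : IsG m d W) {u : Pt D → Fin D → ℝ} (hu : IsTest u) :
    (1 - m ^ 2 / κ ^ 2) * EC (mt W u) ≤ BC u (mt (fun p => W p ^ 2) u) := by
  have t1 := mt_test hW.smooth hu
  have t2 := mt_test hW.sq.smooth hu
  have h1 : EC (mt W u) - m ^ 2 * N2 (mt W u) ≤ BC u (mt (fun p => W p ^ 2) u) := by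
    unfold EC N2 PR BC
    rw [← integral_const_mul, ← integral_sub (dC_cc t1).int.integrableOn
      ((pr_cc (CcF.test t1) (CcF.test t1)).int.integrableOn.const_mul _)]
    refine integral_mono ((dC_cc t1).int.integrableOn.sub
      ((pr_cc (CcF.test t1) (CcF.test t1)).int.integrableOn.const_mul _))
      (dB_cc hu t2).int.integrableOn fun p => ?_
    exact dB_mtG hW hu p
  have h2 := N2_le hκ hκ2 t1
  have h3 : m ^ 2 * N2 (mt W u) ≤ m ^ 2 / κ ^ 2 * EC (mt W u) := by
    have : m ^ 2 / κ ^ 2 * (κ ^ 2 * N2 (mt W u)) ≤ m ^ 2 / κ ^ 2 * EC (mt W u) :=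
      mul_le_mul_of_nonneg_left h2 (by positivity)
    refine le_trans (le_of_eq ?_) this
    field_simp
  linarith

/-- the energy of a product with a bounded weight -/
theorem EC_mtG_le {m : ℝ} {d : Pt D → Fin D → ℝ} {W : Pt D → ℝ} (hW : IsG m d W) {M : ℝ}
    (hM : ∀ p, W p ≤ M) {u : Pt D → Fin D → ℝ} (hu : IsTest u) :
    EC (mt W u) ≤ M ^ 2 * ((2 + 2 * m ^ 2) * EC u) := by
  have t1 := mt_test hW.smooth hu
  have h1 : EC (mt W u) ≤ M ^ 2 * (2 * EC u + 2 * m ^ 2 * N2 u) := by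
    unfold EC N2 PR
    rw [← integral_const_mul, ← integral_const_mul, ← integral_add
      ((dC_cc hu).int.integrableOn.const_mul _)
      ((pr_cc (CcF.test hu) (CcF.test hu)).int.integrableOn.const_mul _), ← integral_const_mul]
    refine integral_mono (dC_cc t1).int.integrableOn
      ((((dC_cc hu).int.integrableOn.const_mul _).add
      ((pr_cc (CcF.test hu) (CcF.test hu)).int.integrableOn.const_mul _)).const_mul _) fun p => ?_
    simp only
    have hW0 := hW.pos p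
    have hW2 : W p ^ 2 ≤ M ^ 2 := pow_le_pow_left₀ hW0.le (hM p) 2
    have a0 : dC (mt W u) p ≤ W p ^ 2 * (2 * dC u p +
        2 * m ^ 2 * ∑ i, ∑ j, (if i < j then cg d u i j p ^ 2 else 0)) := by
      rw [dC_cu, dC_cu]
      have a1 : ∑ i, pd (mt W u) (ez D) i p ^ 2 = W p ^ 2 * ∑ i, pd u (ez D) i p ^ 2 := by
        rw [Finset.mul_sum]
        refine Finset.sum_congr rfl fun i _ => ?_
        rw [pd_mtG hW hu, sum_ez]
        ring
      have a2 : ∑ i, ∑ j, (if i < j then cu (mt W u) i j p ^ 2 else 0) ≤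
          W p ^ 2 * (2 * ∑ i, ∑ j, (if i < j then cu u i j p ^ 2 else 0) +
          2 * m ^ 2 * ∑ i, ∑ j, (if i < j then cg d u i j p ^ 2 else 0)) := by
        simp only [Finset.mul_sum, ← Finset.sum_add_distrib]
        refine Finset.sum_le_sum fun i _ => Finset.sum_le_sum fun j _ => ?_
        split_ifs
        · rw [cu_mtG hW hu, mul_pow]
          refine mul_le_mul_of_nonneg_left ?_ (sq_nonneg _)
          nlinarith [sq_nonneg (cu u i j p - m * cg d u i j p)]
        · simp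
      have a3 : 0 ≤ ∑ i, pd u (ez D) i p ^ 2 := Finset.sum_nonneg fun i _ => sq_nonneg _
      have a4 : 0 ≤ W p ^ 2 * ∑ i, pd u (ez D) i p ^ 2 := mul_nonneg (sq_nonneg _) a3
      rw [a1]
      nlinarith
    have h1 := cg_le (hW.dle p) u
    have h2 := cg_nonneg d u p
    have h3 : 0 ≤ dC u p := by
      rw [dC_cu]
      refine add_nonneg (Finset.sum_nonneg fun i _ => sq_nonneg _)
        (Finset.sum_nonneg fun i _ => Finset.sum_nonneg fun j _ => ?_)
      split_ifs
      · exact sq_nonneg _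
      · exact le_rfl
    refine a0.trans (mul_le_mul hW2 ?_ (by positivity) (sq_nonneg M))
    have h4 : 2 * m ^ 2 * ∑ i, ∑ j, (if i < j then cg d u i j p ^ 2 else 0) ≤
        2 * m ^ 2 * ∑ i, u p i * u p i := by
      refine mul_le_mul_of_nonneg_left (h1.trans (le_of_eq ?_)) (by positivity)
      exact Finset.sum_congr rfl fun i _ => by rw [pow_two]
    linarith
  have h2 : N2 u ≤ EC u := by
    have := N2_le (κ := 1) one_pos (by linarith [Real.pi_gt_three]) hu
    linarith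
  refine h1.trans (mul_le_mul_of_nonneg_left ?_ (sq_nonneg M))
  nlinarith [sq_nonneg m]

/-! ### Smoothing of Lipschitz functions -/

open scoped Convolution in
/-- smooth Lipschitz approximation -/
theorem smooth_lip {h : (Fin D → ℝ) → ℝ} (hl : LipschitzWith 1 h) {δ : ℝ} (hδ : 0 < δ) :
    ∃ g : (Fin D → ℝ) → ℝ, ContDiff ℝ 1 g ∧ LipschitzWith 1 g ∧ ∀ y, |g y - h y| ≤ δ := by
  obtain ⟨φ, hφ⟩ : ∃ φ : ContDiffBump (0 : Fin D → ℝ), φ.rOut = δ :=
    ⟨⟨δ / 2, δ, half_pos hδ, half_lt_self hδ⟩, rfl⟩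
  have hcont : Continuous h := hl.continuous
  obtain ⟨g, hg⟩ : ∃ g : (Fin D → ℝ) → ℝ, g =
      (φ.normed volume) ⋆[ContinuousLinearMap.lsmul ℝ ℝ, volume] h := ⟨_, rfl⟩
  have hgx : ∀ x, g x = ∫ t, φ.normed volume t * h (x - t) := by
    intro x
    rw [hg]
    rfl
  have hint : ∀ x, Integrable fun t => φ.normed volume t * h (x - t) := by
    intro x
    refine Continuous.integrable_of_hasCompactSupport ?_ ?_
    · exact φ.continuous_normed.mul (hcont.comp (continuous_const.sub continuous_id))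
    · exact φ.hasCompactSupport_normed.mul_right
  refine ⟨g, ?_, ?_, fun y => ?_⟩
  · rw [hg]
    exact φ.hasCompactSupport_normed.contDiff_convolution_left _ φ.contDiff_normed
      (hcont.locallyIntegrable (μ := volume))
  · refine LipschitzWith.of_dist_le_mul fun x y => ?_
    rw [Real.dist_eq, hgx, hgx, ← integral_sub (hint x) (hint y), NNReal.coe_one, one_mul]
    refine (abs_integral_le_integral_abs).trans ?_
    have h1 : ∫ t, φ.normed volume t * dist x y = dist x y := by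
      rw [integral_mul_const, φ.integral_normed, one_mul]
    refine le_trans (integral_mono ((hint x).sub (hint y)).abs ?_ fun t => ?_) h1.le
    · exact (φ.integrable_normed).mul_const _
    · simp only
      rw [← mul_sub, abs_mul, abs_of_nonneg (φ.nonneg_normed t)]
      refine mul_le_mul_of_nonneg_left ?_ (φ.nonneg_normed t)
      have h2 := hl.dist_le_mul (x - t) (y - t)
      rw [Real.dist_eq, NNReal.coe_one, one_mul, dist_sub_right] at h2
      exact h2
  · have h2 := φ.dist_normed_convolution_le (μ := volume) (g := h) (x₀ := y) (ε := δ)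
      hcont.aestronglyMeasurable fun x hx => by
        have h3 := hl.dist_le_mul x y
        rw [NNReal.coe_one, one_mul] at h3
        rw [Metric.mem_ball, hφ] at hx
        exact h3.trans hx.le
    rw [← hg, Real.dist_eq] at h2
    exact h2

lemma clm_sum (f : (Fin D → ℝ) →L[ℝ] ℝ) (x : Fin D → ℝ) :
    f x = ∑ i, x i • f (fun j => if i = j then 1 else 0) :=
  (f : (Fin D → ℝ) →ₗ[ℝ] ℝ).pi_apply_eq_sum_univ x

/-- the gradient of a function which is Lipschitz for the sup norm -/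
lemma grad_le {g : (Fin D → ℝ) → ℝ} (hl : LipschitzWith 1 g) (y : Fin D → ℝ) :
    ∑ k, fderiv ℝ g y (fun j => if k = j then 1 else 0) ^ 2 ≤ 1 := by
  obtain ⟨a, ha⟩ : ∃ a : Fin D → ℝ, a = fun k => fderiv ℝ g y (fun j => if k = j then 1 else 0) :=
    ⟨_, rfl⟩
  have hn : ‖fderiv ℝ g y‖ ≤ 1 := by
    have := norm_fderiv_le_of_lipschitz ℝ (x₀ := y) hl
    simpa using this
  have h1 : ∑ k, |a k| ≤ 1 := by
    obtain ⟨s, hs⟩ : ∃ s : Fin D → ℝ, s = fun k => if 0 ≤ a k then 1 else -1 := ⟨_, rfl⟩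
    have hs1 : ‖s‖ ≤ 1 := by
      refine (pi_norm_le_iff_of_nonneg zero_le_one).2 fun k => ?_
      rw [hs]
      simp only
      split_ifs <;> simp
    have h2 : fderiv ℝ g y s = ∑ k, |a k| := by
      rw [clm_sum]
      refine Finset.sum_congr rfl fun k _ => ?_
      have h3 : a k = fderiv ℝ g y (fun j => if k = j then 1 else 0) := by rw [ha]
      rw [← h3, smul_eq_mul, hs]
      simp only
      split_ifs with h4
      · rw [one_mul, abs_of_nonneg h4]
      · rw [abs_of_neg (not_le.1 h4)]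
        ring
    rw [← h2]
    refine (le_abs_self _).trans ?_
    rw [← Real.norm_eq_abs]
    refine ((fderiv ℝ g y).le_opNorm s).trans ?_
    calc ‖fderiv ℝ g y‖ * ‖s‖ ≤ 1 * 1 := mul_le_mul hn hs1 (norm_nonneg _) zero_le_one
      _ = 1 := one_mul 1
  have h5 : ∀ k, a k ^ 2 ≤ |a k| := by
    intro k
    have h6 : |a k| ≤ 1 :=
      (Finset.single_le_sum (f := fun k => |a k|) (fun _ _ => abs_nonneg _)
        (Finset.mem_univ k)).trans h1
    rw [← sq_abs]
    nlinarith [abs_nonneg (a k)]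
  calc ∑ k, fderiv ℝ g y (fun j => if k = j then 1 else 0) ^ 2 = ∑ k, a k ^ 2 := by rw [ha]
    _ ≤ ∑ k, |a k| := Finset.sum_le_sum fun k _ => h5 k
    _ ≤ 1 := h1

/-! ### The cut off -/

/-- zero up to `δ`, one from `2 δ` to `R - 2 δ`, zero from `R - δ` on -/
def kc (δ R s : ℝ) : ℝ := max 0 (min 1 (min ((s - δ) / δ) ((R - δ - s) / δ)))

lemma kc_cont (δ R : ℝ) : Continuous (kc δ R) := by
  unfold kc
  fun_prop

lemma kc_nonneg (δ R s : ℝ) : 0 ≤ kc δ R s := le_max_left _ _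

lemma kc_le (δ R s : ℝ) : kc δ R s ≤ 1 := max_le zero_le_one (min_le_left _ _)

lemma kc_zero {δ R s : ℝ} (hδ : 0 < δ) (h : s ≤ δ ∨ R - δ ≤ s) : kc δ R s = 0 := by
  unfold kc
  rw [max_eq_left]
  refine (min_le_right _ _).trans ?_
  rcases h with h | h
  · exact (min_le_left _ _).trans (div_nonpos_of_nonpos_of_nonneg (by linarith) hδ.le)
  · exact (min_le_right _ _).trans (div_nonpos_of_nonpos_of_nonneg (by linarith) hδ.le)

lemma kc_one {δ R s : ℝ} (hδ : 0 < δ) (h1 : 2 * δ ≤ s) (h2 : s ≤ R - 2 * δ) : kc δ R s = 1 := by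
  unfold kc
  rw [min_eq_left, max_eq_right zero_le_one]
  refine le_min ?_ ?_
  · rw [le_div_iff₀ hδ]; linarith
  · rw [le_div_iff₀ hδ]; linarith

/-- the cut off of the identity -/
def ps (δ R t : ℝ) : ℝ := ∫ s in (0 : ℝ)..t, kc δ R s

lemma ps_deriv (δ R t : ℝ) : HasDerivAt (ps δ R) (kc δ R t) t :=
  intervalIntegral.integral_hasDerivAt_right ((kc_cont δ R).intervalIntegrable _ _)
    ((kc_cont δ R).stronglyMeasurableAtFilter _ _) (kc_cont δ R).continuousAt

lemma ps_smooth (δ R : ℝ) : ContDiff ℝ 1 (ps δ R) := by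
  rw [contDiff_one_iff_deriv]
  refine ⟨fun t => (ps_deriv δ R t).differentiableAt, ?_⟩
  have : deriv (ps δ R) = kc δ R := funext fun t => (ps_deriv δ R t).deriv
  rw [this]
  exact kc_cont δ R

lemma ps_zero {δ R t : ℝ} (hδ : 0 < δ) (h : t ≤ δ) : ps δ R t = 0 := by
  unfold ps
  have h1 : ∫ s in (0 : ℝ)..t, kc δ R s = ∫ s in (0 : ℝ)..t, (0 : ℝ) := by
    refine intervalIntegral.integral_congr fun s hs => ?_
    have : s ≤ δ := (mem_uIcc.1 hs).elim (fun h2 => h2.2.trans h) fun h2 => h2.2.trans hδ.le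
    exact kc_zero hδ (Or.inl this)
  rw [h1]
  simp

lemma ps_top {δ R t : ℝ} (hδ : 0 < δ) (h : R - δ ≤ t) : ps δ R t = ps δ R (R - δ) := by
  unfold ps
  have h0 : ∀ a b, IntervalIntegrable (kc δ R) volume a b := fun a b =>
    (kc_cont δ R).intervalIntegrable _ _
  rw [← intervalIntegral.integral_add_adjacent_intervals (h0 0 (R - δ)) (h0 (R - δ) t)]
  have h1 : ∫ s in (R - δ)..t, kc δ R s = ∫ s in (R - δ)..t, (0 : ℝ) := by
    refine intervalIntegral.integral_congr fun s hs => ?_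
    rw [uIcc_of_le h] at hs
    exact kc_zero hδ (Or.inr hs.1)
  rw [h1]
  simp

lemma ps_top_ge {δ R : ℝ} (hδ : 0 < δ) (hR : 4 * δ ≤ R) : R - 4 * δ ≤ ps δ R (R - δ) := by
  unfold ps
  have h0 : ∀ a b, IntervalIntegrable (kc δ R) volume a b := fun a b =>
    (kc_cont δ R).intervalIntegrable _ _
  rw [← intervalIntegral.integral_add_adjacent_intervals (h0 0 (2 * δ)) (h0 (2 * δ) (R - δ)),
    ← intervalIntegral.integral_add_adjacent_intervals (h0 (2 * δ) (R - 2 * δ))
      (h0 (R - 2 * δ) (R - δ))]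
  have h1 : 0 ≤ ∫ s in (0 : ℝ)..(2 * δ), kc δ R s :=
    intervalIntegral.integral_nonneg (by linarith) fun s _ => kc_nonneg _ _ _
  have h2 : 0 ≤ ∫ s in (R - 2 * δ)..(R - δ), kc δ R s :=
    intervalIntegral.integral_nonneg (by linarith) fun s _ => kc_nonneg _ _ _
  have h3 : ∫ s in (2 * δ)..(R - 2 * δ), kc δ R s = R - 4 * δ := by
    have : ∫ s in (2 * δ)..(R - 2 * δ), kc δ R s = ∫ s in (2 * δ)..(R - 2 * δ), (1 : ℝ) := by
      refine intervalIntegral.integral_congr fun s hs => ?_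
      rw [uIcc_of_le (by linarith)] at hs
      exact kc_one hδ hs.1 hs.2
    rw [this]
    simp
    ring
  linarith

lemma ps_le {δ R : ℝ} (hδ : 0 < δ) (hR : 4 * δ ≤ R) (t : ℝ) : ps δ R t ≤ R := by
  have key : ∀ t, 0 ≤ t → t ≤ R → ps δ R t ≤ R := by
    intro t h0 h1
    unfold ps
    have h2 : ∫ s in (0 : ℝ)..t, kc δ R s ≤ ∫ s in (0 : ℝ)..t, (1 : ℝ) :=
      intervalIntegral.integral_mono_on h0 ((kc_cont δ R).intervalIntegrable _ _)
        (continuous_const.intervalIntegrable _ _) fun s _ => kc_le _ _ s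
    refine h2.trans ?_
    simpa using h1
  rcases le_total t 0 with h | h
  · rw [ps_zero hδ (h.trans hδ.le)]
    linarith
  · rcases le_total t R with h1 | h1
    · exact key t h h1
    · rw [ps_top hδ (by linarith)]
      exact key _ (by linarith) (by linarith)

/-- the weight -/
theorem weight_exists {m : ℝ} (hm : 0 ≤ m) {f g : Pt D → Fin D → ℝ} {R : ℝ} (hR : 1 / 2 ≤ R)
    (hf0 : ∃ p, f p ≠ 0) (hd : ∀ p q, f p ≠ 0 → g q ≠ 0 → R ≤ dist p.1 q.1) :
    ∃ (d : Pt D → Fin D → ℝ) (W : Pt D → ℝ) (M c : ℝ), IsG m d W ∧ (∀ p, W p ≤ M) ∧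
      (∀ p, f p ≠ 0 → W p = 1) ∧ Real.exp (m * (R - 1 / 2)) ≤ c ∧ ∀ p, g p ≠ 0 → W p = c := by
  obtain ⟨S, hS⟩ : ∃ S : Set (Fin D → ℝ), S = {y | ∃ z, f (y, z) ≠ 0} := ⟨_, rfl⟩
  have hSne : S.Nonempty := by
    obtain ⟨p, hp⟩ := hf0
    refine ⟨p.1, ?_⟩
    rw [hS]
    exact ⟨p.2, hp⟩
  have hl : LipschitzWith 1 fun y : Fin D → ℝ => min (Metric.infDist y S) R :=
    (Metric.lipschitz_infDist_pt S).min_const R
  obtain ⟨r, hr1, hr2, hr3⟩ := smooth_lip hl (δ := 1 / 8) (by norm_num)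
  have hrf : ∀ p, f p ≠ 0 → r p.1 ≤ 1 / 8 := by
    intro p hp
    have h1 : p.1 ∈ S := by
      rw [hS]
      exact ⟨p.2, hp⟩
    have h2 := hr3 p.1
    rw [Metric.infDist_zero_of_mem h1, min_eq_left (by linarith), sub_zero] at h2
    exact (le_abs_self _).trans h2
  have hrg : ∀ p, g p ≠ 0 → R - 1 / 8 ≤ r p.1 := by
    intro p hp
    have h1 : R ≤ Metric.infDist p.1 S := by
      rw [Metric.le_infDist hSne]
      intro y hy
      rw [hS] at hy
      obtain ⟨z, hz⟩ := hy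
      rw [dist_comm]
      exact hd (y, z) p hz hp
    have h2 := hr3 p.1
    rw [min_eq_right h1] at h2
    have := (abs_le.1 h2).1
    linarith
  have h8 : (0 : ℝ) < 1 / 8 := by norm_num
  refine ⟨fun p k => kc (1 / 8) R (r p.1) * fderiv ℝ r p.1 (fun j => if k = j then 1 else 0),
    fun p => Real.exp (m * ps (1 / 8) R (r p.1)), Real.exp (m * R),
    Real.exp (m * ps (1 / 8) R (R - 1 / 8)), ⟨?_, fun p => Real.exp_pos _, fun p => ?_,
      fun p e => ?_⟩, fun p => ?_, fun p hp => ?_, ?_, fun p hp => ?_⟩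
  · exact Real.contDiff_exp.comp (contDiff_const.mul ((ps_smooth _ _).comp
      (hr1.comp contDiff_fst)))
  · have h1 := grad_le hr2 p.1
    have h2 : kc (1 / 8) R (r p.1) ^ 2 ≤ 1 :=
      pow_le_one₀ (kc_nonneg _ _ _) (kc_le _ _ _)
    simp only [mul_pow]
    rw [← Finset.mul_sum]
    have h3 : 0 ≤ ∑ k, fderiv ℝ r p.1 (fun j => if k = j then 1 else 0) ^ 2 :=
      Finset.sum_nonneg fun k _ => sq_nonneg _
    calc _ ≤ 1 * 1 := mul_le_mul h2 h1 h3 zero_le_one
      _ = 1 := one_mul 1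
  · have h1 : HasFDerivAt r (fderiv ℝ r p.1) p.1 :=
      (hr1.differentiable (by norm_num) p.1).hasFDerivAt
    have h2 : HasFDerivAt (fun p : Pt D => r p.1)
        ((fderiv ℝ r p.1).comp (ContinuousLinearMap.fst ℝ (Fin D → ℝ) ℝ)) p :=
      h1.comp p hasFDerivAt_fst
    have h3 := (((ps_deriv (1 / 8) R (r p.1)).comp_hasFDerivAt p h2).const_mul m).exp
    have h4 : fderiv ℝ (fun p : Pt D => Real.exp (m * ps (1 / 8) R (r p.1))) p = _ := h3.fderiv
    rw [h4]
    simp only [FunLike.coe_smul, Pi.smul_apply, smul_eq_mul, ContinuousLinearMap.comp_apply,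
      ContinuousLinearMap.coe_fst', Function.comp]
    rw [clm_sum (fderiv ℝ r p.1) e.1]
    have h5 : ∑ k, kc (1 / 8) R (r p.1) * fderiv ℝ r p.1 (fun j => if k = j then 1 else 0) *
        e.1 k = kc (1 / 8) R (r p.1) *
          ∑ k, e.1 k • fderiv ℝ r p.1 (fun j => if k = j then 1 else 0) := by
      rw [Finset.mul_sum]
      refine Finset.sum_congr rfl fun k _ => ?_
      rw [smul_eq_mul]
      ring
    rw [h5]
    ring
  · exact Real.exp_le_exp.2 (mul_le_mul_of_nonneg_left (ps_le h8 (by linarith) _) hm)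
  · simp only
    rw [ps_zero h8 (hrf p hp), mul_zero, Real.exp_zero]
  · refine Real.exp_le_exp.2 (mul_le_mul_of_nonneg_left ?_ hm)
    have := ps_top_ge h8 (R := R) (by linarith)
    linarith
  · simp only
    rw [ps_top h8 (hrg p hp)]

end

end Pool.Agent.N839.C
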