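import Pool.Agent.N839.C.Bil

/-!
# The sharp Wirtinger inequality in the slab; exponential weights
-/

set_option autoImplicit false
set_option linter.unusedSectionVars false

open MeasureTheory Set Filter Topology
open scoped Classical

namespace Pool.Agent.N839.C

open Pool.Agent.N990 Pool.Agent.N990.C

noncomputable section

variable {D : ℕ}

/-- one dimensional Wirtinger inequality, with any constant below the sharp one -/
lemma wirt1 {κ : ℝ} (hκ : 0 < κ) (hκ2 : κ < Real.pi / 2) {φ φ' : ℝ → ℝ}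
    (h : ∀ z, HasDerivAt φ (φ' z) z) (hc : Continuous φ') (h0 : φ 0 = 0) :
    κ ^ 2 * ∫ z in Icc (0 : ℝ) 1, φ z ^ 2 ≤ ∫ z in Icc (0 : ℝ) 1, φ' z ^ 2 := by
  have hφ : Continuous φ := continuous_iff_continuousAt.2 fun z => (h z).continuousAt
  obtain ⟨η, hη0, hη1⟩ : ∃ η : ℝ, 0 < η ∧ κ * (1 + η) ≤ Real.pi / 2 := by
    refine ⟨(Real.pi / 2 - κ) / κ, div_pos (by linarith) hκ, le_of_eq ?_⟩
    field_simp
    ring
  have hsin : ∀ z ∈ Icc (0 : ℝ) 1, 0 < Real.sin (κ * (z + η)) := by
    intro z hz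
    refine Real.sin_pos_of_pos_of_lt_pi (mul_pos hκ (by linarith [hz.1])) ?_
    have : κ * (z + η) ≤ κ * (1 + η) := mul_le_mul_of_nonneg_left (by linarith [hz.2]) hκ.le
    linarith [Real.pi_pos]
  obtain ⟨c, hcd⟩ : ∃ c : ℝ → ℝ, c = fun z => Real.cos (κ * (z + η)) / Real.sin (κ * (z + η)) :=
    ⟨_, rfl⟩
  obtain ⟨F', hF'⟩ : ∃ F' : ℝ → ℝ, F' = fun z =>
      -κ ^ 2 * (1 + c z ^ 2) * φ z ^ 2 + κ * c z * (2 * φ z * φ' z) := ⟨_, rfl⟩
  have hder : ∀ z ∈ Icc (0 : ℝ) 1, HasDerivAt (fun z => κ * c z * φ z ^ 2) (F' z) z := by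
    intro z hz
    have s0 := (hsin z hz).ne'
    have d0 : HasDerivAt (fun z => κ * (z + η)) κ z := by
      have := ((hasDerivAt_id z).add_const η).const_mul κ
      simpa using this
    have d1 : HasDerivAt (fun z => Real.sin (κ * (z + η))) (Real.cos (κ * (z + η)) * κ) z :=
      d0.sin
    have d2 : HasDerivAt (fun z => Real.cos (κ * (z + η))) (-Real.sin (κ * (z + η)) * κ) z :=
      d0.cos
    have d3 : HasDerivAt c (-κ * (1 + c z ^ 2)) z := by
      have d4 := d2.div d1 s0
      have e1 : (-Real.sin (κ * (z + η)) * κ * Real.sin (κ * (z + η)) -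
          Real.cos (κ * (z + η)) * (Real.cos (κ * (z + η)) * κ)) / Real.sin (κ * (z + η)) ^ 2 =
          -κ * (1 + c z ^ 2) := by
        rw [hcd]
        simp only
        field_simp
        ring
      rw [e1] at d4
      rw [hcd] at d4 ⊢
      exact d4
    have d5 : HasDerivAt (fun z => φ z ^ 2) (2 * φ z * φ' z) z := by
      have := (h z).pow 2
      refine this.congr_deriv ?_
      norm_num
    have d6 := (d3.const_mul κ).mul d5
    refine d6.congr_deriv ?_
    rw [hF']
    simp only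
    ring
  have hcc : ContinuousOn c (Icc (0 : ℝ) 1) := by
    rw [hcd]
    refine ContinuousOn.div ?_ ?_ fun z hz => (hsin z hz).ne'
    · exact (Real.continuous_cos.comp (by fun_prop)).continuousOn
    · exact (Real.continuous_sin.comp (by fun_prop)).continuousOn
  have hF'c : ContinuousOn F' (Icc (0 : ℝ) 1) := by
    rw [hF']
    have e1 := hφ.continuousOn (s := Icc (0 : ℝ) 1)
    have e2 := hc.continuousOn (s := Icc (0 : ℝ) 1)
    fun_prop
  have hint : IntervalIntegrable F' volume 0 1 := by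
    refine ContinuousOn.intervalIntegrable ?_
    rwa [uIcc_of_le zero_le_one]
  have hftc : ∫ z in (0 : ℝ)..1, F' z = κ * c 1 * φ 1 ^ 2 - κ * c 0 * φ 0 ^ 2 := by
    refine intervalIntegral.integral_eq_sub_of_hasDerivAt
      (f := fun z => κ * c z * φ z ^ 2) (fun z hz => ?_) hint
    rw [uIcc_of_le zero_le_one] at hz
    exact hder z hz
  have hc1 : 0 ≤ c 1 := by
    rw [hcd]
    simp only
    refine div_nonneg (Real.cos_nonneg_of_neg_pi_div_two_le_of_le ?_ hη1)
      (hsin 1 ⟨zero_le_one, le_rfl⟩).le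
    have : 0 < κ * (1 + η) := by positivity
    linarith [Real.pi_pos]
  have hge : 0 ≤ ∫ z in (0 : ℝ)..1, F' z := by
    rw [hftc, h0]
    have : 0 ≤ κ * c 1 * φ 1 ^ 2 := by positivity
    simpa using this
  have hle : ∫ z in (0 : ℝ)..1, F' z ≤ ∫ z in (0 : ℝ)..1, (φ' z ^ 2 - κ ^ 2 * φ z ^ 2) := by
    refine intervalIntegral.integral_mono_on zero_le_one hint ?_ fun z hz => ?_
    · exact ((hc.pow 2).sub ((hφ.pow 2).const_mul _)).intervalIntegrable _ _
    · rw [hF']
      simp only
      nlinarith [sq_nonneg (φ' z - κ * c z * φ z)]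
  have i1 : IntervalIntegrable (fun z => φ' z ^ 2) volume 0 1 :=
    (hc.pow 2).intervalIntegrable _ _
  have i2 : IntervalIntegrable (fun z => κ ^ 2 * φ z ^ 2) volume 0 1 :=
    ((hφ.pow 2).const_mul _).intervalIntegrable _ _
  rw [intervalIntegral.integral_sub i1 i2, intervalIntegral.integral_const_mul] at hle
  have j1 : ∫ z in Icc (0 : ℝ) 1, φ z ^ 2 = ∫ z in (0 : ℝ)..1, φ z ^ 2 := by
    rw [intervalIntegral.integral_of_le zero_le_one, integral_Icc_eq_integral_Ioc]
  have j2 : ∫ z in Icc (0 : ℝ) 1, φ' z ^ 2 = ∫ z in (0 : ℝ)..1, φ' z ^ 2 := by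
    rw [intervalIntegral.integral_of_le zero_le_one, integral_Icc_eq_integral_Ioc]
  rw [j1, j2]
  linarith

/-- **The Wirtinger inequality.** -/
theorem wirt {κ : ℝ} (hκ : 0 < κ) (hκ2 : κ < Real.pi / 2) {u : Pt D → Fin D → ℝ}
    (hu : IsTest u) (i : Fin D) :
    κ ^ 2 * ∫ p in Slb D, u p i ^ 2 ≤ ∫ p in Slb D, pd u (ez D) i p ^ 2 := by
  have c1 := (u_cc hu i).sq
  have c2 := (pd_cc hu (ez D) i).sq
  rw [int_slb c1, int_slb c2, ← integral_const_mul]
  have m1 : Integrable fun y : Fin D → ℝ => ∫ z in Icc (0 : ℝ) 1, u (y, z) i ^ 2 := by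
    have h1 := (c1.int.integrableOn (s := (univ ×ˢ Icc (0 : ℝ) 1 : Set (Pt D))))
    unfold IntegrableOn at h1
    rw [Measure.volume_eq_prod, ← Measure.prod_restrict, Measure.restrict_univ] at h1
    exact h1.integral_prod_left
  have m2 : Integrable fun y : Fin D → ℝ =>
      ∫ z in Icc (0 : ℝ) 1, pd u (ez D) i (y, z) ^ 2 := by
    have h1 := (c2.int.integrableOn (s := (univ ×ˢ Icc (0 : ℝ) 1 : Set (Pt D))))
    unfold IntegrableOn at h1
    rw [Measure.volume_eq_prod, ← Measure.prod_restrict, Measure.restrict_univ] at h1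
    exact h1.integral_prod_left
  refine integral_mono (m1.const_mul _) m2 fun y => ?_
  refine wirt1 hκ hκ2 (φ := fun z => u (y, z) i) (φ' := fun z => pd u (ez D) i (y, z)) ?_ ?_ ?_
  · intro z
    have h1 : HasFDerivAt u (fderiv ℝ u (y, z)) (y, z) :=
      (hu.smooth.differentiable (by norm_num) (y, z)).hasFDerivAt
    have h2 : HasDerivAt (fun t : ℝ => ((y, t) : Pt D)) (ez D) z := by
      have h3 : HasDerivAt (fun t : ℝ => ((y, t) : Pt D)) ((0 : Fin D → ℝ), (1 : ℝ)) z :=
        (hasDerivAt_const z y).prodMk (hasDerivAt_id z)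
      exact h3
    have h3 := h1.comp_hasDerivAt z h2
    have h4 := (hasDerivAt_pi.1 h3) i
    exact h4
  · exact (pd_cc hu (ez D) i).1.comp (continuous_const.prodMk continuous_id)
  · show u (y, 0) i = 0
    rw [hu.wall y]
    rfl

lemma N2_eq {u : Pt D → Fin D → ℝ} (hu : CcF u) : N2 u = ∑ i, ∫ p in Slb D, u p i ^ 2 := by
  unfold N2 PR
  rw [integral_finsetSum _ fun i _ => ((hu i).mul (hu i).1).int.integrableOn]
  simp only [pow_two]

/-- the norm is bounded by the energy -/
theorem N2_le {κ : ℝ} (hκ : 0 < κ) (hκ2 : κ < Real.pi / 2) {u : Pt D → Fin D → ℝ}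
    (hu : IsTest u) : κ ^ 2 * N2 u ≤ EC u := by
  rw [N2_eq (CcF.test hu), Finset.mul_sum]
  exact (Finset.sum_le_sum fun i _ => wirt hκ hκ2 hu i).trans (EC_vert hu)

/-! ### Weights -/

/-- a horizontal weight: a function of one coordinate with logarithmic derivative at most `m` -/
structure IsW (m : ℝ) (k : Fin D) (d W : Pt D → ℝ) : Prop where
  smooth : ContDiff ℝ 1 W
  pos : ∀ p, 0 < W p
  dle : ∀ p, |d p| ≤ 1
  dcont : Continuous d
  der : ∀ p (e : Pt D), fderiv ℝ W p e = m * d p * e.1 k * W p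

/-- the product with the weight -/
def mt (W : Pt D → ℝ) (u : Pt D → Fin D → ℝ) : Pt D → Fin D → ℝ := fun p i => W p * u p i

lemma mt_eq (W : Pt D → ℝ) (u : Pt D → Fin D → ℝ) : mt W u = fun p => W p • u p := rfl

lemma IsW.sq {m : ℝ} {k : Fin D} {d W : Pt D → ℝ} (h : IsW m k d W) :
    IsW (2 * m) k d fun p => W p ^ 2 where
  smooth := h.smooth.pow 2
  pos := fun p => pow_pos (h.pos p) 2
  dle := h.dle
  dcont := h.dcont
  der := fun p e => by
    have h1 : DifferentiableAt ℝ W p := h.smooth.differentiable (by norm_num) p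
    have h2 : HasFDerivAt (fun p => W p ^ 2) ((2 * W p) • fderiv ℝ W p) p := by
      have := h1.hasFDerivAt.pow 2
      refine this.congr_fderiv ?_
      norm_num
    rw [h2.fderiv]
    simp only [FunLike.coe_smul, Pi.smul_apply, smul_eq_mul]
    rw [h.der]
    ring

lemma mt_test {W : Pt D → ℝ} (hW : ContDiff ℝ 1 W) {u : Pt D → Fin D → ℝ} (hu : IsTest u) :
    IsTest (mt W u) := by
  rw [mt_eq]
  refine ⟨hW.smul hu.smooth, hu.supp.mono fun p hp => ?_, fun y => ?_⟩
  · rw [Function.mem_support] at hp ⊢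
    intro h
    apply hp
    rw [h, smul_zero]
  · rw [hu.wall, smul_zero]

lemma mt_cc {W : Pt D → ℝ} (hW : Continuous W) {u : Pt D → Fin D → ℝ} (hu : CcF u) :
    CcF (mt W u) := fun i => by
  have := (hu i).mul hW
  unfold mt
  simpa only [mul_comm] using this

lemma pd_mt {m : ℝ} {k : Fin D} {d W : Pt D → ℝ} (hW : IsW m k d W) {u : Pt D → Fin D → ℝ}
    (hu : IsTest u) (e : Pt D) (i : Fin D) (p : Pt D) :
    pd (mt W u) e i p = W p * pd u e i p + m * d p * e.1 k * W p * u p i := by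
  unfold pd
  have h1 : DifferentiableAt ℝ W p := hW.smooth.differentiable (by norm_num) p
  have h2 : DifferentiableAt ℝ u p := hu.smooth.differentiable (by norm_num) p
  have h3 := (h1.hasFDerivAt.smul h2.hasFDerivAt).fderiv
  rw [mt_eq, show (fun p => W p • u p) = W • u from rfl, h3]
  simp only [add_apply, FunLike.coe_smul, Pi.smul_apply,
    ContinuousLinearMap.smulRight_apply, Pi.add_apply, smul_eq_mul, hW.der]

lemma ez_k (k : Fin D) : (ez D : Pt D).1 k = 0 := rfl

lemma eh_k (i k : Fin D) : (eh i : Pt D).1 k = if k = i then 1 else 0 := by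
  show (Pi.single i (1 : ℝ) : Fin D → ℝ) k = _
  rw [Pi.single_apply]

/-- the commutator term -/
def ct (k : Fin D) (u : Pt D → Fin D → ℝ) (i j : Fin D) (p : Pt D) : ℝ :=
  (if k = i then 1 else 0) * u p j - (if k = j then 1 else 0) * u p i

lemma cu_mt {m : ℝ} {k : Fin D} {d W : Pt D → ℝ} (hW : IsW m k d W) {u : Pt D → Fin D → ℝ}
    (hu : IsTest u) (i j : Fin D) (p : Pt D) :
    cu (mt W u) i j p = W p * (cu u i j p + m * d p * ct k u i j p) := by
  unfold cu ct
  rw [pd_mt hW hu, pd_mt hW hu, eh_k, eh_k]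
  ring

lemma ct_le (k : Fin D) (u : Pt D → Fin D → ℝ) (p : Pt D) :
    ∑ i, ∑ j, (if i < j then ct k u i j p ^ 2 else 0) ≤ ∑ i, u p i ^ 2 := by
  have h1 : ∀ i j : Fin D, (if i < j then ct k u i j p ^ 2 else 0) =
      (if k = i then (if k < j then u p j ^ 2 else 0) else 0) +
        (if k = j then (if i < k then u p i ^ 2 else 0) else 0) := by
    intro i j
    unfold ct
    by_cases hij : i < j
    · rw [if_pos hij]
      by_cases hi : k = i
      · have hj : k ≠ j := by rw [hi]; exact hij.ne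
        subst hi
        rw [if_pos rfl, if_neg hj, if_pos rfl, if_pos hij, if_neg hj]
        ring
      · rw [if_neg hi, if_neg hi]
        by_cases hj : k = j
        · subst hj
          rw [if_pos rfl, if_pos rfl, if_pos hij]
          ring
        · rw [if_neg hj, if_neg hj]
          ring
    · rw [if_neg hij]
      have e1 : (if k = i then (if k < j then u p j ^ 2 else 0) else 0) = 0 := by
        split_ifs with h2 h3
        · exact absurd (h2 ▸ h3) hij
        · rfl
        · rfl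
      have e2 : (if k = j then (if i < k then u p i ^ 2 else 0) else 0) = 0 := by
        split_ifs with h2 h3
        · exact absurd (h2 ▸ h3) hij
        · rfl
        · rfl
      rw [e1, e2, add_zero]
  simp only [h1, Finset.sum_add_distrib]
  have h2 : ∑ i : Fin D, ∑ j : Fin D, (if k = i then (if k < j then u p j ^ 2 else 0) else 0) =
      ∑ j : Fin D, if k < j then u p j ^ 2 else 0 := by
    rw [Finset.sum_comm]
    refine Finset.sum_congr rfl fun j _ => ?_
    rw [Finset.sum_ite_eq]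
    simp
  have h3 : ∑ i : Fin D, ∑ j : Fin D, (if k = j then (if i < k then u p i ^ 2 else 0) else 0) =
      ∑ i : Fin D, if i < k then u p i ^ 2 else 0 := by
    refine Finset.sum_congr rfl fun i _ => ?_
    rw [Finset.sum_ite_eq]
    simp
  rw [h2, h3, ← Finset.sum_add_distrib]
  refine Finset.sum_le_sum fun i _ => ?_
  have := sq_nonneg (u p i)
  split_ifs with a b
  · exact absurd a (not_lt.2 b.le)
  · linarith
  · linarith
  · linarith

lemma ct_mt (k : Fin D) (W : Pt D → ℝ) (u : Pt D → Fin D → ℝ) (i j : Fin D) (p : Pt D) :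
    ct k (mt W u) i j p = W p * ct k u i j p := by
  unfold ct mt
  ring

/-- the weighted identity, pointwise -/
lemma dB_mt {m : ℝ} {k : Fin D} {d W : Pt D → ℝ} (hW : IsW m k d W) {u : Pt D → Fin D → ℝ}
    (hu : IsTest u) (p : Pt D) :
    dC (mt W u) p - m ^ 2 * ∑ i, mt W u p i * mt W u p i ≤
      dB u (mt (fun p => W p ^ 2) u) p := by
  have e1 : dB u (mt (fun p => W p ^ 2) u) p = dC (mt W u) p -
      (m * d p) ^ 2 * ∑ i, ∑ j, (if i < j then ct k (mt W u) i j p ^ 2 else 0) := by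
    rw [dC_cu]
    unfold dB
    have a1 : ∑ i, pd u (ez D) i p * pd (mt (fun p => W p ^ 2) u) (ez D) i p =
        ∑ i, pd (mt W u) (ez D) i p ^ 2 := by
      refine Finset.sum_congr rfl fun i _ => ?_
      rw [pd_mt hW.sq hu, pd_mt hW hu, ez_k]
      ring
    have a2 : ∑ i, ∑ j, (if i < j then cu u i j p * cu (mt (fun p => W p ^ 2) u) i j p else 0) =
        ∑ i, ∑ j, (if i < j then cu (mt W u) i j p ^ 2 else 0) -
        (m * d p) ^ 2 * ∑ i, ∑ j, (if i < j then ct k (mt W u) i j p ^ 2 else 0) := by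
      simp only [Finset.mul_sum, ← Finset.sum_sub_distrib]
      refine Finset.sum_congr rfl fun i _ => Finset.sum_congr rfl fun j _ => ?_
      split_ifs
      · rw [cu_mt hW.sq hu, cu_mt hW hu, ct_mt]
        ring
      · ring
    rw [a1, a2]
    ring
  rw [e1]
  have h1 := ct_le k (mt W u) p
  have h2 : 0 ≤ ∑ i, ∑ j, (if i < j then ct k (mt W u) i j p ^ 2 else 0) :=
    Finset.sum_nonneg fun i _ => Finset.sum_nonneg fun j _ => by
      split_ifs
      · exact sq_nonneg _
      · exact le_rfl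
  have h3 : (m * d p) ^ 2 ≤ m ^ 2 := by
    rw [mul_pow, ← sq_abs (d p)]
    have : |d p| ^ 2 ≤ 1 := pow_le_one₀ (abs_nonneg _) (hW.dle p)
    nlinarith [sq_nonneg m]
  have h4 : (m * d p) ^ 2 * ∑ i, ∑ j, (if i < j then ct k (mt W u) i j p ^ 2 else 0) ≤
      m ^ 2 * ∑ i, mt W u p i * mt W u p i := by
    refine mul_le_mul h3 (h1.trans (le_of_eq ?_)) h2 (sq_nonneg m)
    exact Finset.sum_congr rfl fun i _ => by rw [pow_two]
  linarith

/-- **The weighted energy inequality.** -/
theorem EC_mt {κ : ℝ} (hκ : 0 < κ) (hκ2 : κ < Real.pi / 2) {m : ℝ} {k : Fin D} {d W : Pt D → ℝ}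
    (hW : IsW m k d W) {u : Pt D → Fin D → ℝ} (hu : IsTest u) :
    (1 - m ^ 2 / κ ^ 2) * EC (mt W u) ≤ BC u (mt (fun p => W p ^ 2) u) := by
  have t1 := mt_test hW.smooth hu
  have t2 := mt_test hW.sq.smooth hu
  have h1 : EC (mt W u) - m ^ 2 * N2 (mt W u) ≤ BC u (mt (fun p => W p ^ 2) u) := by
    unfold EC N2 PR BC
    rw [← integral_const_mul, ← integral_sub (dC_cc t1).int.integrableOn
      ((pr_cc (CcF.test t1) (CcF.test t1)).int.integrableOn.const_mul _)]
    refine integral_mono ((dC_cc t1).int.integrableOn.sub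
      ((pr_cc (CcF.test t1) (CcF.test t1)).int.integrableOn.const_mul _))
      (dB_cc hu t2).int.integrableOn fun p => ?_
    exact dB_mt hW hu p
  have h2 := N2_le hκ hκ2 t1
  have h3 : m ^ 2 * N2 (mt W u) ≤ m ^ 2 / κ ^ 2 * EC (mt W u) := by
    have : m ^ 2 / κ ^ 2 * (κ ^ 2 * N2 (mt W u)) ≤ m ^ 2 / κ ^ 2 * EC (mt W u) :=
      mul_le_mul_of_nonneg_left h2 (by positivity)
    refine le_trans (le_of_eq ?_) this
    field_simp
  linarith

/-- the energy of a product with a bounded weight -/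
theorem EC_mt_le {m : ℝ} {k : Fin D} {d W : Pt D → ℝ} (hW : IsW m k d W) {M : ℝ}
    (hM : ∀ p, W p ≤ M) {u : Pt D → Fin D → ℝ} (hu : IsTest u) :
    EC (mt W u) ≤ M ^ 2 * ((2 + 2 * m ^ 2) * EC u) := by
  have t1 := mt_test hW.smooth hu
  have h1 : EC (mt W u) ≤ M ^ 2 * (2 * EC u + 2 * m ^ 2 * N2 u) := by
    unfold EC N2 PR
    rw [← integral_const_mul, ← integral_const_mul, ← integral_add
      ((dC_cc hu).int.integrableOn.const_mul _)
      ((pr_cc (CcF.test hu) (CcF.test hu)).int.integrableOn.const_mul _), ← integral_const_mul]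
    refine integral_mono (dC_cc t1).int.integrableOn
      ((((dC_cc hu).int.integrableOn.const_mul _).add
      ((pr_cc (CcF.test hu) (CcF.test hu)).int.integrableOn.const_mul _)).const_mul _) fun p => ?_
    simp only
    have hW0 := hW.pos p
    have hW2 : W p ^ 2 ≤ M ^ 2 := pow_le_pow_left₀ hW0.le (hM p) 2
    have a0 : dC (mt W u) p ≤ W p ^ 2 * (2 * dC u p +
        2 * m ^ 2 * ∑ i, ∑ j, (if i < j then ct k u i j p ^ 2 else 0)) := by
      rw [dC_cu, dC_cu]
      have a1 : ∑ i, pd (mt W u) (ez D) i p ^ 2 = W p ^ 2 * ∑ i, pd u (ez D) i p ^ 2 := by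
        rw [Finset.mul_sum]
        refine Finset.sum_congr rfl fun i _ => ?_
        rw [pd_mt hW hu, ez_k]
        ring
      have a2 : ∑ i, ∑ j, (if i < j then cu (mt W u) i j p ^ 2 else 0) ≤
          W p ^ 2 * (2 * ∑ i, ∑ j, (if i < j then cu u i j p ^ 2 else 0) +
          2 * m ^ 2 * ∑ i, ∑ j, (if i < j then ct k u i j p ^ 2 else 0)) := by
        simp only [Finset.mul_sum, ← Finset.sum_add_distrib]
        refine Finset.sum_le_sum fun i _ => Finset.sum_le_sum fun j _ => ?_
        split_ifs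
        · rw [cu_mt hW hu, mul_pow]
          refine mul_le_mul_of_nonneg_left ?_ (sq_nonneg _)
          have b1 : (m * d p * ct k u i j p) ^ 2 ≤ m ^ 2 * ct k u i j p ^ 2 := by
            rw [mul_pow, mul_pow, ← sq_abs (d p)]
            have : |d p| ^ 2 ≤ 1 := pow_le_one₀ (abs_nonneg _) (hW.dle p)
            have b2 : 0 ≤ m ^ 2 * ct k u i j p ^ 2 := by positivity
            nlinarith
          nlinarith [sq_nonneg (cu u i j p - m * d p * ct k u i j p)]
        · simp
      have a3 : 0 ≤ ∑ i, pd u (ez D) i p ^ 2 := Finset.sum_nonneg fun i _ => sq_nonneg _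
      have a4 : 0 ≤ W p ^ 2 * ∑ i, pd u (ez D) i p ^ 2 := mul_nonneg (sq_nonneg _) a3
      rw [a1]
      nlinarith
    have h1 := ct_le k u p
    have h2 : 0 ≤ ∑ i, ∑ j, (if i < j then ct k u i j p ^ 2 else 0) :=
      Finset.sum_nonneg fun i _ => Finset.sum_nonneg fun j _ => by
        split_ifs
        · exact sq_nonneg _
        · exact le_rfl
    have h3 : 0 ≤ dC u p := by
      rw [dC_cu]
      refine add_nonneg (Finset.sum_nonneg fun i _ => sq_nonneg _)
        (Finset.sum_nonneg fun i _ => Finset.sum_nonneg fun j _ => ?_)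
      split_ifs
      · exact sq_nonneg _
      · exact le_rfl
    refine a0.trans (mul_le_mul hW2 ?_ (by positivity) (sq_nonneg M))
    have h4 : 2 * m ^ 2 * ∑ i, ∑ j, (if i < j then ct k u i j p ^ 2 else 0) ≤
        2 * m ^ 2 * ∑ i, u p i * u p i := by
      refine mul_le_mul_of_nonneg_left (h1.trans (le_of_eq ?_)) (by positivity)
      exact Finset.sum_congr rfl fun i _ => by rw [pow_two]
    linarith
  have h2 : N2 u ≤ EC u := by
    have := N2_le (κ := 1) one_pos (by linarith [Real.pi_gt_three]) hu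
    linarith
  refine h1.trans (mul_le_mul_of_nonneg_left ?_ (sq_nonneg M))
  nlinarith [sq_nonneg m]

end

end Pool.Agent.N839.C
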